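import Pool.Agent.H364.PR.Ind
import Pool.Graph.R_pool_sql_team_seeded_9f66d723.W5h84.MT.Main

/-!
# The congruence subgroup property for one part
-/

set_option autoImplicit false

namespace Pool.Agent.H364.PR

open Pool.Agent.TH933.SPC
open Pool.Agent.TH933.SPC.GENM (uU uL uD RU RL sym_mem)
open Matrix
open Sy (tv bv om Pr Ev hd)

variable {g r : ℕ}

namespace Ad

variable {χ : SS g →* ℤˣ} {e : Fin r → Fin g}

/-- the matrices of the elements of `V` which are trivial on the other parts -/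
noncomputable def PV (h : Ad χ e) (V : Subgroup (MulAut (SS g))) : Subgroup (GG r) :=
  ((V ⊓ NX {χ' | χ' ≠ χ}).subgroupOf (St χ)).map h.rho

theorem mem_PV (h : Ad χ e) {V : Subgroup (MulAut (SS g))} {A : GG r} :
    A ∈ h.PV V ↔ ∃ ψ ∈ V, ψ ∈ NX {χ' | χ' ≠ χ} ∧ h.Bm ψ = (A : MG r) := by
  constructor
  · rintro ⟨ψ, h1, h2⟩
    exact ⟨ψ.1, h1.1, h1.2, congrArg Units.val h2⟩
  · rintro ⟨ψ, h0, h1, h2⟩
    exact ⟨⟨ψ, h1.1 χ⟩, ⟨h0, h1⟩, Units.ext h2⟩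

theorem PV_norm (h : Ad χ e) (hr : 3 ≤ r) (V : Subgroup (MulAut (SS g))) [hV : V.Normal]
    {A B : GG r} (hA : A ∈ EL r) (hB : B ∈ h.PV V) : A * B * A⁻¹ ∈ h.PV V := by
  obtain ⟨ψ, rfl⟩ := h.range_ge hr hA
  obtain ⟨φ, ⟨h0, h1⟩, rfl⟩ := hB
  refine ⟨ψ * φ * ψ⁻¹, ⟨?_, ?_⟩, by rw [map_mul, map_mul, map_inv]⟩
  · exact hV.conj_mem _ h0 _
  · exact NX.conj ψ.1 (fun χ' hχ => comp_ne ψ.2 hχ) h1

theorem PV_tv (h : Ad χ e) (hr : 3 ≤ r) {o p : Fin r} (ho : (o : ℕ) = 0) (hop : p ≠ o)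
    (V : Subgroup (MulAut (SS g))) (M : ℕ) (hM : ∀ φ : MulAut (SS g), φ ^ M ∈ V) :
    ∃ n : ℕ, 0 < n ∧ ∀ u, Pr o u → ∀ t : ℤ, tv u (((4 * n * M : ℕ) : ℤ) * t) ∈ h.PV V := by
  obtain ⟨n, hn, h1⟩ := h.all_char hr ho hop
  refine ⟨n, hn, fun u hu t => ?_⟩
  obtain ⟨ψ, h2, h3⟩ := h1 u hu
  refine ⟨ψ ^ ((M : ℤ) * (4 * t)), ⟨?_, ?_⟩, ?_⟩
  · show ((ψ ^ ((M : ℤ) * (4 * t)) : St χ) : MulAut (SS g)) ∈ V
    rw [Subgroup.coe_zpow, _root_.zpow_mul, zpow_natCast]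
    exact V.zpow_mem (hM _) _
  · show ((ψ ^ ((M : ℤ) * (4 * t)) : St χ) : MulAut (SS g)) ∈ NX _
    rw [Subgroup.coe_zpow]
    exact zpow_mem h2 _
  · rw [map_zpow, h3, Sy.tv_zpow]
    congr 1
    push_cast
    ring

theorem good (h : Ad χ e) (hr : 3 ≤ r) {o p : Fin r} (ho : (o : ℕ) = 0) (hop : p ≠ o)
    (V : Subgroup (MulAut (SS g))) [hV : V.Normal] (M : ℕ) (hM0 : 0 < M)
    (hM : ∀ φ : MulAut (SS g), φ ^ M ∈ V) : ∃ m : ℕ, Good (h.PV V) m := by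
  obtain ⟨n, hn, htv⟩ := h.PV_tv hr ho hop V M hM
  set m := 4 * n * M with hm
  have hm0 : 0 < m := by positivity
  have h4 : 4 ∣ m := ⟨n * M, by rw [hm]; ring⟩
  have hall := fun s => Pr.all hop s
  have hEv : ∀ s t, hd s ≠ hd t → ∀ k : ℤ, Ev (bv s) (bv t) ((m : ℤ) * k) ∈ h.PV V := by
    intro s t hst k
    refine mul_mem (mul_mem (htv _ ((hall s).add hst) k) ?_) ?_
    · rw [← mul_neg]; exact htv _ (hall s) _
    · rw [← mul_neg]; exact htv _ (hall t) _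
  have hnorm : ∀ A ∈ EL r, ∀ B ∈ h.PV V, A * B * A⁻¹ ∈ h.PV V :=
    fun A hA B hB => h.PV_norm hr V hA hB
  refine ⟨m, hm0, h4, hnorm, ?_, ?_, ?_⟩
  · intro S hS A hA
    have h1 : A = uU ((m : ℤ) • S) := Units.ext hA
    rw [h1]
    refine sym_mem ((RU (h.PV V)).comap (DistribSMul.toAddMonoidHom _ (m : ℤ))) ?_ ?_ S hS
    · intro i
      show uU ((m : ℤ) • Matrix.single i i 1) ∈ h.PV V
      rw [Matrix.smul_single, smul_eq_mul, mul_one, ← Sy.tv_inl]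
      have := htv _ (hall (Sum.inl i)) 1
      rwa [mul_one] at this
    · intro i j hij
      show uU ((m : ℤ) • (Matrix.single i j 1 + Matrix.single j i 1)) ∈ h.PV V
      rw [← Sy.Ev_ll hij]
      have := hEv (Sum.inl i) (Sum.inl j) hij 1
      rwa [mul_one] at this
  · intro S hS A hA
    have h1 : A = uL ((m : ℤ) • S) := Units.ext hA
    rw [h1]
    refine sym_mem ((RL (h.PV V)).comap (DistribSMul.toAddMonoidHom _ (m : ℤ))) ?_ ?_ S hS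
    · intro i
      show uL ((m : ℤ) • Matrix.single i i 1) ∈ h.PV V
      have h2 := htv _ (hall (Sum.inr i)) (-1)
      rw [Sy.tv_inr] at h2
      rw [Matrix.smul_single, smul_eq_mul, mul_one]
      convert h2 using 3
      ring
    · intro i j hij
      show uL ((m : ℤ) • (Matrix.single i j 1 + Matrix.single j i 1)) ∈ h.PV V
      have h2 := hEv (Sum.inr i) (Sum.inr j) hij (-1)
      rw [Sy.Ev_rr hij] at h2
      convert h2 using 3
      ring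
  · intro T hT A hA
    have h1 : A = uD T := Units.ext hA
    rw [h1]
    obtain ⟨k, rfl⟩ : ∃ k, r = k + 3 := ⟨r - 3, by omega⟩
    have hgood : Pool.Agent.W5h84.MT.Good m ((h.PV V).comap uD) := by
      refine ⟨?_, ?_⟩
      · intro i j hij t x hx
        show uD _ ∈ h.PV V
        rw [map_mul, map_mul, map_inv]
        have hel : uD (Pool.Agent.W5h84.MT.el hij t) ∈ EL (k + 3) :=
          Subgroup.subset_closure (Or.inr (Or.inr ⟨Pool.Agent.W5h84.MT.el hij t, rfl⟩))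
        exact hnorm _ hel _ hx
      · intro i j hij t
        show uD (SpecialLinearGroup.transvection hij ((m : ℤ) * t)) ∈ h.PV V
        have h2 := hEv (Sum.inl i) (Sum.inr j) hij (-t)
        rw [Sy.Ev_lr hij] at h2
        convert h2 using 3
        ring
    exact Pool.Agent.W5h84.MT.main h4 hm0.ne' k hgood T (Pool.Agent.W5h84.MT.cong_iff.2 hT)

/-- the congruence subgroup property for the part of `χ` -/
theorem csp (h : Ad χ e) (hr : 3 ≤ r) (V : Subgroup (MulAut (SS g))) [hV : V.Normal] (M : ℕ)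
    (hM0 : 0 < M) (hM : ∀ φ : MulAut (SS g), φ ^ M ∈ V) : ∃ m : ℕ, 0 < m ∧
      ∀ A : GG r, Symp A → CongG m A → A ∈ h.PV V := by
  obtain ⟨m, hP⟩ := h.good hr (o := ⟨0, by omega⟩) (p := ⟨1, by omega⟩) rfl (by simp) V M hM0 hM
  have hm4 : 4 ≤ m := Nat.le_of_dvd hP.pos hP.four
  refine ⟨m ^ 2, by positivity, fun A h1 h2 => ?_⟩
  have hm : (2 : ℤ) ≤ (m : ℤ) ^ 2 := by
    have : (4 : ℤ) ≤ m := by exact_mod_cast hm4
    nlinarith
  refine Sp6.all_blk (t_red2 t_col) hm (Sp6.ELm_le (t_sym t_sq) (by omega) hP) r le_rfl A h1 ?_ ?_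
  · intro i j
    have := h2 i j
    push_cast at this
    exact this
  · intro i j h
    exfalso
    rcases h with h | h
    · exact absurd (Sum.elim id id i : Fin r).2 (by omega)
    · exact absurd (Sum.elim id id j : Fin r).2 (by omega)

end Ad

/-- `φ` acts trivially on `G / Γ` and almost trivially modulo `m` -/
structure Hyp (m : ℕ) (φ : MulAut (SS g)) : Prop where
  ta : φ ∈ TA (SS g)
  dv : ∀ (χ : SS g →* ℤˣ) (d : SS g → ℤ), IsDer χ d → ∀ x, (m : ℤ) ∣ d (φ x * x⁻¹)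

theorem Hyp.conj {m : ℕ} {φ : MulAut (SS g)} (h : Hyp m φ) (τ : MulAut (SS g)) :
    Hyp m (τ * φ * τ⁻¹) := by
  refine ⟨(inferInstance : (TA (SS g)).Normal).conj_mem _ h.ta τ, fun χ d hd x => ?_⟩
  have := h.dv _ _ (hd.comp τ) (τ⁻¹ x)
  simpa [MulAut.mul_apply, map_mul, map_inv, ap_inv] using this

theorem Hyp.mono {m m' : ℕ} {φ : MulAut (SS g)} (h : Hyp m φ) (hm : m' ∣ m) : Hyp m' φ :=
  ⟨h.ta, fun χ d hd x => (Int.natCast_dvd_natCast.2 hm).trans (h.dv χ d hd x)⟩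

/-- the local approximation -/
theorem loc_std {χ : SS g →* ℤˣ} {e : Fin r → Fin g} (h : Ad χ e) (hr : 3 ≤ r)
    (V : Subgroup (MulAut (SS g))) [hV : V.Normal] (M : ℕ) (hM0 : 0 < M)
    (hM : ∀ φ : MulAut (SS g), φ ^ M ∈ V) : ∃ m : ℕ, 0 < m ∧ ∀ φ : MulAut (SS g), Hyp m φ →
      ∃ v ∈ V, v ∈ NX {χ' | χ' ≠ χ} ∧ ∀ d, IsDer χ d → ∀ γ ∈ Gam (SS g), d (v γ) = d (φ γ) := by
  obtain ⟨m, hm, hP⟩ := h.csp hr V M hM0 hM
  refine ⟨3 * m, by positivity, fun φ hφ => ?_⟩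
  have f1 : Fix χ φ := hφ.ta χ
  have hc : ∀ i j, ((3 * m : ℕ) : ℤ) ∣ h.Bm φ i j - (1 : MG r) i j := by
    intro s t
    have h1 := hφ.dv χ _ (h.D_der s) (em e t)
    have h2 : h.D s (φ (em e t) * (em e t)⁻¹) = h.D s (φ (em e t)) - h.D s (em e t) := by
      rw [h.D_der s, (h.D_der s).inv, f1, h.one]
      simp
      ring
    rw [h2, h.D_em] at h1
    rw [Matrix.one_apply]
    exact h1
  have h3 : ∀ i j, 3 ∣ h.Bm φ i j - (1 : MG r) i j := fun i j =>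
    (Dvd.intro (m : ℤ) (by push_cast; ring)).trans (hc i j)
  have h4 : h.rho ⟨φ, f1⟩ ∈ h.PV V := by
    apply hP
    · exact h.symp f1 h3
    · intro i j
      exact (Dvd.intro_left (3 : ℤ) (by push_cast; ring)).trans (hc i j)
  obtain ⟨v, h5, h6, h7⟩ := h.mem_PV.1 h4
  exact ⟨v, h5, h6, fun d hd γ hγ => h.agree (h6.1 χ) f1 h7 hd (mem_Gam.1 hγ χ)⟩

/-- the local approximation, for a character conjugate to a standard one -/
theorem loc_conj {χ : SS g →* ℤˣ} {e : Fin r → Fin g} (τ : MulAut (SS g))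
    (h : Ad (χ.comp τ.toMonoidHom) e) (hr : 3 ≤ r)
    (V : Subgroup (MulAut (SS g))) [hV : V.Normal] (M : ℕ) (hM0 : 0 < M)
    (hM : ∀ φ : MulAut (SS g), φ ^ M ∈ V) : ∃ m : ℕ, 0 < m ∧ ∀ φ : MulAut (SS g), Hyp m φ →
      ∃ v ∈ V, v ∈ NX {χ' | χ' ≠ χ} ∧ ∀ d, IsDer χ d → ∀ γ ∈ Gam (SS g), d (v γ) = d (φ γ) := by
  obtain ⟨m, hm, hloc⟩ := loc_std h hr V M hM0 hM
  refine ⟨m, hm, fun φ hφ => ?_⟩
  have h0 : Hyp m (τ⁻¹ * φ * τ) := by
    have := hφ.conj τ⁻¹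
    rwa [inv_inv] at this
  obtain ⟨v, h1, h2, h3⟩ := hloc _ h0
  refine ⟨τ * v * τ⁻¹, hV.conj_mem _ h1 τ, NX.conj τ ?_ h2, fun d hd γ hγ => ?_⟩
  · intro χ' hχ' hcon
    apply hχ'
    refine MonoidHom.ext fun x => ?_
    have h4 := DFunLike.congr_fun hcon (τ⁻¹ x)
    change χ' (τ (τ⁻¹ x)) = χ (τ (τ⁻¹ x)) at h4
    rwa [ap_inv] at h4
  · have h4 := h3 _ (hd.comp τ) (τ⁻¹ γ) (TA.gam hγ)
    simpa [MulAut.mul_apply, ap_inv] using h4

end Pool.Agent.H364.PR
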