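import Mathlib

/-!
# Derivations with respect to characters of order two, for arbitrary groups
-/

set_option autoImplicit false

namespace Pool.Agent.H364.PR

/-- `d` is a derivation with respect to the character `χ` -/
def IsDer {G : Type} [Group G] (χ : G →* ℤˣ) (d : G → ℤ) : Prop :=
  ∀ x y, d (x * y) = d x + (χ x : ℤ) * d y

theorem u_inv (u : ℤˣ) : u⁻¹ = u := by
  rcases Int.units_eq_one_or u with h | h <;> rw [h] <;> decide

theorem u_sq (u : ℤˣ) : (u : ℤ) * u = 1 := by
  rcases Int.units_eq_one_or u with h | h <;> rw [h] <;> simp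

theorem u_mul (u : ℤˣ) : u * u = 1 := Units.ext (u_sq u)

variable {G : Type} [Group G]

namespace IsDer

variable {χ : G →* ℤˣ} {d d' : G → ℤ}

theorem one (h : IsDer χ d) : d 1 = 0 := by
  have := h 1 1
  rw [mul_one, map_one] at this
  simpa using this

theorem inv (h : IsDer χ d) (x : G) : d x⁻¹ = -((χ x : ℤ) * d x) := by
  have := h x⁻¹ x
  rw [inv_mul_cancel, h.one, map_inv, u_inv] at this
  linear_combination -this

theorem mul_of_one (h : IsDer χ d) {x : G} (hx : χ x = 1) (y : G) :
    d (x * y) = d x + d y := by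
  rw [h, hx]; simp

theorem conj (h : IsDer χ d) {y : G} (hy : χ y = 1) (g : G) :
    d (g * y * g⁻¹) = (χ g : ℤ) * d y := by
  rw [h (g * y), h g, h.inv, map_mul, hy, mul_one]
  linear_combination (-(d g)) * u_sq (χ g)

/-- the value at a commutator -/
theorem comm (h : IsDer χ d) (x y : G) : d (x * y * x⁻¹ * y⁻¹) =
    (1 - (χ y : ℤ)) * d x - (1 - (χ x : ℤ)) * d y := by
  rw [h, h, h, h.inv, h.inv, map_mul, map_mul, map_mul, map_inv, u_inv]
  push_cast
  linear_combination (-(χ y : ℤ) * d x - (χ y : ℤ) ^ 2 * d y) * u_sq (χ x) - d y * u_sq (χ y)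

theorem sub (h : IsDer χ d) (h' : IsDer χ d') : IsDer χ (fun x => d x - d' x) := by
  intro x y
  simp only [h x y, h' x y]
  ring

theorem smul (h : IsDer χ d) (c : ℤ) : IsDer χ (fun x => c * d x) := by
  intro x y
  simp only [h x y]
  ring

theorem sum {ι : Type*} (s : Finset ι) (f : ι → G → ℤ) (h : ∀ i ∈ s, IsDer χ (f i)) :
    IsDer χ (fun x => ∑ i ∈ s, f i x) := by
  intro x y
  simp only
  rw [Finset.sum_congr rfl fun i hi => h i hi x y, Finset.sum_add_distrib, Finset.mul_sum]

theorem ext_closure (h : IsDer χ d) (h' : IsDer χ d') {S : Set G} (hS : Subgroup.closure S = ⊤)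
    (e : ∀ x ∈ S, d x = d' x) (x : G) : d x = d' x := by
  have hx : x ∈ Subgroup.closure S := by rw [hS]; exact Subgroup.mem_top x
  induction hx using Subgroup.closure_induction with
  | mem x hx => exact e x hx
  | one => rw [h.one, h'.one]
  | mul x y _ _ hx hy => rw [h, h', hx, hy]
  | inv x _ hx => rw [h.inv, h'.inv, hx]

theorem zero : IsDer χ (fun _ => 0) := by
  intro x y
  simp

/-- the principal derivation -/
theorem princ (χ : G →* ℤˣ) : IsDer χ (fun x => 1 - (χ x : ℤ)) := by
  intro x y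
  simp only [map_mul]
  push_cast
  ring

theorem comp (h : IsDer χ d) (φ : MulAut G) :
    IsDer (χ.comp φ.toMonoidHom) (fun x => d (φ x)) := by
  intro x y
  show d (φ (x * y)) = d (φ x) + (χ (φ x) : ℤ) * d (φ y)
  rw [map_mul, h]

theorem comp' (h : IsDer χ d) {φ : MulAut G} (hφ : ∀ x, χ (φ x) = χ x) :
    IsDer χ (fun x => d (φ x)) := by
  intro x y
  show d (φ (x * y)) = d (φ x) + (χ x : ℤ) * d (φ y)
  rw [map_mul, h, hφ]

theorem pow (h : IsDer χ d) {x : G} (hx : χ x = 1) (n : ℕ) : d (x ^ n) = n * d x := by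
  induction n with
  | zero => simp [h.one]
  | succ n ih =>
    rw [pow_succ, h.mul_of_one (by rw [map_pow, hx, one_pow]), ih]
    push_cast
    ring

end IsDer

/-- affine maps -/
def aff {R : Type} [Ring R] (u : ℤˣ) (v : R) : Equiv.Perm R where
  toFun t := ((u : ℤ) : R) * t + v
  invFun t := ((u : ℤ) : R) * (t - v)
  left_inv t := by
    have h : ((u : ℤ) : R) * ((u : ℤ) : R) = 1 := by
      rw [← Int.cast_mul, u_sq, Int.cast_one]
    show ((u : ℤ) : R) * (((u : ℤ) : R) * t + v - v) = t
    rw [add_sub_cancel_right, ← mul_assoc, h, one_mul]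
  right_inv t := by
    have h : ((u : ℤ) : R) * ((u : ℤ) : R) = 1 := by
      rw [← Int.cast_mul, u_sq, Int.cast_one]
    show ((u : ℤ) : R) * (((u : ℤ) : R) * (t - v)) + v = t
    rw [← mul_assoc, h, one_mul, sub_add_cancel]

theorem aff_apply {R : Type} [Ring R] (u : ℤˣ) (v t : R) : aff u v t = ((u : ℤ) : R) * t + v := rfl

/-- the permutations of `R` given by a derivation -/
def permOf {χ : G →* ℤˣ} {d : G → ℤ} (h : IsDer χ d) (R : Type) [Ring R] :
    G →* Equiv.Perm R where
  toFun x := aff (χ x) (d x : R)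
  map_one' := by
    ext t
    rw [h.one, map_one, aff_apply]
    simp
  map_mul' x y := by
    ext t
    rw [Equiv.Perm.mul_apply, aff_apply, aff_apply, aff_apply, map_mul, h]
    push_cast
    noncomm_ring

/-- a homomorphism to the group of the affine maps gives a derivation -/
theorem der_of_hom (χ : G →* ℤˣ) (θ : G →* Equiv.Perm ℤ) {S : Set G}
    (hS : Subgroup.closure S = ⊤) (h : ∀ x ∈ S, ∃ v : ℤ, θ x = aff (χ x) v) :
    IsDer χ (fun x => θ x 0) := by
  have h1 : ∀ x t, θ x t = (χ x : ℤ) * t + θ x 0 := by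
    intro x
    have hx : x ∈ Subgroup.closure S := by rw [hS]; exact Subgroup.mem_top x
    induction hx using Subgroup.closure_induction with
    | mem x hx =>
      intro t
      obtain ⟨v, hv⟩ := h x hx
      rw [hv, aff_apply, aff_apply]
      simp
    | one => intro t; simp
    | mul x y _ _ hx hy =>
      intro t
      rw [map_mul, Equiv.Perm.mul_apply, Equiv.Perm.mul_apply, hy t, hx, hx (θ y 0), map_mul]
      push_cast
      ring
    | inv x _ h =>
      intro t
      have h2 : ∀ t, θ x (θ x⁻¹ t) = t := by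
        intro t
        rw [← Equiv.Perm.mul_apply, ← map_mul, mul_inv_cancel, map_one, Equiv.Perm.one_apply]
      have e1 := h2 t
      have e2 := h2 0
      rw [h] at e1 e2
      rw [map_inv χ, u_inv]
      linear_combination (χ x : ℤ) * e1 - (χ x : ℤ) * e2 -
        (θ x⁻¹ t - θ x⁻¹ 0) * u_sq (χ x)
  intro x y
  show θ (x * y) 0 = θ x 0 + (χ x : ℤ) * θ y 0
  rw [map_mul, Equiv.Perm.mul_apply, h1 x (θ y 0)]
  ring

/-- The subgroup `Γ`: the intersection of the kernels of all characters of order two. -/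
def Gam (G : Type) [Group G] : Subgroup G := ⨅ χ : G →* ℤˣ, χ.ker

theorem mem_Gam {x : G} : x ∈ Gam G ↔ ∀ χ : G →* ℤˣ, χ x = 1 := by
  rw [Gam, Subgroup.mem_iInf]
  rfl

instance : (Gam G).Characteristic := by
  rw [Subgroup.characteristic_iff_le_comap]
  intro φ x hx
  rw [mem_Gam] at hx
  show φ x ∈ Gam G
  rw [mem_Gam]
  intro χ
  exact hx (χ.comp φ.toMonoidHom)

instance finite_hom {H : Type} [Group H] [Finite H] [hG : Group.FG G] : Finite (G →* H) := by
  obtain ⟨S, hS⟩ := hG.out
  refine Finite.of_injective (fun (f : G →* H) (i : S) => f i) fun f f' hff => ?_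
  apply MonoidHom.eq_of_eqOn_dense hS
  intro x hx
  exact congrFun hff ⟨x, hx⟩

instance [Group.FG G] : (Gam G).FiniteIndex := by
  unfold Gam
  have : ∀ χ : G →* ℤˣ, χ.ker.FiniteIndex := fun χ => Subgroup.finiteIndex_ker χ
  exact Subgroup.finiteIndex_iInf this

theorem sq_mem_Gam (x : G) : x ^ 2 ∈ Gam G := by
  rw [mem_Gam]
  intro χ
  rw [map_pow, sq, u_mul]

theorem comm_mem_Gam (x y : G) : x * y * x⁻¹ * y⁻¹ ∈ Gam G := by
  rw [mem_Gam]
  intro χ
  rw [map_mul, map_mul, map_mul, map_inv, map_inv]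
  rw [mul_comm (χ x) (χ y)]
  group

end Pool.Agent.H364.PR
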