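import Pool.Agent.H364.PR.Top
import Pool.Graph.R_seed8.R569.CS.Main

/-!
# Transport to groups isomorphic to surface groups, and the subgroup generated by the squares
-/

set_option autoImplicit false

namespace Pool.Agent.H364.PR

open Pool.Agent.TH933.SPC
open scoped commutatorElement

/-- the subgroup generated by the squares -/
theorem Gam_eq_sq (G : Type) [Group G] :
    Gam G = Subgroup.closure (Set.range fun x : G => x ^ 2) := by
  set Sq := Subgroup.closure (Set.range fun x : G => x ^ 2) with hSq
  have sq_mem : ∀ x : G, x ^ 2 ∈ Sq := fun x => Subgroup.subset_closure ⟨x, rfl⟩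
  have hchar : Sq.Characteristic := by
    rw [Subgroup.characteristic_iff_map_le]
    intro φ
    rw [hSq, MonoidHom.map_closure, Subgroup.closure_le]
    rintro _ ⟨_, ⟨x, rfl⟩, rfl⟩
    exact Subgroup.subset_closure ⟨φ x, (map_pow φ x 2).symm⟩
  apply le_antisymm
  · intro x hx
    rw [mem_Gam] at hx
    have hsq : ∀ q : G ⧸ Sq, q ^ 2 = 1 := by
      intro q
      induction q using QuotientGroup.induction_on with
      | H z => exact (QuotientGroup.eq_one_iff _).2 (sq_mem z)
    have hcomm : ∀ a b : G ⧸ Sq, a * b = b * a := by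
      intro a b
      have h1 := hsq (a * b)
      have h2 := hsq a
      have h3 := hsq b
      rw [sq] at h1 h2 h3
      calc a * b = a * (a * b * (a * b)) * b := by rw [h1, mul_one]
        _ = a * a * (b * a) * (b * b) := by simp only [mul_assoc]
        _ = b * a := by rw [h2, h3, one_mul, mul_one]
    let _ : CommGroup (G ⧸ Sq) := { (inferInstance : Group (G ⧸ Sq)) with
      mul_comm := hcomm }
    let _ : Module (ZMod 2) (Additive (G ⧸ Sq)) :=
      AddCommGroup.zmodModule (n := 2) (fun a => by
        have := hsq a.toMul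
        exact congrArg Additive.ofMul this)
    have h0 : (Additive.ofMul (QuotientGroup.mk x : G ⧸ Sq)) = 0 := by
      rw [← Module.forall_dual_apply_eq_zero_iff (ZMod 2)]
      intro f
      let c : Multiplicative (ZMod 2) →* ℤˣ :=
        { toFun := fun t => if t.toAdd = 0 then 1 else -1
          map_one' := by simp
          map_mul' := by decide }
      let χ : G →* ℤˣ :=
        { toFun := fun y =>
            c (Multiplicative.ofAdd (f (Additive.ofMul (QuotientGroup.mk y : G ⧸ Sq))))
          map_one' := by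
            rw [QuotientGroup.mk_one, ofMul_one, map_zero, ofAdd_zero, map_one]
          map_mul' := fun y z => by
            rw [QuotientGroup.mk_mul, ofMul_mul, map_add, ofAdd_add, map_mul] }
      have h1 : (if f (Additive.ofMul (QuotientGroup.mk x : G ⧸ Sq)) = 0 then (1 : ℤˣ)
        else -1) = 1 := hx χ
      by_contra hne
      rw [if_neg hne] at h1
      exact absurd h1 (by decide)
    exact (QuotientGroup.eq_one_iff x).1 (Additive.ofMul.injective h0)
  · rw [hSq, Subgroup.closure_le]
    rintro _ ⟨x, rfl⟩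
    exact sq_mem_Gam x

variable {G : Type} [Group G] {g : ℕ}

theorem mem_Gam_iso {G' : Type} [Group G'] (e : G ≃* G') {x : G} : e x ∈ Gam G' ↔ x ∈ Gam G := by
  rw [mem_Gam, mem_Gam]
  constructor
  · intro h χ
    have := h (χ.comp e.symm.toMonoidHom)
    change χ (e.symm (e x)) = 1 at this
    rwa [e.symm_apply_apply] at this
  · intro h χ
    exact h (χ.comp e.toMonoidHom)

theorem map_Gam {G' : Type} [Group G'] (e : G ≃* G') : (Gam G).map e.toMonoidHom = Gam G' := by
  ext y
  constructor
  · rintro ⟨x, hx, rfl⟩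
    exact (mem_Gam_iso e).2 hx
  · intro hy
    refine ⟨e.symm y, ?_, e.apply_symm_apply y⟩
    apply (mem_Gam_iso e).1
    rwa [e.apply_symm_apply]

/-- the base case, for groups isomorphic to surface groups -/
theorem csp_base' (hg : 4 ≤ g) (e : G ≃* SS g) (V : Subgroup (MulAut G)) (hV : V.FiniteIndex)
    (hI : ∀ φ : MulAut G, (∀ x, φ x * x⁻¹ ∈ Gam G) →
      (∀ x ∈ Gam G, φ x * x⁻¹ ∈ ⁅Gam G, Gam G⁆) → φ ∈ V) :
    ∃ K : Subgroup G, K.Characteristic ∧ K.FiniteIndex ∧
      ∀ φ : MulAut G, (∀ x, φ x * x⁻¹ ∈ K) → φ ∈ V := by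
  let E : MulAut (SS g) ≃* MulAut G := MulAut.congr e.symm
  have hE : ∀ (φ : MulAut (SS g)) (x : G), E φ x = e.symm (φ (e x)) := fun φ x => rfl
  have hE' : ∀ (φ : MulAut G) (x : SS g), E.symm φ x = e (φ (e.symm x)) := fun φ x => rfl
  have hfi : (V.comap E.toMonoidHom).FiniteIndex := by
    refine ⟨?_⟩
    rw [Subgroup.index_comap_of_surjective _ E.surjective]
    exact hV.index_ne_zero
  obtain ⟨K, hK1, hK2, hK3⟩ := csp_base hg (V.comap E.toMonoidHom) hfi (by
    intro φ h1 h2
    show E φ ∈ V
    apply hI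
    · intro x
      rw [hE, ← mem_Gam_iso e, map_mul, map_inv, e.apply_symm_apply]
      exact h1 (e x)
    · intro x hx
      have h3 := h2 (e x) ((mem_Gam_iso e).2 hx)
      rw [← map_Gam e, ← Subgroup.map_commutator] at h3
      obtain ⟨y, hy, hyx⟩ := h3
      have h4 : y = E φ x * x⁻¹ := by
        apply e.injective
        rw [hE, map_mul, map_inv, e.apply_symm_apply]
        exact hyx
      rwa [← h4])
  refine ⟨K.comap e.toMonoidHom, ?_, ?_, ?_⟩
  · rw [Subgroup.characteristic_iff_le_comap]
    intro φ x hx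
    show e (φ x) ∈ K
    have h1 := Subgroup.characteristic_iff_le_comap.1 hK1 (E.symm φ) hx
    change E.symm φ (e x) ∈ K at h1
    rwa [hE', e.symm_apply_apply] at h1
  · refine ⟨?_⟩
    rw [Subgroup.index_comap_of_surjective _ e.surjective]
    exact hK2.index_ne_zero
  · intro φ hφ
    have h1 : E.symm φ ∈ V.comap E.toMonoidHom := by
      apply hK3
      intro x
      have h2 := hφ (e.symm x)
      change e (φ (e.symm x) * (e.symm x)⁻¹) ∈ K at h2
      rw [map_mul, map_inv, e.apply_symm_apply] at h2
      exact h2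
    change E (E.symm φ) ∈ V at h1
    rwa [E.apply_symm_apply] at h1

/-- **The congruence subgroup property for the quotients `G / γ_c (G²)`.** -/
theorem outer (hg : 4 ≤ g) (e : G ≃* SS g) (c : ℕ)
    (H : Subgroup (MulAut G)) (hH : H.FiniteIndex) (hinn : ∀ x, MulAut.conj x ∈ H)
    (h : ∀ φ : MulAut G,
      (∃ y, ∀ x, φ x * (y * x * y⁻¹)⁻¹ ∈ (Gam G).lowerCentralSeries c) → φ ∈ H) :
    ∃ K : Subgroup G, K.Characteristic ∧ K.FiniteIndex ∧
      ∀ φ : MulAut G, (∃ y, ∀ x, φ x * (y * x * y⁻¹)⁻¹ ∈ K) → φ ∈ H := by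
  have hfg : Group.FG G := Group.fg_of_surjective (f := e.symm.toMonoidHom) e.symm.surjective
  exact Pool.Agent.R569.CS.outer_csp (Gam G) (fun V hV h => csp_base' hg e V hV h) c H hH hinn h

end Pool.Agent.H364.PR
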