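import Pool.Agent.H364.PR.Surf
import Pool.Graph.R_pool_sql_team_seeded_ab47071d.TH933.SPC.FORM

/-!
# The automorphisms preserve the intersection form on the parts
-/

set_option autoImplicit false

namespace Pool.Agent.H364.PR

open Pool.Agent.TH933.SPC
open Pool.Agent.TH933.SPC.F335 (bf bf_add_left bf_add_right bf_neg_left bf_neg_right bf_zero_left
  bf_zero_right bf_single tr_eq trace_single J_val)
open Matrix

variable {g r : ℕ}

namespace Form

theorem bf_smul_left (B : MG r) (c : ℤ) (u v : Fin r ⊕ Fin r → ℤ) :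
    bf B (c • u) v = c * bf B u v := smul_dotProduct _ _ _

theorem bf_smul_right (B : MG r) (c : ℤ) (u v : Fin r ⊕ Fin r → ℤ) :
    bf B u (c • v) = c * bf B u v := by
  unfold bf; rw [Matrix.mulVec_smul, dotProduct_smul, smul_eq_mul]

/-- the twisted Heisenberg group of a bilinear form -/
structure Hx (B : MG r) where
  u : ℤˣ
  v : Fin r ⊕ Fin r → ℤ
  s : ℤ

theorem Hx.ext' {B : MG r} {a b : Hx B} (h0 : a.u = b.u) (h1 : a.v = b.v) (h2 : a.s = b.s) :
    a = b := by
  cases a; cases b; simp only at h0 h1 h2; rw [h0, h1, h2]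

instance (B : MG r) : Mul (Hx B) :=
  ⟨fun a b => ⟨a.u * b.u, a.v + (a.u : ℤ) • b.v, a.s + b.s + (a.u : ℤ) * bf B a.v b.v⟩⟩
instance (B : MG r) : One (Hx B) := ⟨⟨1, 0, 0⟩⟩
instance (B : MG r) : Inv (Hx B) := ⟨fun a => ⟨a.u, -((a.u : ℤ) • a.v), -a.s + bf B a.v a.v⟩⟩

theorem mul_u {B : MG r} (a b : Hx B) : (a * b).u = a.u * b.u := rfl
theorem mul_v {B : MG r} (a b : Hx B) : (a * b).v = a.v + (a.u : ℤ) • b.v := rfl
theorem mul_s {B : MG r} (a b : Hx B) : (a * b).s = a.s + b.s + (a.u : ℤ) * bf B a.v b.v := rfl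
theorem one_u {B : MG r} : (1 : Hx B).u = 1 := rfl
theorem one_v {B : MG r} : (1 : Hx B).v = 0 := rfl
theorem one_s {B : MG r} : (1 : Hx B).s = 0 := rfl
theorem inv_u {B : MG r} (a : Hx B) : (a⁻¹).u = a.u := rfl
theorem inv_v {B : MG r} (a : Hx B) : (a⁻¹).v = -((a.u : ℤ) • a.v) := rfl
theorem inv_s {B : MG r} (a : Hx B) : (a⁻¹).s = -a.s + bf B a.v a.v := rfl

instance (B : MG r) : Group (Hx B) := Group.ofLeftAxioms
  (fun a b c => by
    apply Hx.ext'
    · rw [mul_u, mul_u, mul_u, mul_u, mul_assoc]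
    · rw [mul_v, mul_v, mul_v, mul_v, mul_u, smul_add, smul_smul, add_assoc]
      push_cast
      rfl
    · rw [mul_s, mul_s, mul_s, mul_s, mul_v, mul_v, mul_u, bf_add_left, bf_add_right,
        bf_smul_left, bf_smul_right]
      push_cast
      linear_combination ((b.u : ℤ) * bf B b.v c.v) * u_sq a.u)
  (fun a => by
    apply Hx.ext'
    · rw [mul_u, one_u, one_mul]
    · rw [mul_v, one_v, one_u, zero_add, Units.val_one, one_smul]
    · rw [mul_s, one_s, one_v, bf_zero_left]; ring)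
  (fun a => by
    apply Hx.ext'
    · rw [mul_u, inv_u, one_u, u_mul]
    · rw [mul_v, inv_v, inv_u, one_v, neg_add_cancel]
    · rw [mul_s, inv_s, inv_v, inv_u, one_s, bf_neg_left, bf_smul_left]
      linear_combination (-bf B a.v a.v) * u_sq a.u)

/-- the centre -/
def cen (B : MG r) : Multiplicative ℤ →* Hx B where
  toFun n := ⟨1, 0, Multiplicative.toAdd n⟩
  map_one' := rfl
  map_mul' a b := by
    apply Hx.ext'
    · rw [mul_u, mul_one]
    · rw [mul_v, smul_zero, add_zero]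
    · rw [mul_s, bf_zero_left, mul_zero, add_zero]; rfl

theorem comm_eq {B : MG r} (a b : Hx B) (ha : a.u = 1) (hb : b.u = 1) : a * b * a⁻¹ * b⁻¹ =
    cen B (Multiplicative.ofAdd (bf B a.v b.v - bf B b.v a.v)) := by
  apply Hx.ext'
  · show _ = 1
    rw [mul_u, mul_u, mul_u, inv_u, inv_u, ha, hb]
    rfl
  · show _ = 0
    simp only [mul_v, inv_v, inv_u, mul_u, ha, hb, mul_one, Units.val_one, one_smul]
    abel
  · show _ = bf B a.v b.v - bf B b.v a.v
    simp only [mul_s, mul_v, mul_u, inv_s, inv_v, inv_u, ha, hb, mul_one, Units.val_one, one_smul,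
      bf_add_left, bf_neg_left, bf_neg_right]
    ring

theorem comm_eq' {B : MG r} (a b : Hx B) (hb : b.u = 1) (hb' : b.v = 0) :
    a * b * a⁻¹ * b⁻¹ = 1 := by
  have h : a * b = b * a := by
    apply Hx.ext'
    · rw [mul_u, mul_u, hb, mul_comm]
    · rw [mul_v, mul_v, hb, hb', smul_zero, Units.val_one, one_smul, zero_add, add_zero]
    · rw [mul_s, mul_s, hb, hb', bf_zero_left, bf_zero_right]
      ring
  exact mul_inv_of_comm h

theorem lift_rel {B : MG r} (w : Fin g ⊕ Fin g → Hx B) (c : Fin g → ℤ)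
    (h : ∀ i, w (Sum.inl i) * w (Sum.inr i) * (w (Sum.inl i))⁻¹ * (w (Sum.inr i))⁻¹ =
      cen B (Multiplicative.ofAdd (c i))) :
    FreeGroup.lift w (rel g) = cen B (Multiplicative.ofAdd (∑ i : Fin g, c i)) := by
  unfold rel
  rw [map_list_prod, List.map_ofFn]
  have h1 : (⇑(FreeGroup.lift w) ∘ fun i : Fin g =>
      FreeGroup.of (Sum.inl i : Fin g ⊕ Fin g) *
        FreeGroup.of (Sum.inr i : Fin g ⊕ Fin g) *
        (FreeGroup.of (Sum.inl i : Fin g ⊕ Fin g))⁻¹ *
        (FreeGroup.of (Sum.inr i : Fin g ⊕ Fin g))⁻¹) =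
      ⇑(cen B) ∘ fun i : Fin g => Multiplicative.ofAdd (c i) := by
    funext i
    simp only [Function.comp_apply, map_mul, map_inv, FreeGroup.lift_apply_of]
    exact h i
  rw [h1, ← List.map_ofFn, ← map_list_prod, List.prod_ofFn, ofAdd_sum]

variable {χ : SS g →* ℤˣ} {e : Fin r → Fin g}

/-- the contribution of the handles `e i` -/
theorem lift_ad (h : Ad χ e) {B : MG r} (w : Fin g ⊕ Fin g → Hx B)
    (hu : ∀ j, (w j).u = χ (gn j)) (hv : ∀ l, l ∉ Set.range e → (w (Sum.inr l)).v = 0) :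
    FreeGroup.lift w (rel g) = cen B (Multiplicative.ofAdd
      (∑ k : Fin r, (bf B (w (Sum.inl (e k))).v (w (Sum.inr (e k))).v -
        bf B (w (Sum.inr (e k))).v (w (Sum.inl (e k))).v))) := by
  classical
  let c : Fin g → ℤ := fun i => if i ∈ Set.range e then
    bf B (w (Sum.inl i)).v (w (Sum.inr i)).v - bf B (w (Sum.inr i)).v (w (Sum.inl i)).v else 0
  have h1 : ∑ k : Fin r, (bf B (w (Sum.inl (e k))).v (w (Sum.inr (e k))).v -
        bf B (w (Sum.inr (e k))).v (w (Sum.inl (e k))).v) = ∑ i : Fin g, c i := by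
    refine Fintype.sum_of_injective e h.inj _ _ (fun i hi => ?_) (fun k => ?_)
    · show (if i ∈ Set.range e then _ else _) = 0
      rw [if_neg hi]
    · show _ = (if e k ∈ Set.range e then _ else _)
      rw [if_pos ⟨k, rfl⟩]
  rw [h1]
  apply lift_rel
  intro i
  by_cases hi : i ∈ Set.range e
  · have h2 : c i = bf B (w (Sum.inl i)).v (w (Sum.inr i)).v -
        bf B (w (Sum.inr i)).v (w (Sum.inl i)).v := if_pos hi
    rw [h2]
    obtain ⟨k, rfl⟩ := hi
    exact comm_eq _ _ (by rw [hu, h.oneL]) (by rw [hu, h.oneR])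
  · have h2 : c i = 0 := if_neg hi
    rw [h2, ofAdd_zero, map_one]
    exact comm_eq' _ _ (by rw [hu, h.outR i hi]) (hv i hi)

/-- the homomorphism to the Heisenberg group -/
noncomputable def hf (h : Ad χ e) (B : MG r) (hB : F335.tr B = 0) : SS g →* Hx B :=
  PresentedGroup.toGroup (f := fun j => (⟨χ (gn j), h.vec (gn j), 0⟩ : Hx B)) (by
    intro r' hr
    rw [Set.mem_singleton_iff] at hr
    rw [hr, lift_ad h _ (fun _ => rfl) (fun l hl => funext fun s => (h.D_out s hl).2)]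
    have h0 : ∀ t, h.vec (gn (Sum.map e e t)) = Pi.single t 1 := by
      intro t
      funext s
      show h.D s (em e t) = _
      rw [h.D_em, Pi.single_apply]
    have h1 : (∑ k : Fin r, (bf B (h.vec (gn (Sum.inl (e k)))) (h.vec (gn (Sum.inr (e k)))) -
      bf B (h.vec (gn (Sum.inr (e k)))) (h.vec (gn (Sum.inl (e k)))))) = 0 := by
      have h2 : ∀ k, h.vec (gn (Sum.inl (e k))) = Pi.single (Sum.inl k) 1 :=
        fun k => h0 (Sum.inl k)
      have h3 : ∀ k, h.vec (gn (Sum.inr (e k))) = Pi.single (Sum.inr k) 1 :=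
        fun k => h0 (Sum.inr k)
      simp only [h2, h3, bf_single]
      exact hB
    show cen B (Multiplicative.ofAdd (∑ k : Fin r,
      (bf B (h.vec (gn (Sum.inl (e k)))) (h.vec (gn (Sum.inr (e k)))) -
      bf B (h.vec (gn (Sum.inr (e k)))) (h.vec (gn (Sum.inl (e k))))))) = 1
    rw [h1, ofAdd_zero, map_one])

theorem hf_gn (h : Ad χ e) (B : MG r) (hB : F335.tr B = 0) (j : Fin g ⊕ Fin g) :
    hf h B hB (gn j) = ⟨χ (gn j), h.vec (gn j), 0⟩ := PresentedGroup.toGroup.of _

theorem hf_u (h : Ad χ e) (B : MG r) (hB : F335.tr B = 0) (x : SS g) :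
    (hf h B hB x).u = χ x := by
  let U : Hx B →* ℤˣ := { toFun := fun a => a.u, map_one' := rfl, map_mul' := fun _ _ => rfl }
  have h1 : U.comp (hf h B hB) = χ := by
    apply chi_ext
    intro j
    show (hf h B hB (gn j)).u = _
    rw [hf_gn]
  exact DFunLike.congr_fun h1 x

theorem hf_v (h : Ad χ e) (B : MG r) (hB : F335.tr B = 0) (x : SS g) :
    (hf h B hB x).v = h.vec x := by
  funext s
  have h1 : IsDer χ (fun x => (hf h B hB x).v s) := by
    intro x y
    simp only [map_mul, mul_v, hf_u]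
    rfl
  refine der_ext h1 (h.D_der s) (fun j => ?_) x
  show (hf h B hB (gn j)).v s = _
  rw [hf_gn]
  rfl

/-- the property of the matrices -/
def PM (M : MG r) : Prop := ∀ B : MG r, F335.tr B = 0 →
  ∑ k : Fin r, (bf B (fun a => M a (Sum.inl k)) (fun a => M a (Sum.inr k)) -
      bf B (fun a => M a (Sum.inr k)) (fun a => M a (Sum.inl k))) = 0

theorem pm (h : Ad χ e) {ψ : MulAut (SS g)} (hψ : Fix χ ψ) : PM (h.Bm ψ) := by
  intro B hB
  let F : SS g →* Hx B := (hf h B hB).comp ψ.toMonoidHom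
  let w : Fin g ⊕ Fin g → Hx B := fun j => F (gn j)
  have hu : ∀ j, (w j).u = χ (gn j) := by
    intro j
    show (hf h B hB (ψ (gn j))).u = _
    rw [hf_u, hψ]
  have hv : ∀ l, l ∉ Set.range e → (w (Sum.inr l)).v = 0 := by
    intro l hl
    show (hf h B hB (ψ (gn (Sum.inr l)))).v = _
    rw [hf_v]
    funext s
    exact h.der_out ((h.D_der s).comp' hψ) hl
  have hw : ∀ t, (w (Sum.map e e t)).v = fun a => h.Bm ψ a t := by
    intro t
    show (hf h B hB (ψ (gn (Sum.map e e t)))).v = _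
    rw [hf_v]
    rfl
  have h1 : FreeGroup.lift w =
      F.comp (PresentedGroup.mk ({rel g} : Set (FreeGroup (Fin g ⊕ Fin g)))) := by
    apply FreeGroup.ext_hom
    intro j
    rw [FreeGroup.lift_apply_of]
    rfl
  have h2 : PresentedGroup.mk ({rel g} : Set (FreeGroup (Fin g ⊕ Fin g))) (rel g) = 1 :=
    (QuotientGroup.eq_one_iff _).2 (Subgroup.subset_normalClosure rfl)
  have h3 : FreeGroup.lift w (rel g) = 1 := by
    rw [h1, MonoidHom.comp_apply, h2, map_one]
  rw [lift_ad h w hu hv] at h3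
  have h4 : ∀ k, (w (Sum.inl (e k))).v = fun a => h.Bm ψ a (Sum.inl k) := fun k => hw (Sum.inl k)
  have h5 : ∀ k, (w (Sum.inr (e k))).v = fun a => h.Bm ψ a (Sum.inr k) := fun k => hw (Sum.inr k)
  simp only [h4, h5] at h3
  exact congrArg Hx.s h3

theorem key2 {M : MG r} (hM : PM M) (B : MG r) (hB : (B * Matrix.J (Fin r) ℤ).trace = 0) :
    (B * (M * Matrix.J (Fin r) ℤ * Mᵀ)).trace = 0 := by
  have h1 := hM B (by rw [tr_eq]; exact hB)
  have h2 : F335.tr (Mᵀ * (B * M)) = 0 := h1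
  rw [tr_eq] at h2
  rw [← h2]
  rw [← Matrix.mul_assoc, Matrix.trace_mul_comm]
  simp only [Matrix.mul_assoc]

theorem form {M : MG r} (hM : PM M) (k l k' l' : Fin r ⊕ Fin r) :
    Matrix.J (Fin r) ℤ l' k' * (M * Matrix.J (Fin r) ℤ * Mᵀ) l k =
      Matrix.J (Fin r) ℤ l k * (M * Matrix.J (Fin r) ℤ * Mᵀ) l' k' := by
  have h1 := key2 hM (Matrix.J (Fin r) ℤ l' k' • Matrix.single k l 1 -
    Matrix.J (Fin r) ℤ l k • Matrix.single k' l' 1) (by
      rw [Matrix.sub_mul, Matrix.trace_sub, Matrix.smul_mul, Matrix.smul_mul, Matrix.trace_smul,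
        Matrix.trace_smul, trace_single, trace_single, smul_eq_mul, smul_eq_mul]
      ring)
  rw [Matrix.sub_mul, Matrix.trace_sub, Matrix.smul_mul, Matrix.smul_mul, Matrix.trace_smul,
        Matrix.trace_smul, trace_single, trace_single, smul_eq_mul, smul_eq_mul] at h1
  linarith

theorem form' {M : MG r} (hM : PM M) (i : Fin r) :
    M * Matrix.J (Fin r) ℤ * Mᵀ =
      ((M * Matrix.J (Fin r) ℤ * Mᵀ) (Sum.inr i) (Sum.inl i)) • Matrix.J (Fin r) ℤ := by
  ext l k
  have h1 := form hM k l (Sum.inl i) (Sum.inr i)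
  rw [J_val, one_mul] at h1
  rw [h1, Matrix.smul_apply, smul_eq_mul, mul_comm]

theorem main {M M' : MG r} (hM : PM M) (hM' : PM M') (hinv : M' * M = 1)
    (h3 : ∀ i j, 3 ∣ M i j - (1 : MG r) i j) :
    M * Matrix.J (Fin r) ℤ * Mᵀ = Matrix.J (Fin r) ℤ := by
  rcases Nat.eq_zero_or_pos r with h0 | h0
  · subst h0
    ext i
    rcases i with i | i <;> exact i.elim0
  · have i0 : Fin r := ⟨0, h0⟩
    have e1 := form' hM i0
    have e2 := form' hM' i0
    generalize hc : (M * Matrix.J (Fin r) ℤ * Mᵀ) (Sum.inr i0) (Sum.inl i0) = c at e1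
    generalize hc' : (M' * Matrix.J (Fin r) ℤ * M'ᵀ) (Sum.inr i0) (Sum.inl i0) = c' at e2
    -- the product of the two constants
    have e3 : Matrix.J (Fin r) ℤ = (c * c') • Matrix.J (Fin r) ℤ := by
      have k1 : M' * (M * Matrix.J (Fin r) ℤ * Mᵀ) * M'ᵀ = Matrix.J (Fin r) ℤ := by
        have k2 : M' * (M * Matrix.J (Fin r) ℤ * Mᵀ) * M'ᵀ =
            (M' * M) * Matrix.J (Fin r) ℤ * (M' * M)ᵀ := by
          rw [Matrix.transpose_mul]
          simp only [Matrix.mul_assoc]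
        rw [k2, hinv, Matrix.transpose_one, Matrix.mul_one, Matrix.one_mul]
      rw [e1, Matrix.mul_smul, Matrix.smul_mul, e2, smul_smul] at k1
      exact k1.symm
    have e4 : c * c' = 1 := by
      have k1 := congrFun (congrFun e3 (Sum.inr i0)) (Sum.inl i0)
      rw [Matrix.smul_apply, J_val, smul_eq_mul, mul_one] at k1
      exact k1.symm
    -- modulo three
    have e5 : ((c : ℤ) : ZMod 3) = 1 := by
      have k1 : M.map (Int.castRingHom (ZMod 3)) = 1 := by
        ext i j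
        have k2 := h3 i j
        have k3 : ((M i j - (1 : MG r) i j : ℤ) : ZMod 3) = 0 :=
          (ZMod.intCast_zmod_eq_zero_iff_dvd _ 3).2 (by exact_mod_cast k2)
        rw [Int.cast_sub, sub_eq_zero] at k3
        rw [Matrix.map_apply]
        show ((M i j : ℤ) : ZMod 3) = _
        rw [k3, Matrix.one_apply, Matrix.one_apply]
        split_ifs <;> simp
      have k4 := congrArg (fun N : MG r => N.map (Int.castRingHom (ZMod 3))) e1
      simp only [Matrix.map_mul, Matrix.transpose_map] at k4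
      rw [k1, Matrix.one_mul, Matrix.transpose_one, Matrix.mul_one] at k4
      have k5 := congrFun (congrFun k4 (Sum.inr i0)) (Sum.inl i0)
      rw [Matrix.map_apply, Matrix.map_apply, Matrix.smul_apply, J_val, smul_eq_mul, mul_one] at k5
      simpa using k5.symm
    have e6 : c = 1 := by
      rcases Int.eq_one_or_neg_one_of_mul_eq_one e4 with k1 | k1
      · exact k1
      · exfalso
        rw [k1] at e5
        revert e5
        decide
    rw [e1, e6, one_smul]

end Form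

theorem Ad.symp {χ : SS g →* ℤˣ} {e : Fin r → Fin g} (h : Ad χ e) {ψ : MulAut (SS g)}
    (hψ : Fix χ ψ) (h3 : ∀ i j, 3 ∣ h.Bm ψ i j - (1 : MG r) i j) :
    h.Bm ψ * Matrix.J (Fin r) ℤ * (h.Bm ψ)ᵀ = Matrix.J (Fin r) ℤ := by
  refine Form.main (Form.pm h hψ) (Form.pm h hψ.inv) ?_ h3
  rw [← h.Bm_mul hψ.inv hψ, inv_mul_cancel, h.Bm_one]

end Pool.Agent.H364.PR
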