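import Pool.Agent.H364.PR.Iso

/-!
# Transvections on one part, trivial on all the others
-/

set_option autoImplicit false

namespace Pool.Agent.H364.PR

open Pool.Agent.TH933.SPC
open Matrix
open Sy (tv bv om Pr Ev hd)

variable {g r : ℕ}

theorem comp_ne {G : Type} [Group G] {χ χ' : G →* ℤˣ} {ψ : MulAut G} (hψ : Fix χ ψ)
    (h : χ' ≠ χ) : χ'.comp ψ.toMonoidHom ≠ χ := by
  intro h1
  apply h
  ext x
  have h2 := DFunLike.congr_fun h1 (ψ⁻¹ x)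
  change χ' (ψ (ψ⁻¹ x)) = χ (ψ⁻¹ x) at h2
  rw [ap_inv, hψ.inv] at h2
  rw [h2]

namespace Ad

variable {χ : SS g →* ℤˣ} {e : Fin r → Fin g}

/-- the matrices of the automorphisms which are trivial on the parts of `X` -/
noncomputable def QX (h : Ad χ e) (X : Set (SS g →* ℤˣ)) : Subgroup (GG r) :=
  ((NX X).subgroupOf (St χ)).map h.rho

theorem mem_QX (h : Ad χ e) {X : Set (SS g →* ℤˣ)} {A : GG r} :
    A ∈ h.QX X ↔ ∃ ψ ∈ NX X, h.Bm ψ = (A : MG r) := by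
  constructor
  · rintro ⟨ψ, h1, h2⟩
    exact ⟨ψ.1, h1, congrArg Units.val h2⟩
  · rintro ⟨ψ, h1, h2⟩
    exact ⟨⟨ψ, h1.1 χ⟩, h1, Units.ext h2⟩

theorem QX_conj (h : Ad χ e) {X Y : Set (SS g →* ℤˣ)} (ψ : St χ)
    (hXY : ∀ χ' ∈ Y, χ'.comp (ψ : MulAut (SS g)).toMonoidHom ∈ X) {A : GG r} (hA : A ∈ h.QX X) :
    h.rho ψ * A * (h.rho ψ)⁻¹ ∈ h.QX Y := by
  obtain ⟨φ, h1, rfl⟩ := hA
  refine ⟨ψ * φ * ψ⁻¹, ?_, by rw [map_mul, map_mul, map_inv]⟩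
  exact NX.conj ψ.1 hXY h1

theorem QX_comm (h : Ad χ e) {X Y : Set (SS g →* ℤˣ)} {A B : GG r} (hA : A ∈ h.QX X)
    (hB : B ∈ h.QX Y) : A * B * A⁻¹ * B⁻¹ ∈ h.QX (X ∪ Y) := by
  obtain ⟨φ, h1, rfl⟩ := hA
  obtain ⟨ψ, h2, rfl⟩ := hB
  refine ⟨φ * ψ * φ⁻¹ * ψ⁻¹, ?_, by rw [map_mul, map_mul, map_mul, map_inv, map_inv]⟩
  exact NX.comm h1 h2

theorem TA_tv (h : Ad χ e) (hr : 3 ≤ r) {o : Fin r} {u : Sy.Vr r} (hu : Pr o u) (k : ℤ) :
    tv u (2 * k) ∈ h.QX ∅ := by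
  obtain ⟨A, hA, rfl⟩ := hu
  obtain ⟨ψ, rfl⟩ := h.range_ge hr hA
  obtain ⟨φ, h1, h2, -⟩ := h.iso1 o
  have h3 : tv (bv (Sum.inl o)) 2 ∈ h.QX ∅ := h.mem_QX.2 ⟨φ, ⟨h1, by simp⟩, h2⟩
  have h4 := (h.QX ∅).zpow_mem h3 k
  rw [Sy.tv_zpow] at h4
  have h5 := h.QX_conj (Y := ∅) ψ (by simp) h4
  rw [Sy.tv_conj hA] at h5
  rwa [mul_comm 2 k]

/-- the isolation from one other character, for one vector -/
theorem one_char' (h : Ad χ e) {o : Fin r} (ho : (o : ℕ) = 0) {χ' : SS g →* ℤˣ}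
    (hχ : χ' ≠ χ) : ∃ s, tv (bv s) 4 ∈ h.QX {χ'} := by
  by_cases c1 : ∃ k, χ' (ga (e k)) = -1
  · obtain ⟨k, hk⟩ := c1
    obtain ⟨ψ, h1, h2, h3⟩ := h.iso1 k
    refine ⟨Sum.inl k, ?_⟩
    have h4 : tv (bv (Sum.inl k)) 2 ∈ h.QX {χ'} := h.mem_QX.2 ⟨ψ, ⟨h1, by
      intro χ'' hχ''
      rw [Set.mem_singleton_iff.1 hχ'']
      exact h3 χ' hk⟩, h2⟩
    have h5 := (h.QX {χ'}).zpow_mem h4 2
    rwa [Sy.tv_zpow] at h5
  by_cases c2 : ∃ k, χ' (gb (e k)) = -1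
  · obtain ⟨k, hk⟩ := c2
    obtain ⟨ψ, h1, h2, h3⟩ := h.iso2 k
    refine ⟨Sum.inr k, ?_⟩
    have h4 : tv (bv (Sum.inr k)) (-2) ∈ h.QX {χ'} := h.mem_QX.2 ⟨ψ, ⟨h1, by
      intro χ'' hχ''
      rw [Set.mem_singleton_iff.1 hχ'']
      exact h3 χ' hk⟩, h2⟩
    have h5 := (h.QX {χ'}).zpow_mem h4 (-2)
    rwa [Sy.tv_zpow] at h5
  push Not at c1 c2
  have d1 : ∀ k, χ' (ga (e k)) = 1 := fun k => (Int.units_eq_one_or _).resolve_right (c1 k)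
  have d2 : ∀ k, χ' (gb (e k)) = 1 := fun k => (Int.units_eq_one_or _).resolve_right (c2 k)
  by_cases c3 : ∃ l, l ∉ Set.range e
  · obtain ⟨l, hl⟩ := c3
    have hgen : ∀ χ'' : SS g →* ℤˣ, χ' (ga l) = χ'' (ga l) → χ' (gb l) = χ'' (gb l) →
        (∀ k, χ'' (ga (e k)) = 1 ∧ χ'' (gb (e k)) = 1) → χ' = χ'' := by
      intro χ'' k1 k2 k3
      apply chi_ext
      rintro (i | i)
      · by_cases hi : i ∈ Set.range e
        · obtain ⟨k, rfl⟩ := hi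
          exact (d1 k).trans (k3 k).1.symm
        · rw [h.uniq i l hi hl]; exact k1
      · by_cases hi : i ∈ Set.range e
        · obtain ⟨k, rfl⟩ := hi
          exact (d2 k).trans (k3 k).2.symm
        · rw [h.uniq i l hi hl]; exact k2
    rcases Int.units_eq_one_or (χ' (gb l)) with c4 | c4
    · rcases Int.units_eq_one_or (χ' (ga l)) with c5 | c5
      · have hone : χ' = 1 := hgen 1 c5 c4 (fun k => ⟨rfl, rfl⟩)
        obtain ⟨ψ, h1, h2, h3⟩ := h.iso4 hl ho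
        refine ⟨Sum.inl o, ?_⟩
        have h4 : tv (bv (Sum.inl o)) (-4) ∈ h.QX {χ'} := h.mem_QX.2 ⟨ψ, ⟨h1, by
          intro χ'' hχ''
          rw [Set.mem_singleton_iff.1 hχ'', hone]
          exact h3⟩, h2⟩
        have h5 := (h.QX {χ'}).zpow_mem h4 (-1)
        rwa [Sy.tv_zpow] at h5
      · exact absurd (hgen χ (by rw [c5]; exact (h.outL l hl).symm)
          (by rw [c4]; exact (h.outR l hl).symm) (fun k => ⟨h.oneL k, h.oneR k⟩)) hχ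
    · obtain ⟨ψ, h1, h2, h3⟩ := h.iso3 hl ho
      refine ⟨Sum.inr o, ?_⟩
      have h4 : tv (bv (Sum.inr o)) 2 ∈ h.QX {χ'} := h.mem_QX.2 ⟨ψ, ⟨h1, by
        intro χ'' hχ''
        rw [Set.mem_singleton_iff.1 hχ'']
        exact h3 χ' c4 (d2 o)⟩, h2⟩
      have h5 := (h.QX {χ'}).zpow_mem h4 2
      rwa [Sy.tv_zpow] at h5
  · push Not at c3
    exfalso
    apply hχ
    apply chi_ext
    rintro (i | i)
    · obtain ⟨k, rfl⟩ := c3 i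
      exact (d1 k).trans (h.oneL k).symm
    · obtain ⟨k, rfl⟩ := c3 i
      exact (d2 k).trans (h.oneR k).symm

theorem one_char (h : Ad χ e) (hr : 3 ≤ r) {o p : Fin r} (ho : (o : ℕ) = 0) (hop : p ≠ o)
    {χ' : SS g →* ℤˣ} (hχ : χ' ≠ χ) {u : Sy.Vr r} (hu : Pr o u) : tv u 256 ∈ h.QX {χ'} := by
  obtain ⟨A, hA, rfl⟩ := hu
  obtain ⟨ψ, rfl⟩ := h.range_ge hr hA
  have hχ'' : χ'.comp (ψ : MulAut (SS g)).toMonoidHom ≠ χ := comp_ne ψ.2 hχ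
  have h1 : tv (bv (Sum.inl o)) 256 ∈ h.QX {χ'.comp (ψ : MulAut (SS g)).toMonoidHom} := by
    obtain ⟨s, hs⟩ := h.one_char' ho hχ''
    refine Sy.iso hop _ ?_ s hs
    intro u hu k B hB
    obtain ⟨φ, f1, f2⟩ := h.mem_QX.1 (h.TA_tv hr hu k)
    have f3 : h.rho ⟨φ, f1.1 χ⟩ = tv u (2 * k) := Units.ext f2
    rw [← f3]
    refine h.QX_conj _ ?_ hB
    intro χ₁ hχ₁
    have : χ₁.comp φ.toMonoidHom = χ₁ := Fix.comp_eq (f1.1 χ₁)
    show χ₁.comp φ.toMonoidHom ∈ _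
    rwa [this]
  have h2 := h.QX_conj (Y := {χ'}) ψ (by
    intro χ₁ hχ₁
    rw [Set.mem_singleton_iff.1 hχ₁]
    exact Set.mem_singleton _) h1
  rwa [Sy.tv_conj hA] at h2

/-- the isolation from finitely many other characters -/
theorem fin_char (h : Ad χ e) (hr : 3 ≤ r) {o p : Fin r} (ho : (o : ℕ) = 0) (hop : p ≠ o)
    (X : Finset (SS g →* ℤˣ)) (hX : χ ∉ X) : ∃ n : ℕ, 0 < n ∧
      ∀ u, Pr o u → tv u n ∈ h.QX X := by
  classical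
  induction X using Finset.induction_on with
  | empty =>
    refine ⟨2, by norm_num, fun u hu => ?_⟩
    have := h.TA_tv hr hu 1
    rw [mul_one] at this
    simpa using this
  | insert χ' X hχ' ih =>
    rw [Finset.mem_insert, not_or] at hX
    obtain ⟨n, hn, ih⟩ := ih hX.2
    refine ⟨2 * n * 256, by positivity, fun u hu => ?_⟩
    obtain ⟨A, hA, rfl⟩ := hu
    have hall := fun s => Pr.all hop s
    have hPA : ∀ s, Pr o ((A : MG r) *ᵥ bv s) := fun s => (hall s).ap hA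
    have hPA2 : ∀ s t, hd s ≠ hd t → Pr o ((A : MG r) *ᵥ bv s + (A : MG r) *ᵥ bv t) := by
      intro s t hst
      rw [← Matrix.mulVec_add]
      exact ((hall s).add hst).ap hA
    have hne : hd (Sum.inl o) ≠ hd (Sum.inl p) := hop.symm
    have hne' : hd (Sum.inl o) ≠ hd (Sum.inr p) := hop.symm
    have m1 : ∀ u, Pr o u → tv u (-(n : ℤ)) ∈ h.QX X := by
      intro u hu
      rw [Sy.tv_neg]
      exact inv_mem (ih u hu)
    have m2 : ∀ u, Pr o u → tv u (-256) ∈ h.QX {χ'} := by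
      intro u hu
      rw [Sy.tv_neg]
      exact inv_mem (h.one_char hr ho hop (fun h' => hX.1 h'.symm) hu)
    have k1 : Ev ((A : MG r) *ᵥ bv (Sum.inl o)) ((A : MG r) *ᵥ bv (Sum.inl p)) n ∈ h.QX X :=
      mul_mem (mul_mem (ih _ (hPA2 _ _ hne)) (m1 _ (hPA _))) (m1 _ (hPA _))
    have k2 : Ev ((A : MG r) *ᵥ bv (Sum.inl o)) ((A : MG r) *ᵥ bv (Sum.inr p)) 256 ∈ h.QX {χ'} :=
      mul_mem (mul_mem (h.one_char hr ho hop (fun h' => hX.1 h'.symm) (hPA2 _ _ hne'))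
        (m2 _ (hPA _))) (m2 _ (hPA _))
    have k3 := h.QX_comm k1 k2
    have o1 : om ((A : MG r) *ᵥ bv (Sum.inl o)) ((A : MG r) *ᵥ bv (Sum.inl p)) = 0 := by
      rw [Sy.EL_om hA]; exact Sy.om_hd hne
    have o2 : om ((A : MG r) *ᵥ bv (Sum.inl o)) ((A : MG r) *ᵥ bv (Sum.inr p)) = 0 := by
      rw [Sy.EL_om hA]; exact Sy.om_hd hne'
    have o3 : om ((A : MG r) *ᵥ bv (Sum.inr p)) ((A : MG r) *ᵥ bv (Sum.inl p)) = 1 := by
      rw [Sy.EL_om hA, Sy.om_inl]; simp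
    rw [Sy.Ev_comm o1 o2, o3, mul_one] at k3
    have k4 : ((X : Set (SS g →* ℤˣ)) ∪ {χ'}) = ((insert χ' X : Finset _) : Set _) := by
      rw [Finset.coe_insert, Set.union_singleton]
    rw [k4] at k3
    push_cast
    push_cast at k3
    exact k3

/-- the isolation from all other characters -/
theorem all_char (h : Ad χ e) (hr : 3 ≤ r) {o p : Fin r} (ho : (o : ℕ) = 0) (hop : p ≠ o) :
    ∃ n : ℕ, 0 < n ∧ ∀ u, Pr o u → tv u n ∈ h.QX {χ' | χ' ≠ χ} := by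
  have hfin : (Set.univ : Set (SS g →* ℤˣ)).Finite := Set.toFinite _
  classical
  obtain ⟨n, hn, h1⟩ := h.fin_char hr ho hop (hfin.toFinset.erase χ) (by simp)
  refine ⟨n, hn, fun u hu => ?_⟩
  have h2 : ((hfin.toFinset.erase χ : Finset _) : Set (SS g →* ℤˣ)) = {χ' | χ' ≠ χ} := by
    ext χ'
    simp
  rw [← h2]
  exact h1 u hu

end Ad

end Pool.Agent.H364.PR
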