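import Pool.Agent.H364.PR.Sy

/-!
# Symplectic transvections: orbits and commutators
-/

set_option autoImplicit false

namespace Pool.Agent.H364.PR.Sy

open Pool.Agent.TH933.SPC
open Pool.Agent.TH933.SPC.GENM (uU uL uD)
open Matrix

variable {r : ℕ}

/-- the plane of a basis vector -/
def hd (s : Fin r ⊕ Fin r) : Fin r := Sum.elim id id s

theorem hd_swap (s : Fin r ⊕ Fin r) : hd s.swap = hd s := by
  rcases s with i | i <;> rfl

theorem om_hd {s t : Fin r ⊕ Fin r} (h : hd s ≠ hd t) : om (bv s) (bv t) = 0 := by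
  rcases s with i | i <;> rcases t with j | j
  · exact om_bv_ll i j
  · exact om_bv_lr h
  · exact om_bv_rl h
  · exact om_bv_rr i j

/-- the sign -/
def kp (s : Fin r ⊕ Fin r) : ℤ := om (bv s) (bv s.swap)

theorem kp_sq (s : Fin r ⊕ Fin r) : kp s * kp s = 1 := by
  unfold kp
  rcases s with i | i
  · rw [Sum.swap_inl, om_inr]; simp
  · rw [Sum.swap_inr, om_inl]; simp

theorem om_swap_bv (s : Fin r ⊕ Fin r) : om (bv s.swap) (bv s) = -kp s := by
  rw [om_swap]; rfl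

theorem tv_mem (s : Fin r ⊕ Fin r) (n : ℤ) : tv (bv s) n ∈ EL r := by
  rcases s with i | i
  · rw [tv_inl]
    exact Subgroup.subset_closure (Or.inl ⟨_, Matrix.transpose_single _ _ _, rfl⟩)
  · rw [tv_inr]
    exact Subgroup.subset_closure (Or.inr (Or.inl ⟨_, Matrix.transpose_single _ _ _, rfl⟩))

theorem Ev_symm {v w : Vr r} (h : om v w = 0) (n : ℤ) : Ev v w n = Ev w v n := by
  have h' : om w v = 0 := by rw [om_swap, h, neg_zero]
  apply GG_ext
  intro x
  rw [Ev_ap h, Ev_ap h']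
  abel

theorem Ev_mem {s t : Fin r ⊕ Fin r} (h : hd s ≠ hd t) (n : ℤ) : Ev (bv s) (bv t) n ∈ EL r := by
  have hsym : ∀ (c : ℤ) (i j : Fin r),
      (c • (Matrix.single i j (1 : ℤ) + Matrix.single j i 1))ᵀ =
      c • (Matrix.single i j 1 + Matrix.single j i 1) := by
    intro c i j
    rw [Matrix.transpose_smul, Matrix.transpose_add, Matrix.transpose_single,
      Matrix.transpose_single, add_comm]
  rcases s with i | i <;> rcases t with j | j
  · rw [Ev_ll (show i ≠ j from h)]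
    exact Subgroup.subset_closure (Or.inl ⟨_, hsym _ _ _, rfl⟩)
  · rw [Ev_lr (show i ≠ j from h)]
    exact Subgroup.subset_closure (Or.inr (Or.inr ⟨_, rfl⟩))
  · rw [Ev_symm (om_hd h), Ev_lr (show j ≠ i from h.symm)]
    exact Subgroup.subset_closure (Or.inr (Or.inr ⟨_, rfl⟩))
  · rw [Ev_rr (show i ≠ j from h)]
    exact Subgroup.subset_closure (Or.inr (Or.inl ⟨_, hsym _ _ _, rfl⟩))

/-- the orbit of a basis vector -/
def Pr (o : Fin r) (u : Vr r) : Prop := ∃ A ∈ EL r, (A : MG r) *ᵥ bv (Sum.inl o) = u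

theorem Pr.ap {o : Fin r} {u : Vr r} (h : Pr o u) {A : GG r} (hA : A ∈ EL r) :
    Pr o ((A : MG r) *ᵥ u) := by
  obtain ⟨B, hB, rfl⟩ := h
  exact ⟨A * B, mul_mem hA hB, by rw [Units.val_mul, ← Matrix.mulVec_mulVec]⟩

theorem Pr.self (o : Fin r) : Pr o (bv (Sum.inl o)) :=
  ⟨1, one_mem _, by rw [Units.val_one, Matrix.one_mulVec]⟩

theorem Pr.add {o : Fin r} {s t : Fin r ⊕ Fin r} (hst : hd s ≠ hd t) (h : Pr o (bv s)) :
    Pr o (bv s + bv t) := by
  have h1 : hd s.swap ≠ hd t := by rwa [hd_swap]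
  have h2 := h.ap (Ev_mem h1 (kp s))
  rw [Ev_ap (om_hd h1), om_hd hst, mul_zero, zero_smul, add_zero] at h2
  have h3 : om (bv s) (bv s.swap) = kp s := rfl
  rw [h3, kp_sq, one_smul] at h2
  exact h2

theorem Pr.move {o : Fin r} {s t : Fin r ⊕ Fin r} (hst : hd s ≠ hd t) (h : Pr o (bv s)) :
    Pr o (bv t) := by
  have h0 := h.add hst
  have h1 : hd t.swap ≠ hd s := by rw [hd_swap]; exact hst.symm
  have h2 := h0.ap (Ev_mem h1 (-kp t))
  have h3 : om (bv s) (bv t.swap) = 0 := om_hd (by rw [hd_swap]; exact hst)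
  have h4 : om (bv t) (bv t.swap) = kp t := rfl
  rw [Ev_ap (om_hd h1), om_add_left, om_add_left, h3, h4, om_self, om_hd hst.symm] at h2
  have h5 : bv s + bv t + (-kp t * (0 + kp t)) • bv s + (-kp t * (0 + 0)) • bv t.swap =
      bv t + (1 - kp t * kp t) • bv s := by
    module
  rw [h5, kp_sq, sub_self, zero_smul, add_zero] at h2
  exact h2

theorem Pr.all {o p : Fin r} (hop : p ≠ o) (s : Fin r ⊕ Fin r) : Pr o (bv s) := by
  by_cases hs : hd s = o
  · have h1 : Pr o (bv (Sum.inl p)) :=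
      Pr.move (s := Sum.inl o) (t := Sum.inl p) (show o ≠ p from hop.symm) (Pr.self o)
    exact Pr.move (s := Sum.inl p) (show p ≠ hd s by rwa [hs]) h1
  · exact Pr.move (s := Sum.inl o) (show o ≠ hd s from fun h => hs h.symm) (Pr.self o)

/-- commutators -/
theorem Ev_comm {v w w' : Vr r} (h : om v w = 0) (h' : om v w' = 0) (n n' : ℤ) :
    Ev v w n * Ev v w' n' * (Ev v w n)⁻¹ * (Ev v w' n')⁻¹ = tv v (2 * n * n' * om w' w) := by
  have e1 : om w v = 0 := by rw [om_swap, h, neg_zero]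
  have e2 : om w' v = 0 := by rw [om_swap, h', neg_zero]
  have e3 : om w w' = -om w' w := om_swap _ _
  rw [mul_assoc, ← _root_.mul_inv_rev, mul_inv_eq_iff_eq_mul]
  apply GG_ext
  intro x
  simp only [Units.val_mul]
  rw [← Matrix.mulVec_mulVec, ← Matrix.mulVec_mulVec, ← Matrix.mulVec_mulVec, Ev_ap h', Ev_ap h,
    Ev_ap h, Ev_ap h', tv_ap]
  simp only [om_add_left, om_smul_left, om_self, h, h', e1, e2, e3, mul_zero, add_zero]
  module

theorem tv_sum {x y : Vr r} (h : om x y = 0) {k : ℤ} (hk : k * k = 1) (n : ℤ) :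
    tv (x + (2 * k) • y) n * tv (x + (-(2 * k)) • y) n * tv x (-(2 * n)) = tv y (8 * n) := by
  have e1 : om y x = 0 := by rw [om_swap, h, neg_zero]
  apply GG_ext
  intro w
  simp only [Units.val_mul]
  rw [← Matrix.mulVec_mulVec, ← Matrix.mulVec_mulVec, tv_ap, tv_ap, tv_ap, tv_ap]
  simp only [om_add_left, om_add_right, om_smul_left, om_smul_right, om_self, h, e1, mul_zero,
    add_zero]
  have h1 : ∀ a b : ℤ, w + (-(2 * n) * a) • x + (n * (a + -(2 * k) * b)) • (x + (-(2 * k)) • y) +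
      (n * (a + 2 * k * b)) • (x + (2 * k) • y) = w + (8 * n * b) • y +
        ((k * k - 1) * (8 * n * b)) • y := by
    intro a b
    module
  rw [h1, hk, sub_self, zero_mul, zero_smul, add_zero]

theorem conj_mul3 {G : Type*} [Group G] {Q : Subgroup G} {a b c : G}
    (ha : ∀ B ∈ Q, a * B * a⁻¹ ∈ Q) (hb : ∀ B ∈ Q, b * B * b⁻¹ ∈ Q)
    (hc : ∀ B ∈ Q, c * B * c⁻¹ ∈ Q) : ∀ B ∈ Q, (a * b * c) * B * (a * b * c)⁻¹ ∈ Q := by
  intro B hB
  have h1 := ha _ (hb _ (hc B hB))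
  have h2 : a * b * c * B * (a * b * c)⁻¹ = a * (b * (c * B * c⁻¹) * b⁻¹) * a⁻¹ := by group
  rw [h2]
  exact h1

/-- one step: from a transvection to another one -/
theorem step {o : Fin r} (hall : ∀ s, Pr o (bv s)) (Q : Subgroup (GG r))
    (hQ : ∀ u, Pr o u → ∀ k : ℤ, ∀ B ∈ Q, tv u (2 * k) * B * (tv u (2 * k))⁻¹ ∈ Q)
    {s t : Fin r ⊕ Fin r} (hst : hd s ≠ hd t) {n : ℤ} (h : tv (bv s) n ∈ Q) :
    tv (bv t) (8 * n) ∈ Q := by
  have h1 : hd s.swap ≠ hd t := by rwa [hd_swap]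
  have key : ∀ k : ℤ, tv (bv s + (2 * k * kp s) • bv t) n ∈ Q := by
    intro k
    have h2 := conj_mul3 (hQ _ ((hall s.swap).add h1) k) (hQ _ (hall s.swap) (-k))
      (hQ _ (hall t) (-k)) _ h
    have h3 : tv (bv s.swap + bv t) (2 * k) * tv (bv s.swap) (2 * -k) * tv (bv t) (2 * -k) =
        Ev (bv s.swap) (bv t) (2 * k) := by
      unfold Ev
      rw [mul_neg]
    have h4 : om (bv s) (bv s.swap) = kp s := rfl
    rw [h3, tv_conj (Ev_mem h1 _), Ev_ap (om_hd h1), om_hd hst, mul_zero, zero_smul, add_zero,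
      h4] at h2
    exact h2
  have h5 := key 1
  have h6 := key (-1)
  have h7 : tv (bv s) (-(2 * n)) ∈ Q := by
    have := Q.zpow_mem h (-2)
    rwa [tv_zpow, neg_mul] at this
  rw [← tv_sum (om_hd hst) (kp_sq s)]
  refine mul_mem (mul_mem ?_ ?_) h7
  · rwa [mul_one] at h5
  · rwa [show 2 * -1 * kp s = -(2 * kp s) by ring] at h6

/-- all the transvections have a power in `Q` -/
theorem iso {o p : Fin r} (hop : p ≠ o) (Q : Subgroup (GG r))
    (hQ : ∀ u, Pr o u → ∀ k : ℤ, ∀ B ∈ Q, tv u (2 * k) * B * (tv u (2 * k))⁻¹ ∈ Q)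
    (s : Fin r ⊕ Fin r) (h : tv (bv s) 4 ∈ Q) : tv (bv (Sum.inl o)) 256 ∈ Q := by
  have hall := fun s => Pr.all hop s
  by_cases hs : hd s = o
  · have h1 : tv (bv (Sum.inl p)) (8 * 4) ∈ Q :=
      step hall Q hQ (show hd s ≠ p by rw [hs]; exact hop.symm) h
    exact step (s := Sum.inl p) (t := Sum.inl o) hall Q hQ (show p ≠ o from hop) h1
  · have h1 : tv (bv (Sum.inl o)) (8 * 4) ∈ Q := step hall Q hQ (show hd s ≠ o from hs) h
    have h2 := Q.zpow_mem h1 8
    rwa [tv_zpow] at h2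

end Pool.Agent.H364.PR.Sy
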