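import Pool.Agent.H364.PR.Rng
import Pool.Agent.H364.PR.Sy2

/-!
# Automorphisms acting on one part only
-/

set_option autoImplicit false

namespace Pool.Agent.H364.PR

open Pool.Agent.TH933.SPC
open Matrix
open Sy (tv bv om Pr Ev hd)

variable {g r : ℕ}

theorem triv_of_gn {χ : SS g →* ℤˣ} {φ : MulAut (SS g)} (hf : Fix χ φ)
    (h : ∀ d, IsDer χ d → ∀ j, d (φ (gn j)) = d (gn j)) : Triv χ φ := by
  refine triv_of_gen hf gn_closure fun d hd => ?_
  rintro _ ⟨j, rfl⟩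
  exact h d hd j

/-- only two handles change -/
theorem triv_of_two {χ : SS g →* ℤˣ} {ψ : MulAut (SS g)} (hf : Fix χ ψ) {i j : Fin g}
    (h1 : ∀ d, IsDer χ d → d (ψ (ga i)) = d (ga i) ∧ d (ψ (gb i)) = d (gb i) ∧
      d (ψ (ga j)) = d (ga j) ∧ d (ψ (gb j)) = d (gb j))
    (h : ∀ k, k ≠ i → k ≠ j → ψ (ga k) = ga k ∧ ψ (gb k) = gb k) : Triv χ ψ := by
  apply triv_of_gn hf
  intro d hd
  obtain ⟨e1, e2, e3, e4⟩ := h1 d hd
  rintro (k | k)
  · by_cases hi : k = i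
    · rw [hi]; exact e1
    · by_cases hj : k = j
      · rw [hj]; exact e3
      · show d (ψ (ga k)) = _
        rw [(h k hi hj).1]
  · by_cases hi : k = i
    · rw [hi]; exact e2
    · by_cases hj : k = j
      · rw [hj]; exact e4
      · show d (ψ (gb k)) = _
        rw [(h k hi hj).2]

theorem IsDer.sq_of_neg {G : Type} [Group G] {χ : G →* ℤˣ} {d : G → ℤ} (hd : IsDer χ d) {c : G}
    (hc : χ c = -1) : d (c * c) = 0 := by
  rw [hd, hc]; simp

theorem chi_sq {G : Type} [Group G] (χ : G →* ℤˣ) (c : G) : χ (c * c) = 1 := by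
  rw [map_mul, u_mul]

namespace Ad

variable {χ : SS g →* ℤˣ} {e : Fin r → Fin g}

theorem Bm_eq_tv (h : Ad χ e) {ψ : MulAut (SS g)} {u : Sy.Vr r} {n : ℤ}
    (H : ∀ s t, h.D s (ψ (em e t)) = (bv t + (n * om (bv t) u) • u) s) :
    h.Bm ψ = (tv u n : MG r) := by
  ext s t
  have h1 := congrFun (Sy.tv_ap u n (bv t)) s
  rw [Matrix.mulVec_single_one] at h1
  exact (H s t).trans h1.symm

/-- the square of the twist along `a_{e k}` -/
theorem iso1 (h : Ad χ e) (k : Fin r) : ∃ ψ ∈ TA (SS g),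
    h.Bm ψ = (tv (bv (Sum.inl k)) 2 : GG r) ∧ ∀ χ' : SS g →* ℤˣ, χ' (ga (e k)) = -1 → Triv χ' ψ := by
  obtain ⟨ψ, h1, h2⟩ := aU (e k)
  have e1 : (ψ * ψ) (gb (e k)) = gb (e k) * (ga (e k) * ga (e k)) := by
    rw [MulAut.mul_apply, h1, map_mul, h1, h2 _ (by simp), mul_assoc]
  have e2 : ∀ j, j ≠ Sum.inr (e k) → (ψ * ψ) (gn j) = gn j := by
    intro j hj
    rw [MulAut.mul_apply, h2 j hj, h2 j hj]
  have hTA : ψ * ψ ∈ TA (SS g) := by
    intro χ'
    apply fix_of_gn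
    intro j
    by_cases hj : j = Sum.inr (e k)
    · subst hj
      show χ' ((ψ * ψ) (gb (e k))) = _
      rw [e1, map_mul, chi_sq, mul_one]
    · rw [e2 j hj]
  refine ⟨ψ * ψ, hTA, ?_, ?_⟩
  · apply h.Bm_eq_tv
    intro s t
    rw [Sy.om_inl]
    rcases t with l | l
    · show h.D s ((ψ * ψ) (ga (e l))) = _
      rw [e2 _ (by simp), h.D_a]
      simp [Pi.single_apply]
    · show h.D s ((ψ * ψ) (gb (e l))) = _
      by_cases hl : l = k
      · subst hl
        rw [e1, h.D_der s, h.oneR, h.D_der s, h.oneL, h.D_a, h.D_b]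
        simp [Pi.single_apply]
        split_ifs <;> ring
      · rw [e2 _ (by simpa using h.ne' hl), h.D_b]
        simp [Pi.single_apply, Ne.symm hl]
  · intro χ' hχ'
    apply triv_of_gn (hTA χ')
    intro d hd j
    by_cases hj : j = Sum.inr (e k)
    · subst hj
      show d ((ψ * ψ) (gb (e k))) = _
      rw [e1, hd, hd.sq_of_neg hχ', mul_zero, add_zero]
    · rw [e2 j hj]

/-- the square of the twist along `b_{e k}` -/
theorem iso2 (h : Ad χ e) (k : Fin r) : ∃ ψ ∈ TA (SS g),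
    h.Bm ψ = (tv (bv (Sum.inr k)) (-2) : GG r) ∧
    ∀ χ' : SS g →* ℤˣ, χ' (gb (e k)) = -1 → Triv χ' ψ := by
  obtain ⟨ψ, h1, h2⟩ := aL (e k)
  have e1 : (ψ * ψ) (ga (e k)) = ga (e k) * (gb (e k) * gb (e k)) := by
    rw [MulAut.mul_apply, h1, map_mul, h1, h2 _ (by simp), mul_assoc]
  have e2 : ∀ j, j ≠ Sum.inl (e k) → (ψ * ψ) (gn j) = gn j := by
    intro j hj
    rw [MulAut.mul_apply, h2 j hj, h2 j hj]
  have hTA : ψ * ψ ∈ TA (SS g) := by
    intro χ'
    apply fix_of_gn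
    intro j
    by_cases hj : j = Sum.inl (e k)
    · subst hj
      show χ' ((ψ * ψ) (ga (e k))) = _
      rw [e1, map_mul, chi_sq, mul_one]
    · rw [e2 j hj]
  refine ⟨ψ * ψ, hTA, ?_, ?_⟩
  · apply h.Bm_eq_tv
    intro s t
    rw [Sy.om_inr]
    rcases t with l | l
    · show h.D s ((ψ * ψ) (ga (e l))) = _
      by_cases hl : l = k
      · subst hl
        rw [e1, h.D_der s, h.oneL, h.D_der s, h.oneR, h.D_a, h.D_b]
        simp [Pi.single_apply]
        split_ifs <;> ring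
      · rw [e2 _ (by simpa using h.ne' hl), h.D_a]
        simp [Pi.single_apply, Ne.symm hl]
    · show h.D s ((ψ * ψ) (gb (e l))) = _
      rw [e2 _ (by simp), h.D_b]
      simp [Pi.single_apply]
  · intro χ' hχ'
    apply triv_of_gn (hTA χ')
    intro d hd j
    by_cases hj : j = Sum.inl (e k)
    · subst hj
      show d ((ψ * ψ) (ga (e k))) = _
      rw [e1, hd, hd.sq_of_neg hχ', mul_zero, add_zero]
    · rw [e2 j hj]

/-- the square of the twist along a curve `b_l⁻¹ b_{e o}` -/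
theorem iso3 (h : Ad χ e) {l : Fin g} (hl : l ∉ Set.range e) {o : Fin r} (ho : (o : ℕ) = 0) :
    ∃ ψ ∈ TA (SS g), h.Bm ψ = (tv (bv (Sum.inr o)) 2 : GG r) ∧
    ∀ χ' : SS g →* ℤˣ, χ' (gb l) = -1 → χ' (gb (e o)) = 1 → Triv χ' ψ := by
  obtain ⟨ψ, h1, h2, h3, h4, h5⟩ := aT l (e o) (h.nxt l hl o ho)
  have hne : l ≠ e o := fun h' => hl ⟨o, h'.symm⟩
  set c := cT l (e o) with hc
  have hcc : ψ c = c := by
    rw [hc, cT, map_mul, map_mul, map_mul, map_inv, map_inv, h2, h3, h4]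
    rw [hc, cT]
    group
  have e1 : (ψ * ψ) (ga l) = ga l * (c * c) := by
    rw [MulAut.mul_apply, h1, map_mul, h1, hcc, mul_assoc]
  have e2 : (ψ * ψ) (gb l) = (c * c)⁻¹ * gb l * (c * c) := by
    rw [MulAut.mul_apply, h2, map_mul, map_mul, map_inv, h2, hcc]
    group
  have e3 : (ψ * ψ) (ga (e o)) = (c * c)⁻¹ * ga (e o) := by
    rw [MulAut.mul_apply, h3, map_mul, map_inv, h3, hcc]
    group
  have e4 : (ψ * ψ) (gb (e o)) = gb (e o) := by
    rw [MulAut.mul_apply, h4, h4]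
  have e5 : ∀ k, k ≠ l → k ≠ e o → (ψ * ψ) (ga k) = ga k ∧ (ψ * ψ) (gb k) = gb k := by
    intro k hk hk'
    rw [MulAut.mul_apply, MulAut.mul_apply, (h5 k hk hk').1, (h5 k hk hk').2, (h5 k hk hk').1,
      (h5 k hk hk').2]
    exact ⟨rfl, rfl⟩
  have hTA : ψ * ψ ∈ TA (SS g) := by
    intro χ'
    refine fix_of_two ?_ ?_ ?_ ?_ e5
    · rw [e1, map_mul, chi_sq, mul_one]
    · rw [e2, map_mul, map_mul, map_inv, chi_sq]; simp
    · rw [e3, map_mul, map_inv, chi_sq]; simp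
    · rw [e4]
  have hD : ∀ s, h.D s c = if s = Sum.inr o then 1 else 0 := by
    intro s
    have hb := (h.D_out s hl).2
    change h.D s (gb l) = 0 at hb
    rw [hc, cT, h.D_der s, h.D_der s, h.D_der s, (h.D_der s).inv, (h.D_der s).inv, h.D_a, h.D_b, hb]
    simp only [map_mul, map_inv, h.oneL, h.oneR, h.outR l hl]
    simp
  have hc1 : χ c = 1 := by
    rw [hc, cT, map_mul, map_mul, map_mul, map_inv, map_inv, h.oneL, h.oneR, h.outR l hl]
    simp
  refine ⟨ψ * ψ, hTA, ?_, ?_⟩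
  · apply h.Bm_eq_tv
    intro s t
    rw [Sy.om_inr]
    rcases t with k | k
    · show h.D s ((ψ * ψ) (ga (e k))) = _
      by_cases hk : k = o
      · subst hk
        rw [e3, h.D_der s, (h.D_der s).inv, h.D_der s, hD, h.D_a, map_inv, map_mul, hc1]
        simp [Pi.single_apply]
        split_ifs <;> ring
      · rw [(e5 (e k) (fun h' => hl ⟨k, h'⟩) (h.ne' hk)).1, h.D_a]
        simp [Pi.single_apply, Ne.symm hk]
    · show h.D s ((ψ * ψ) (gb (e k))) = _
      have : (ψ * ψ) (gb (e k)) = gb (e k) := by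
        by_cases hk : k = o
        · rw [hk, e4]
        · exact (e5 (e k) (fun h' => hl ⟨k, h'⟩) (h.ne' hk)).2
      rw [this, h.D_b]
      simp [Pi.single_apply]
  · intro χ' hχ' hχ''
    have hcm : χ' c = -1 := by
      rw [hc, cT, map_mul, map_mul, map_mul, map_inv, map_inv, hχ', hχ'']
      simp
    refine triv_of_two (hTA χ') (fun d hd => ?_) e5
    have k0 := hd.sq_of_neg hcm
    have k1 : d (c * c)⁻¹ = 0 := by rw [hd.inv, k0, mul_zero, neg_zero]
    refine ⟨?_, ?_, ?_, ?_⟩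
    · rw [e1, hd, k0, mul_zero, add_zero]
    · rw [e2, hd, hd, k0, k1, map_inv, chi_sq]; simp
    · rw [e3, hd, k1, map_inv, chi_sq]; simp
    · rw [e4]

/-- a separating twist -/
theorem iso4 (h : Ad χ e) {l : Fin g} (hl : l ∉ Set.range e) {o : Fin r} (ho : (o : ℕ) = 0) :
    ∃ ψ ∈ TA (SS g), h.Bm ψ = (tv (bv (Sum.inl o)) (-4) : GG r) ∧
      Triv (1 : SS g →* ℤˣ) ψ := by
  obtain ⟨ψ, h1, h2, h3, h4, h5⟩ := aC l (e o) (h.nxt l hl o ho)
  obtain ⟨τ, t1, t2, t3⟩ := aD l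
  have hne : e o ≠ l := fun h' => hl ⟨o, h'⟩
  set c := cC l (e o) with hc
  have hcc : ψ c = c := by
    rw [hc, cC, map_mul, map_mul, map_mul, map_inv, map_inv, h1, h2, h3]
    rw [hc, cC]
    group
  have hτ : τ ∈ TA (SS g) := by
    intro χ'
    refine fix_of_two (i := l) (j := l) ?_ ?_ ?_ ?_ (fun k hk _ => t3 k hk)
    · rw [t1, map_mul, map_mul, map_inv, chi_cK]; simp
    · rw [t2, map_mul, map_mul, map_inv, chi_cK]; simp
    · rw [t1, map_mul, map_mul, map_inv, chi_cK]; simp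
    · rw [t2, map_mul, map_mul, map_inv, chi_cK]; simp
  have hτ1 : Triv (1 : SS g →* ℤˣ) τ := by
    refine triv_of_two (i := l) (j := l) (hτ 1) (fun d hd => ?_) (fun k hk _ => t3 k hk)
    have k1 : d (τ (ga l)) = d (ga l) := by
      rw [t1, hd.conj rfl]; simp
    have k2 : d (τ (gb l)) = d (gb l) := by
      rw [t2, hd.conj rfl]; simp
    exact ⟨k1, k2, k1, k2⟩
  have hTA : ψ * τ * ψ⁻¹ ∈ TA (SS g) := (inferInstance : (TA (SS g)).Normal).conj_mem _ hτ ψ
  -- the inverse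
  have i1 : ψ⁻¹ (ga (e o)) = c⁻¹ * ga (e o) * c := by
    rw [MulAut.inv_apply, MulEquiv.symm_apply_eq, map_mul, map_mul, map_inv, hcc, h3]
    group
  have i2 : ψ⁻¹ (gb (e o)) = gb (e o) * c := by
    rw [MulAut.inv_apply, MulEquiv.symm_apply_eq, map_mul, hcc, h4]
    group
  set X := c * gb l with hX
  set Δ := ga l * X * (ga l)⁻¹ * X⁻¹ with hΔ
  set Y := X * (ga l)⁻¹ * X⁻¹ with hY
  set Z := c * ga (e o) * c⁻¹ with hZ
  set C' := Δ * Y * Δ⁻¹ * Z with hC'
  have hK : ψ (cK l) = Δ := by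
    rw [cK, map_mul, map_mul, map_mul, map_inv, map_inv, h1, h2]
  have hC : ψ (τ c) = C' := by
    have k1 : τ c = (cK l * gb l * (cK l)⁻¹) * (cK l * ga l * (cK l)⁻¹)⁻¹ *
        (cK l * gb l * (cK l)⁻¹)⁻¹ * ga (e o) := by
      rw [hc, cC, map_mul, map_mul, map_mul, map_inv, map_inv, t1, t2, (t3 _ hne).1]
    rw [k1]
    simp only [map_mul, map_inv]
    rw [hK, h1, h2, h3, hC', hY, hZ]
    group
  have f1 : (ψ * τ * ψ⁻¹) (gb (e o)) = gb (e o) * c⁻¹ * C' := by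
    rw [MulAut.mul_apply, MulAut.mul_apply, i2, map_mul, map_mul, hC, (t3 _ hne).2, h4]
  have f2 : (ψ * τ * ψ⁻¹) (ga (e o)) = C'⁻¹ * Z * C'⁻¹⁻¹ := by
    rw [MulAut.mul_apply, MulAut.mul_apply, i1, map_mul, map_mul, map_mul, map_mul, map_inv,
      map_inv, hC, (t3 _ hne).1, h3, inv_inv]
  have f3 : ∀ k, k ≠ l → k ≠ e o → (ψ * τ * ψ⁻¹) (ga k) = ga k ∧ (ψ * τ * ψ⁻¹) (gb k) = gb k := by
    intro k hk hk'
    have k1 : ψ⁻¹ (ga k) = ga k := by
      rw [MulAut.inv_apply, MulEquiv.symm_apply_eq, (h5 k hk hk').1]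
    have k2 : ψ⁻¹ (gb k) = gb k := by
      rw [MulAut.inv_apply, MulEquiv.symm_apply_eq, (h5 k hk hk').2]
    constructor
    · rw [MulAut.mul_apply, MulAut.mul_apply, k1, (t3 k hk).1, (h5 k hk hk').1]
    · rw [MulAut.mul_apply, MulAut.mul_apply, k2, (t3 k hk).2, (h5 k hk hk').2]
  -- the signs
  have sa : χ (ga l) = -1 := h.outL l hl
  have sb : χ (gb l) = 1 := h.outR l hl
  have sc : χ c = -1 := by
    rw [hc, cC, map_mul, map_mul, map_mul, map_inv, map_inv, sa, sb, h.oneL]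
    decide
  have sX : χ X = -1 := by rw [hX, map_mul, sc, sb, mul_one]
  have sΔ : χ Δ = 1 := mem_Gam.1 (comm_mem_Gam _ _) χ
  have sY : χ Y = -1 := by
    rw [hY, map_mul, map_mul, map_inv, map_inv, sX, sa]; decide
  have sZ : χ Z = 1 := by
    rw [hZ, map_mul, map_mul, map_inv, sc, h.oneL]; decide
  have sC : χ C' = -1 := by
    rw [hC', map_mul, map_mul, map_mul, map_inv, sΔ, sY, sZ]; decide
  -- the values
  have key : ∀ d, IsDer χ d → d ((ψ * τ * ψ⁻¹) (gb (e o))) = d (gb (e o)) - 4 * d (ga (e o)) ∧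
      d ((ψ * τ * ψ⁻¹) (ga (e o))) = d (ga (e o)) := by
    intro d hd
    have vb : d (gb l) = 0 := h.der_out hd hl
    have vc : d c = d (ga l) - d (ga (e o)) := by
      rw [hc, cC, hd, hd, hd, hd.inv, hd.inv, vb]
      simp only [map_mul, map_inv, sa, sb]
      simp
      ring
    have vX : d X = d (ga l) - d (ga (e o)) := by
      rw [hX, hd, vb, vc, mul_zero, add_zero]
    have vΔ : d Δ = 2 * d (ga (e o)) := by
      rw [hΔ, hd.comm, sX, sa, vX]
      simp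
      ring
    have vY : d Y = d (ga l) - 2 * d (ga (e o)) := by
      rw [hY, hd, hd, hd.inv, hd.inv, vX]
      simp only [map_mul, map_inv, sa, sX]
      simp
      ring
    have vZ : d Z = -d (ga (e o)) := by
      rw [hZ, hd.conj (h.oneL o), sc]
      simp
    have vC : d C' = d (ga l) + 3 * d (ga (e o)) := by
      rw [hC', hd, hd, hd, hd.inv, vΔ, vY, vZ]
      simp only [map_mul, map_inv, sΔ, sY]
      simp
      ring
    constructor
    · rw [f1, hd, hd, hd.inv, vC, vc, map_mul, map_inv, sc, h.oneR]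
      simp
      ring
    · rw [f2, hd.conj sZ, vZ, map_inv, sC]
      simp
  refine ⟨ψ * τ * ψ⁻¹, hTA, ?_, ?_⟩
  · apply h.Bm_eq_tv
    intro s t
    rw [Sy.om_inl]
    rcases t with k | k
    · show h.D s ((ψ * τ * ψ⁻¹) (ga (e k))) = _
      have : h.D s ((ψ * τ * ψ⁻¹) (ga (e k))) = h.D s (ga (e k)) := by
        by_cases hk : k = o
        · rw [hk]
          exact (key _ (h.D_der s)).2
        · rw [(f3 (e k) (fun h' => hl ⟨k, h'⟩) (h.ne' hk)).1]
      rw [this, h.D_a]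
      simp [Pi.single_apply]
    · show h.D s ((ψ * τ * ψ⁻¹) (gb (e k))) = _
      by_cases hk : k = o
      · subst hk
        rw [(key _ (h.D_der s)).1, h.D_a, h.D_b]
        simp [Pi.single_apply]
        ring
      · rw [(f3 (e k) (fun h' => hl ⟨k, h'⟩) (h.ne' hk)).2, h.D_b]
        simp [Pi.single_apply, Ne.symm hk]
  · apply Triv.conj
    have : (1 : SS g →* ℤˣ).comp ψ.toMonoidHom = 1 := rfl
    rw [this]
    exact hτ1

end Ad

end Pool.Agent.H364.PR
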