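import Pool.Agent.H364.PR.Tw
import Pool.Graph.R_pool_sql_team_seeded_ab47071d.TH933.SPC.Main

/-!
# The image of the stabiliser of a character contains the elementary symplectic group
-/

set_option autoImplicit false

namespace Pool.Agent.H364.PR

open Pool.Agent.TH933.SPC
open Matrix

variable {g r : ℕ}

theorem fix_of_gn {χ : SS g →* ℤˣ} {ψ : MulAut (SS g)} (h : ∀ j, χ (ψ (gn j)) = χ (gn j)) :
    Fix χ ψ := by
  have h1 : χ.comp ψ.toMonoidHom = χ := chi_ext h
  exact fun x => DFunLike.congr_fun h1 x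

/-- only two handles change -/
theorem fix_of_two {χ : SS g →* ℤˣ} {ψ : MulAut (SS g)} {i j : Fin g}
    (h1 : χ (ψ (ga i)) = χ (ga i)) (h2 : χ (ψ (gb i)) = χ (gb i))
    (h3 : χ (ψ (ga j)) = χ (ga j)) (h4 : χ (ψ (gb j)) = χ (gb j))
    (h : ∀ k, k ≠ i → k ≠ j → ψ (ga k) = ga k ∧ ψ (gb k) = gb k) : Fix χ ψ := by
  apply fix_of_gn
  rintro (k | k)
  · by_cases hi : k = i
    · rw [hi]; exact h1
    · by_cases hj : k = j
      · rw [hj]; exact h3
      · show χ (ψ (ga k)) = _
        rw [(h k hi hj).1]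
  · by_cases hi : k = i
    · rw [hi]; exact h2
    · by_cases hj : k = j
      · rw [hj]; exact h4
      · show χ (ψ (gb k)) = _
        rw [(h k hi hj).2]

namespace Ad

variable {χ : SS g →* ℤˣ} {e : Fin r → Fin g}

theorem D_a (h : Ad χ e) (s : Fin r ⊕ Fin r) (k : Fin r) :
    h.D s (ga (e k)) = if s = Sum.inl k then 1 else 0 := h.D_em s (Sum.inl k)

theorem D_b (h : Ad χ e) (s : Fin r ⊕ Fin r) (k : Fin r) :
    h.D s (gb (e k)) = if s = Sum.inr k then 1 else 0 := h.D_em s (Sum.inr k)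

theorem ne' (h : Ad χ e) {i j : Fin r} (hij : i ≠ j) : e i ≠ e j := fun e' => hij (h.inj e')

theorem rU (h : Ad χ e) (i : Fin r) : ∃ ψ : St χ, IsU (Matrix.single i i 1) (h.rho ψ) := by
  obtain ⟨ψ, h1, h2⟩ := aU (e i)
  have hf : Fix χ ψ := by
    apply fix_of_gn
    intro j
    by_cases hj : j = Sum.inr (e i)
    · subst hj
      show χ (ψ (gb (e i))) = _
      rw [h1, map_mul, h.oneL, mul_one]
    · rw [h2 j hj]
  refine ⟨⟨ψ, hf⟩, ?_⟩
  unfold IsU
  rw [rho_val]
  ext s t
  show h.D s (ψ (em e t)) = _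
  rcases t with k | k
  · show h.D s (ψ (ga (e k))) = _
    rw [h2 _ (by simp), h.D_a]
    rcases s with l | l <;> simp [Matrix.one_apply]
  · show h.D s (ψ (gb (e k))) = _
    by_cases hk : k = i
    · subst hk
      rw [h1, h.D_der s, h.oneR, h.D_a, h.D_b]
      rcases s with l | l <;> simp [Matrix.one_apply, Matrix.single_apply, eq_comm]
    · rw [h2 _ (by simpa using h.ne' hk), h.D_b]
      rcases s with l | l
      · simp [Matrix.single_apply, Ne.symm hk]
      · simp [Matrix.one_apply]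

theorem rL (h : Ad χ e) (i : Fin r) : ∃ ψ : St χ, IsL (Matrix.single i i 1) (h.rho ψ) := by
  obtain ⟨ψ, h1, h2⟩ := aL (e i)
  have hf : Fix χ ψ := by
    apply fix_of_gn
    intro j
    by_cases hj : j = Sum.inl (e i)
    · subst hj
      show χ (ψ (ga (e i))) = _
      rw [h1, map_mul, h.oneR, mul_one]
    · rw [h2 j hj]
  refine ⟨⟨ψ, hf⟩, ?_⟩
  unfold IsL
  rw [rho_val]
  ext s t
  show h.D s (ψ (em e t)) = _
  rcases t with k | k
  · show h.D s (ψ (ga (e k))) = _
    by_cases hk : k = i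
    · subst hk
      rw [h1, h.D_der s, h.oneL, h.D_a, h.D_b]
      rcases s with l | l <;> simp [Matrix.one_apply, Matrix.single_apply, eq_comm]
    · rw [h2 _ (by simpa using h.ne' hk), h.D_a]
      rcases s with l | l
      · simp [Matrix.one_apply]
      · simp [Matrix.single_apply, Ne.symm hk]
  · show h.D s (ψ (gb (e k))) = _
    rw [h2 _ (by simp), h.D_b]
    rcases s with l | l <;> simp [Matrix.one_apply]

theorem chi_cT (h : Ad χ e) (i j : Fin r) : χ (cT (e i) (e j)) = 1 := by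
  rw [cT, map_mul, map_mul, map_mul, map_inv, map_inv, h.oneL, h.oneR, h.oneR]
  simp

theorem chi_cK (χ : SS g →* ℤˣ) (i : Fin g) : χ (cK i) = 1 := mem_Gam.1 (comm_mem_Gam _ _) χ

theorem D_cT (h : Ad χ e) (s : Fin r ⊕ Fin r) (i j : Fin r) : h.D s (cT (e i) (e j)) =
    (if s = Sum.inr j then 1 else 0) - (if s = Sum.inr i then 1 else 0) := by
  rw [cT, h.D_der s, h.D_der s, h.D_der s, (h.D_der s).inv, (h.D_der s).inv, h.D_a, h.D_b, h.D_b]
  simp only [map_mul, map_inv, h.oneL, h.oneR]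
  simp
  ring

theorem rT (h : Ad χ e) (i j : Fin r) (hij : (i : ℕ) + 1 = j) : ∃ ψ : St χ,
    IsL (Matrix.single i j 1 + Matrix.single j i 1 - Matrix.single i i 1 - Matrix.single j j 1)
      (h.rho ψ) := by
  have hne : i ≠ j := by
    rintro rfl; omega
  obtain ⟨ψ, h1, h2, h3, h4, h5⟩ := aT (e i) (e j) (h.adj i j hij)
  have hc := h.chi_cT i j
  have hf : Fix χ ψ := by
    refine fix_of_two ?_ ?_ ?_ ?_ h5
    · rw [h1, map_mul, hc, mul_one]
    · rw [h2, map_mul, map_mul, map_inv, hc]; simp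
    · rw [h3, map_mul, map_inv, hc]; simp
    · rw [h4]
  refine ⟨⟨ψ, hf⟩, ?_⟩
  unfold IsL
  rw [rho_val]
  ext s t
  show h.D s (ψ (em e t)) = _
  rcases t with k | k
  · show h.D s (ψ (ga (e k))) = _
    by_cases hk : k = i
    · subst hk
      rw [h1, h.D_der s, h.oneL, h.D_a, h.D_cT]
      rcases s with l | l
      · simp [Matrix.one_apply]
      · simp [Matrix.single_apply, hne, hne.symm, eq_comm]
    · by_cases hk' : k = j
      · subst hk'
        rw [h3, h.D_der s, (h.D_der s).inv, map_inv, hc, h.D_a, h.D_cT]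
        rcases s with l | l
        · simp [Matrix.one_apply]
        · simp [Matrix.single_apply, hne, hne.symm, eq_comm]
      · rw [(h5 _ (h.ne' hk) (h.ne' hk')).1, h.D_a]
        rcases s with l | l
        · simp [Matrix.one_apply]
        · simp [Matrix.single_apply, Ne.symm hk, Ne.symm hk']
  · show h.D s (ψ (gb (e k))) = _
    by_cases hk : k = i
    · subst hk
      rw [h2, h.D_der s, h.D_der s, (h.D_der s).inv, map_mul, map_inv, hc, h.oneR, h.D_b]
      rcases s with l | l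
      · simp
      · simp [Matrix.one_apply]
    · by_cases hk' : k = j
      · subst hk'
        rw [h4, h.D_b]
        rcases s with l | l
        · simp
        · simp [Matrix.one_apply]
      · rw [(h5 _ (h.ne' hk) (h.ne' hk')).2, h.D_b]
        rcases s with l | l
        · simp
        · simp [Matrix.one_apply]

theorem D_conj (h : Ad χ e) (s : Fin r ⊕ Fin r) {x y : SS g} (hx : χ x = 1) (hy : χ y = 1) :
    h.D s (x * y * x⁻¹) = h.D s y := by
  rw [(h.D_der s).conj hy, hx]; simp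

theorem rS (h : Ad χ e) (i j : Fin r) (hij : (i : ℕ) + 1 = j) : ∃ ψ : St χ,
    (h.rho ψ : MG r) =
    fromBlocks ((Equiv.swap i j).permMatrix ℤ) 0 0 ((Equiv.swap i j).permMatrix ℤ) := by
  have hne : i ≠ j := by
    rintro rfl; omega
  obtain ⟨ψ, h1, h2, h3, h4, h5⟩ := aS (e i) (e j) (h.adj i j hij)
  have hc := chi_cK χ (e i)
  have hf : Fix χ ψ := by
    refine fix_of_two ?_ ?_ ?_ ?_ h5
    · rw [h1, map_mul, map_mul, map_inv, hc, h.oneL, h.oneL]; simp
    · rw [h2, map_mul, map_mul, map_inv, hc, h.oneR, h.oneR]; simp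
    · rw [h3, h.oneL, h.oneL]
    · rw [h4, h.oneR, h.oneR]
  refine ⟨⟨ψ, hf⟩, ?_⟩
  have hpm : ∀ a b : Fin r, (Equiv.swap i j).permMatrix ℤ a b =
      if Equiv.swap i j b = a then 1 else 0 := by
    intro a b
    rw [Equiv.Perm.permMatrix, PEquiv.toMatrix_apply, Equiv.toPEquiv_apply]
    have : (b ∈ some (Equiv.swap i j a)) ↔ Equiv.swap i j b = a := by
      rw [Option.mem_some_iff]
      constructor
      · rintro rfl; simp
      · rintro rfl; simp
    simp only [this]
  rw [rho_val]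
  ext s t
  show h.D s (ψ (em e t)) = _
  have key : ∀ t : Fin r ⊕ Fin r, h.D s (ψ (em e t)) =
      if s = (Sum.map (Equiv.swap i j) (Equiv.swap i j) t) then 1 else 0 := by
    rintro (k | k)
    · show h.D s (ψ (ga (e k))) = _
      by_cases hk : k = i
      · subst hk
        rw [h1, h.D_conj s hc (h.oneL j), h.D_a]
        simp
      · by_cases hk' : k = j
        · subst hk'
          rw [h3, h.D_a]
          simp
        · rw [(h5 _ (h.ne' hk) (h.ne' hk')).1, h.D_a]
          simp [Equiv.swap_apply_of_ne_of_ne hk hk']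
    · show h.D s (ψ (gb (e k))) = _
      by_cases hk : k = i
      · subst hk
        rw [h2, h.D_conj s hc (h.oneR j), h.D_b]
        simp
      · by_cases hk' : k = j
        · subst hk'
          rw [h4, h.D_b]
          simp
        · rw [(h5 _ (h.ne' hk) (h.ne' hk')).2, h.D_b]
          simp [Equiv.swap_apply_of_ne_of_ne hk hk']
  rw [key]
  rcases t with k | k <;> rcases s with l | l
  · rw [fromBlocks_apply₁₁, hpm]; simp [eq_comm]
  · simp
  · simp
  · rw [fromBlocks_apply₂₂, hpm]; simp [eq_comm]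

theorem range_ge (h : Ad χ e) (hr : 3 ≤ r) : EL r ≤ h.rho.range := by
  refine Pool.Agent.TH933.SPC.genm r hr _ ?_ ?_ ?_ ?_
  · intro i A hA
    obtain ⟨ψ, hψ⟩ := h.rU i
    exact ⟨ψ, Units.ext (hψ.trans hA.symm)⟩
  · intro i A hA
    obtain ⟨ψ, hψ⟩ := h.rL i
    exact ⟨ψ, Units.ext (hψ.trans hA.symm)⟩
  · intro i j A hij hA
    obtain ⟨ψ, hψ⟩ := h.rT i j hij
    exact ⟨ψ, Units.ext (hψ.trans hA.symm)⟩
  · intro i j A hij hA
    obtain ⟨ψ, hψ⟩ := h.rS i j hij
    exact ⟨ψ, Units.ext (hψ.trans hA.symm)⟩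

end Ad

end Pool.Agent.H364.PR
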