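import Pool.Agent.H364.PR.Tr
import Pool.Graph.R_pool_sql_team_seeded_ab47071d.TH933.SPC.TW

/-!
# Derivations of surface groups and the matrices of the automorphisms
-/

set_option autoImplicit false

namespace Pool.Agent.H364.PR

open Pool.Agent.TH933.SPC
open Matrix

variable {g r : ℕ}

/-- the generators of the surface group -/
abbrev gn (j : Fin g ⊕ Fin g) : SS g := PresentedGroup.of j

theorem gn_closure : Subgroup.closure (Set.range (gn : Fin g ⊕ Fin g → SS g)) = ⊤ :=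
  PresentedGroup.closure_range_of _

theorem chi_ext {χ χ' : SS g →* ℤˣ} (h : ∀ j, χ (gn j) = χ' (gn j)) : χ = χ' :=
  PresentedGroup.ext h

theorem der_ext {χ : SS g →* ℤˣ} {d d' : SS g → ℤ} (h : IsDer χ d) (h' : IsDer χ d')
    (e : ∀ j, d (gn j) = d' (gn j)) (x : SS g) : d x = d' x := by
  refine h.ext_closure h' gn_closure ?_ x
  rintro _ ⟨j, rfl⟩
  exact e j

theorem aff_mul {R : Type} [Ring R] (u u' : ℤˣ) (v v' : R) :
    aff u v * aff u' v' = aff (u * u') (((u : ℤ) : R) * v' + v) := by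
  ext t
  rw [Equiv.Perm.mul_apply, aff_apply, aff_apply, aff_apply]
  push_cast
  noncomm_ring

theorem aff_comm_one (v v' : ℤ) : aff 1 v * aff 1 v' = aff 1 v' * aff 1 v := by
  rw [aff_mul, aff_mul]
  simp only [mul_one, Units.val_one, Int.cast_one, one_mul]
  rw [add_comm]

theorem aff_comm_zero (u u' : ℤˣ) : aff u (0 : ℤ) * aff u' 0 = aff u' 0 * aff u 0 := by
  rw [aff_mul, aff_mul, mul_comm u u']
  simp

theorem mul_inv_of_comm {M : Type*} [Group M] {x y : M} (h : x * y = y * x) :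
    x * y * x⁻¹ * y⁻¹ = 1 := by
  rw [h]
  group

theorem exists_der (χ : SS g →* ℤˣ) (v : Fin g ⊕ Fin g → ℤ)
    (h : ∀ i, (χ (gn (Sum.inl i)) = 1 ∧ χ (gn (Sum.inr i)) = 1) ∨
      (v (Sum.inl i) = 0 ∧ v (Sum.inr i) = 0)) :
    ∃ d, IsDer χ d ∧ ∀ j, d (gn j) = v j := by
  let f : Fin g ⊕ Fin g → Equiv.Perm ℤ := fun j => aff (χ (gn j)) (v j)
  have hr : FreeGroup.lift f (rel g) = 1 := by
    unfold rel
    rw [map_list_prod]
    apply List.prod_eq_one
    intro x hx
    rw [List.mem_map] at hx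
    obtain ⟨y, hy, rfl⟩ := hx
    rw [List.mem_ofFn] at hy
    obtain ⟨i, rfl⟩ := hy
    simp only [map_mul, map_inv, FreeGroup.lift_apply_of]
    apply mul_inv_of_comm
    show aff _ _ * aff _ _ = aff _ _ * aff _ _
    rcases h i with h | h
    · rw [h.1, h.2]
      exact aff_comm_one _ _
    · rw [h.1, h.2]
      exact aff_comm_zero _ _
  let θ : SS g →* Equiv.Perm ℤ := PresentedGroup.toGroup (f := f) (by
    intro r hr'
    rw [Set.mem_singleton_iff] at hr'
    rw [hr']
    exact hr)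
  have hθ : ∀ j, θ (gn j) = aff (χ (gn j)) (v j) := fun j => PresentedGroup.toGroup.of _
  refine ⟨fun x => θ x 0, der_of_hom χ θ gn_closure ?_, fun j => ?_⟩
  · rintro _ ⟨j, rfl⟩
    exact ⟨v j, hθ j⟩
  · show θ (gn j) 0 = v j
    rw [hθ, aff_apply]
    simp

/-- the relation between the values of a derivation -/
theorem der_rel {χ : SS g →* ℤˣ} {d : SS g → ℤ} (hd : IsDer χ d) :
    ∑ i : Fin g, ((1 - (χ (gn (Sum.inr i)) : ℤ)) * d (gn (Sum.inl i)) -
      (1 - (χ (gn (Sum.inl i)) : ℤ)) * d (gn (Sum.inr i))) = 0 := by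
  let c : Fin g → SS g := fun i => gn (Sum.inl i) * gn (Sum.inr i) * (gn (Sum.inl i))⁻¹ *
    (gn (Sum.inr i))⁻¹
  have h1 : (List.ofFn c).prod = 1 := by
    have h2 : PresentedGroup.mk ({rel g} : Set (FreeGroup (Fin g ⊕ Fin g))) (rel g) = 1 :=
      PresentedGroup.one_of_mem rfl
    have h3 : PresentedGroup.mk ({rel g} : Set (FreeGroup (Fin g ⊕ Fin g))) (rel g) =
        (List.ofFn c).prod := by
      show PresentedGroup.mk ({rel g} : Set (FreeGroup (Fin g ⊕ Fin g)))
        ((List.ofFn (TWaux.km FreeGroup.of)).prod) = _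
      rw [map_list_prod, List.map_ofFn]
      rfl
    rw [← h3, h2]
  have h4 : ∀ L : List (SS g), (∀ x ∈ L, χ x = 1) → d L.prod = (L.map d).sum := by
    intro L
    induction L with
    | nil => intro _; simp [hd.one]
    | cons x L ih =>
      intro hx
      rw [List.prod_cons, hd.mul_of_one (hx x List.mem_cons_self), List.map_cons, List.sum_cons,
        ih fun y hy => hx y (List.mem_cons_of_mem _ hy)]
  have h5 : ∀ x ∈ List.ofFn c, χ x = 1 := by
    intro x hx
    rw [List.mem_ofFn] at hx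
    obtain ⟨i, rfl⟩ := hx
    exact mem_Gam.1 (comm_mem_Gam _ _) χ
  have h6 := h4 _ h5
  rw [h1, hd.one, List.map_ofFn, List.sum_ofFn] at h6
  rw [h6]
  refine Finset.sum_congr rfl fun i _ => ?_
  exact (hd.comm _ _).symm

/-- The handles `e i` are in the kernel of `χ`, and there is at most one other handle, the one
before them, with `χ (a) = -1` and `χ (b) = 1`. -/
structure Ad (χ : SS g →* ℤˣ) (e : Fin r → Fin g) : Prop where
  inj : Function.Injective e
  adj : ∀ i j : Fin r, (i : ℕ) + 1 = j → (e i : ℕ) + 1 = e j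
  oneL : ∀ i, χ (gn (Sum.inl (e i))) = 1
  oneR : ∀ i, χ (gn (Sum.inr (e i))) = 1
  outL : ∀ l, l ∉ Set.range e → χ (gn (Sum.inl l)) = -1
  outR : ∀ l, l ∉ Set.range e → χ (gn (Sum.inr l)) = 1
  uniq : ∀ l l', l ∉ Set.range e → l' ∉ Set.range e → l = l'
  nxt : ∀ l, l ∉ Set.range e → ∀ i : Fin r, (i : ℕ) = 0 → (l : ℕ) + 1 = e i

/-- the generators of the handles `e i` -/
abbrev em (e : Fin r → Fin g) (s : Fin r ⊕ Fin r) : SS g := gn (Sum.map e e s)

namespace Ad

variable {χ : SS g →* ℤˣ} {e : Fin r → Fin g}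

theorem one (h : Ad χ e) (s : Fin r ⊕ Fin r) : χ (em e s) = 1 := by
  rcases s with i | i
  · exact h.oneL i
  · exact h.oneR i

theorem der_out (h : Ad χ e) {d : SS g → ℤ} (hd : IsDer χ d) {l : Fin g}
    (hl : l ∉ Set.range e) : d (gn (Sum.inr l)) = 0 := by
  have h1 := der_rel hd
  rw [Finset.sum_eq_single l] at h1
  · rw [h.outL l hl, h.outR l hl] at h1
    simp at h1
    exact h1
  · intro i _ hi
    have : i ∈ Set.range e := by
      by_contra hcon
      exact hi (h.uniq _ _ hcon hl)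
    obtain ⟨k, rfl⟩ := this
    rw [h.oneL, h.oneR]
    simp
  · intro h2
    exact absurd (Finset.mem_univ _) h2

theorem exists_D (h : Ad χ e) (s : Fin r ⊕ Fin r) : ∃ d, IsDer χ d ∧
    ∀ j, d (gn j) = if j = Sum.map e e s then 1 else 0 := by
  apply exists_der
  intro i
  by_cases hi : i ∈ Set.range e
  · obtain ⟨k, rfl⟩ := hi
    exact Or.inl ⟨h.oneL k, h.oneR k⟩
  · refine Or.inr ⟨if_neg ?_, if_neg ?_⟩
    · rintro h2
      rcases s with s | s
      · exact hi ⟨s, (Sum.inl_injective h2).symm⟩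
      · simp at h2
    · rintro h2
      rcases s with s | s
      · simp at h2
      · exact hi ⟨s, (Sum.inr_injective h2).symm⟩

/-- the derivation with value `1` at the generator `em e s` and `0` at the others -/
noncomputable def D (h : Ad χ e) (s : Fin r ⊕ Fin r) : SS g → ℤ := (h.exists_D s).choose

theorem D_der (h : Ad χ e) (s : Fin r ⊕ Fin r) : IsDer χ (h.D s) := (h.exists_D s).choose_spec.1

theorem D_gn (h : Ad χ e) (s : Fin r ⊕ Fin r) (j : Fin g ⊕ Fin g) :
    h.D s (gn j) = if j = Sum.map e e s then 1 else 0 := (h.exists_D s).choose_spec.2 j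

theorem inj' (h : Ad χ e) : Function.Injective (Sum.map e e) := h.inj.sumMap h.inj

theorem D_em (h : Ad χ e) (s t : Fin r ⊕ Fin r) : h.D s (em e t) = if s = t then 1 else 0 := by
  rw [D_gn]
  by_cases hst : s = t
  · rw [if_pos hst, if_pos (by rw [hst])]
  · rw [if_neg hst, if_neg (fun h1 => hst (h.inj' h1).symm)]

theorem D_out (h : Ad χ e) (s : Fin r ⊕ Fin r) {l : Fin g} (hl : l ∉ Set.range e) :
    h.D s (gn (Sum.inl l)) = 0 ∧ h.D s (gn (Sum.inr l)) = 0 := by
  refine ⟨?_, h.der_out (h.D_der s) hl⟩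
  rw [D_gn, if_neg]
  intro h2
  rcases s with s | s
  · exact hl ⟨s, (Sum.inl_injective h2).symm⟩
  · simp at h2

/-- the expansion of a derivation -/
theorem sum_eq (h : Ad χ e) {d : SS g → ℤ} (hd : IsDer χ d) {x : SS g} (hx : χ x = 1) :
    d x = ∑ s : Fin r ⊕ Fin r, d (em e s) * h.D s x := by
  have key : ∀ c : ℤ, (∀ l, l ∉ Set.range e → d (gn (Sum.inl l)) = c) →
      ∀ x, 2 * d x = ∑ s : Fin r ⊕ Fin r, (2 * d (em e s)) * h.D s x + c * (1 - (χ x : ℤ)) := by
    intro c hc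
    have h2 : IsDer χ (fun x => 2 * d x - c * (1 - (χ x : ℤ))) :=
      (hd.smul 2).sub ((IsDer.princ χ).smul c)
    have h3 : IsDer χ (fun x => ∑ s : Fin r ⊕ Fin r, (2 * d (em e s)) * h.D s x) :=
      IsDer.sum _ _ fun s _ => (h.D_der s).smul _
    have h4 := der_ext h2 h3 (by
      intro j
      have hout : ∀ l, l ∉ Set.range e → ∀ ε : SS g, (ε = gn (Sum.inl l) ∨ ε = gn (Sum.inr l)) →
          ∑ s : Fin r ⊕ Fin r, (2 * d (em e s)) * h.D s ε = 0 := by
        intro l hl ε hε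
        refine Finset.sum_eq_zero fun s _ => ?_
        rcases hε with rfl | rfl
        · rw [(h.D_out s hl).1, mul_zero]
        · rw [(h.D_out s hl).2, mul_zero]
      have hin : ∀ t : Fin r ⊕ Fin r, 2 * d (em e t) - c * (1 - (χ (em e t) : ℤ)) =
          ∑ s : Fin r ⊕ Fin r, (2 * d (em e s)) * h.D s (em e t) := by
        intro t
        simp only [h.D_em, h.one]
        simp
      rcases j with l | l
      · by_cases hl : l ∈ Set.range e
        · obtain ⟨k, rfl⟩ := hl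
          exact hin (Sum.inl k)
        · rw [hout l hl _ (Or.inl rfl), hc l hl, h.outL l hl]
          simp
          ring
      · by_cases hl : l ∈ Set.range e
        · obtain ⟨k, rfl⟩ := hl
          exact hin (Sum.inr k)
        · rw [hout l hl _ (Or.inr rfl), h.der_out hd hl, h.outR l hl]
          simp)
    intro x
    have h5 : 2 * d x - c * (1 - (χ x : ℤ)) =
      ∑ s : Fin r ⊕ Fin r, (2 * d (em e s)) * h.D s x := h4 x
    rw [← h5]
    ring
  obtain ⟨c, hc⟩ : ∃ c, ∀ l, l ∉ Set.range e → d (gn (Sum.inl l)) = c := by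
    by_cases hl : ∃ l, l ∉ Set.range e
    · obtain ⟨l, hl⟩ := hl
      exact ⟨d (gn (Sum.inl l)), fun l' hl' => by rw [h.uniq _ _ hl' hl]⟩
    · exact ⟨0, fun l hl' => absurd ⟨l, hl'⟩ hl⟩
  have h1 := key c hc x
  rw [hx] at h1
  have h2 : ∑ s : Fin r ⊕ Fin r, (2 * d (em e s)) * h.D s x =
      2 * ∑ s : Fin r ⊕ Fin r, d (em e s) * h.D s x := by
    rw [Finset.mul_sum]
    refine Finset.sum_congr rfl fun s _ => ?_
    ring
  rw [h2, Units.val_one, sub_self, mul_zero, add_zero] at h1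
  exact mul_left_cancel₀ two_ne_zero h1

/-- the vector of an element -/
noncomputable def vec (h : Ad χ e) (x : SS g) : Fin r ⊕ Fin r → ℤ := fun s => h.D s x

/-- the matrix of an automorphism -/
noncomputable def Bm (h : Ad χ e) (φ : MulAut (SS g)) : MG r := fun s t => h.D s (φ (em e t))

theorem vec_ap (h : Ad χ e) {φ : MulAut (SS g)} (hφ : Fix χ φ) {x : SS g} (hx : χ x = 1) :
    h.vec (φ x) = h.Bm φ *ᵥ h.vec x := by
  funext s
  show h.D s (φ x) = ∑ t, h.Bm φ s t * h.vec x t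
  exact h.sum_eq ((h.D_der s).comp' hφ) hx

theorem Bm_one (h : Ad χ e) : h.Bm 1 = 1 := by
  ext s t
  show h.D s (em e t) = _
  rw [h.D_em, Matrix.one_apply]

theorem Bm_mul (h : Ad χ e) {φ ψ : MulAut (SS g)} (hφ : Fix χ φ) (hψ : Fix χ ψ) :
    h.Bm (φ * ψ) = h.Bm φ * h.Bm ψ := by
  ext s t
  have h1 := congrFun (h.vec_ap hφ (x := ψ (em e t)) (by rw [hψ, h.one])) s
  exact h1

/-- the representation -/
noncomputable def rho (h : Ad χ e) : St χ →* GG r :=
  MonoidHom.toHomUnits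
    { toFun := fun φ => h.Bm φ.1
      map_one' := h.Bm_one
      map_mul' := fun φ ψ => h.Bm_mul φ.2 ψ.2 }

theorem rho_val (h : Ad χ e) (φ : St χ) : (h.rho φ : MG r) = h.Bm φ.1 := rfl

/-- automorphisms with the same matrix agree on the `χ`-part -/
theorem agree (h : Ad χ e) {φ ψ : MulAut (SS g)} (hφ : Fix χ φ) (hψ : Fix χ ψ)
    (hB : h.Bm φ = h.Bm ψ) {d : SS g → ℤ} (hd : IsDer χ d) {γ : SS g} (hγ : χ γ = 1) :
    d (φ γ) = d (ψ γ) := by
  have h1 : χ (φ γ) = 1 := by rw [hφ, hγ]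
  have h2 : χ (ψ γ) = 1 := by rw [hψ, hγ]
  rw [h.sum_eq hd h1, h.sum_eq hd h2]
  refine Finset.sum_congr rfl fun s _ => ?_
  have h3 := congrFun (h.vec_ap hφ hγ) s
  have h4 := congrFun (h.vec_ap hψ hγ) s
  change h.D s (φ γ) = _ at h3
  change h.D s (ψ γ) = _ at h4
  rw [h3, h4, hB]

end Ad

end Pool.Agent.H364.PR
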