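import Pool.Graph.R_pool_sql_team_seeded_ab47071d.TH933.SPC.GENM

/-!
# Symplectic transvections
-/

set_option autoImplicit false

namespace Pool.Agent.H364.PR.Sy

open Pool.Agent.TH933.SPC
open Pool.Agent.TH933.SPC.GENM (uU uL uD)
open Matrix

variable {r : ℕ}

/-- vectors -/
abbrev Vr (r : ℕ) : Type := Fin r ⊕ Fin r → ℤ

/-- the symplectic form -/
def om (x y : Vr r) : ℤ := x ⬝ᵥ (Matrix.J (Fin r) ℤ *ᵥ y)

theorem om_add_left (x x' y : Vr r) : om (x + x') y = om x y + om x' y := add_dotProduct _ _ _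

theorem om_add_right (x y y' : Vr r) : om x (y + y') = om x y + om x y' := by
  unfold om; rw [Matrix.mulVec_add, dotProduct_add]

theorem om_smul_left (c : ℤ) (x y : Vr r) : om (c • x) y = c * om x y := smul_dotProduct _ _ _

theorem om_smul_right (c : ℤ) (x y : Vr r) : om x (c • y) = c * om x y := by
  unfold om; rw [Matrix.mulVec_smul, dotProduct_smul, smul_eq_mul]

theorem om_eq (x y : Vr r) : om x y = ∑ i, (x (Sum.inr i) * y (Sum.inl i) -
    x (Sum.inl i) * y (Sum.inr i)) := by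
  unfold om
  simp only [Matrix.J, dotProduct, Fintype.sum_sum_type, Matrix.mulVec]
  simp [Matrix.one_apply, Finset.sum_sub_distrib]
  ring

theorem om_self (x : Vr r) : om x x = 0 := by
  rw [om_eq]
  apply Finset.sum_eq_zero
  intro i _
  ring

theorem om_swap (x y : Vr r) : om y x = -om x y := by
  rw [om_eq, om_eq, ← Finset.sum_neg_distrib]
  refine Finset.sum_congr rfl fun i _ => ?_
  ring

theorem GG_ext {A B : GG r} (h : ∀ x, (A : MG r) *ᵥ x = (B : MG r) *ᵥ x) : A = B := by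
  apply Units.ext
  ext i j
  have h1 := congrFun (h (Pi.single j 1)) i
  rwa [Matrix.mulVec_single_one, Matrix.mulVec_single_one] at h1

/-- the matrix of the transvection -/
def tvm (u : Vr r) (n : ℤ) : MG r := 1 + Matrix.vecMulVec (n • u) (Matrix.J (Fin r) ℤ *ᵥ u)

theorem tvm_ap (u : Vr r) (n : ℤ) (x : Vr r) : tvm u n *ᵥ x = x + (n * om x u) • u := by
  unfold tvm om
  rw [Matrix.add_mulVec, Matrix.one_mulVec, Matrix.vecMulVec_mulVec, dotProduct_comm]
  congr 1
  ext i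
  simp
  ring

theorem tvm_mul (u : Vr r) (n m : ℤ) : tvm u n * tvm u m = tvm u (n + m) := by
  ext i j
  have h1 : (tvm u n * tvm u m) *ᵥ (Pi.single j 1) = tvm u (n + m) *ᵥ (Pi.single j 1) := by
    rw [← Matrix.mulVec_mulVec, tvm_ap, tvm_ap, tvm_ap, om_add_left, om_smul_left, om_self]
    module
  have h2 := congrFun h1 i
  rwa [Matrix.mulVec_single_one, Matrix.mulVec_single_one] at h2

theorem tvm_zero (u : Vr r) : tvm u 0 = 1 := by
  unfold tvm
  rw [zero_smul, Matrix.zero_vecMulVec, add_zero]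

/-- the transvection -/
def tv (u : Vr r) (n : ℤ) : GG r where
  val := tvm u n
  inv := tvm u (-n)
  val_inv := by rw [tvm_mul, add_neg_cancel, tvm_zero]
  inv_val := by rw [tvm_mul, neg_add_cancel, tvm_zero]

theorem tv_ap (u : Vr r) (n : ℤ) (x : Vr r) : (tv u n : MG r) *ᵥ x = x + (n * om x u) • u :=
  tvm_ap u n x

theorem tv_add (u : Vr r) (n m : ℤ) : tv u n * tv u m = tv u (n + m) := Units.ext (tvm_mul u n m)

theorem tv_zero (u : Vr r) : tv u 0 = 1 := Units.ext (tvm_zero u)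

theorem tv_neg (u : Vr r) (n : ℤ) : tv u (-n) = (tv u n)⁻¹ := by
  rw [eq_comm, inv_eq_iff_mul_eq_one, tv_add, add_neg_cancel, tv_zero]

theorem tv_zpow (u : Vr r) (n k : ℤ) : tv u n ^ k = tv u (k * n) := by
  have hp : ∀ k : ℕ, tv u n ^ k = tv u (k * n) := by
    intro k
    induction k with
    | zero => rw [pow_zero, Nat.cast_zero, zero_mul, tv_zero]
    | succ k ih =>
      rw [pow_succ, ih, tv_add]
      congr 1
      push_cast
      ring
  obtain ⟨k, rfl | rfl⟩ := k.eq_nat_or_neg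
  · rw [zpow_natCast, hp]
  · rw [_root_.zpow_neg, zpow_natCast, hp, neg_mul, tv_neg]

/-! ### The elementary symplectic group -/

theorem EL_sy {A : GG r} (hA : A ∈ EL r) : (A : MG r)ᵀ * Matrix.J (Fin r) ℤ * A =
    Matrix.J (Fin r) ℤ := by
  unfold EL at hA
  induction hA using Subgroup.closure_induction with
  | mem A hA =>
    rcases hA with ⟨S, hS, hA⟩ | ⟨S, hS, hA⟩ | ⟨T, hA⟩
    · rw [hA, Matrix.J, fromBlocks_transpose, fromBlocks_multiply, fromBlocks_multiply]
      simp [hS]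
    · rw [hA, Matrix.J, fromBlocks_transpose, fromBlocks_multiply, fromBlocks_multiply]
      simp [hS]
    · rw [hA, Matrix.J, fromBlocks_transpose, fromBlocks_multiply, fromBlocks_multiply]
      have h1 : (T⁻¹).1 * T.1 = 1 := by
        have : (T⁻¹ * T).1 = 1 := by rw [inv_mul_cancel]; rfl
        exact this
      have h2 : (T.1)ᵀ * ((T⁻¹).1)ᵀ = 1 := by
        rw [← Matrix.transpose_mul, h1, Matrix.transpose_one]
      simp only [Matrix.transpose_zero, Matrix.transpose_transpose, Matrix.mul_zero,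
        Matrix.zero_mul, Matrix.mul_one, Matrix.mul_neg, Matrix.neg_mul, add_zero, zero_add, neg_zero]
      rw [h1, h2]
  | one => simp
  | mul A B _ _ hA hB =>
    rw [Units.val_mul, Matrix.transpose_mul]
    calc (B : MG r)ᵀ * (A : MG r)ᵀ * Matrix.J (Fin r) ℤ * ((A : MG r) * (B : MG r)) =
        (B : MG r)ᵀ * ((A : MG r)ᵀ * Matrix.J (Fin r) ℤ * (A : MG r)) * (B : MG r) := by
          simp only [Matrix.mul_assoc]
      _ = _ := by rw [hA, hB]
  | inv A _ hA =>
    have h1 : (A : MG r) * ((A⁻¹ : GG r) : MG r) = 1 := by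
      rw [← Units.val_mul, mul_inv_cancel]; rfl
    have h2 : ((A⁻¹ : GG r) : MG r)ᵀ * (A : MG r)ᵀ = 1 := by
      rw [← Matrix.transpose_mul, h1, Matrix.transpose_one]
    calc ((A⁻¹ : GG r) : MG r)ᵀ * Matrix.J (Fin r) ℤ * ((A⁻¹ : GG r) : MG r) =
        ((A⁻¹ : GG r) : MG r)ᵀ * ((A : MG r)ᵀ * Matrix.J (Fin r) ℤ * (A : MG r)) *
          ((A⁻¹ : GG r) : MG r) := by rw [hA]
      _ = (((A⁻¹ : GG r) : MG r)ᵀ * (A : MG r)ᵀ) * Matrix.J (Fin r) ℤ *
          ((A : MG r) * ((A⁻¹ : GG r) : MG r)) := by simp only [Matrix.mul_assoc]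
      _ = _ := by rw [h1, h2, Matrix.one_mul, Matrix.mul_one]

theorem EL_om {A : GG r} (hA : A ∈ EL r) (x y : Vr r) :
    om ((A : MG r) *ᵥ x) ((A : MG r) *ᵥ y) = om x y := by
  unfold om
  rw [Matrix.mulVec_mulVec, Matrix.dotProduct_mulVec, ← Matrix.vecMul_transpose,
    Matrix.vecMul_vecMul, ← Matrix.mul_assoc, EL_sy hA, ← Matrix.dotProduct_mulVec]

theorem tv_conj {A : GG r} (hA : A ∈ EL r) (u : Vr r) (n : ℤ) :
    A * tv u n * A⁻¹ = tv ((A : MG r) *ᵥ u) n := by
  rw [mul_inv_eq_iff_eq_mul]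
  apply GG_ext
  intro x
  rw [Units.val_mul, Units.val_mul, ← Matrix.mulVec_mulVec, ← Matrix.mulVec_mulVec, tv_ap, tv_ap,
    Matrix.mulVec_add, Matrix.mulVec_smul, EL_om hA]

/-- the basis vectors -/
abbrev bv (s : Fin r ⊕ Fin r) : Vr r := Pi.single s 1

theorem om_inl (x : Vr r) (i : Fin r) : om x (bv (Sum.inl i)) = x (Sum.inr i) := by
  rw [om_eq, Finset.sum_eq_single i]
  · simp
  · intro j _ hj
    simp [hj]
  · intro h
    exact absurd (Finset.mem_univ _) h

theorem om_inr (x : Vr r) (i : Fin r) : om x (bv (Sum.inr i)) = -x (Sum.inl i) := by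
  rw [om_eq, Finset.sum_eq_single i]
  · simp
  · intro j _ hj
    simp [hj]
  · intro h
    exact absurd (Finset.mem_univ _) h

theorem sg_ap (i j : Fin r) (c : ℤ) (v : Fin r → ℤ) (k : Fin r) :
    (Matrix.single i j c *ᵥ v) k = if k = i then c * v j else 0 := by
  rw [Matrix.single_mulVec, Function.update_apply]
  rfl

theorem uU_ap (S : Matrix (Fin r) (Fin r) ℤ) (x : Vr r) : ((uU S : GG r) : MG r) *ᵥ x =
    x + Sum.elim (S *ᵥ (x ∘ Sum.inr)) (0 : Fin r → ℤ) := by
  show fromBlocks 1 S 0 1 *ᵥ x = _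
  rw [Matrix.fromBlocks_mulVec]
  funext s
  rcases s with i | i <;> simp

theorem uL_ap (S : Matrix (Fin r) (Fin r) ℤ) (x : Vr r) : ((uL S : GG r) : MG r) *ᵥ x =
    x + Sum.elim (0 : Fin r → ℤ) (S *ᵥ (x ∘ Sum.inl)) := by
  show fromBlocks 1 0 S 1 *ᵥ x = _
  rw [Matrix.fromBlocks_mulVec]
  funext s
  rcases s with i | i <;> simp [add_comm]

theorem tv_inl (i : Fin r) (n : ℤ) : tv (bv (Sum.inl i)) n = uU (Matrix.single i i n) := by
  apply GG_ext
  intro x
  rw [tv_ap, uU_ap, om_inl]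
  congr 1
  funext s
  rcases s with k | k
  · simp [sg_ap, Pi.single_apply]
  · simp

theorem tv_inr (i : Fin r) (n : ℤ) : tv (bv (Sum.inr i)) n = uL (Matrix.single i i (-n)) := by
  apply GG_ext
  intro x
  rw [tv_ap, uL_ap, om_inr]
  congr 1
  funext s
  rcases s with k | k
  · simp
  · simp [sg_ap, Pi.single_apply]

/-- products of transvections -/
def Ev (v w : Vr r) (n : ℤ) : GG r := tv (v + w) n * tv v (-n) * tv w (-n)

theorem Ev_ap {v w : Vr r} (h : om v w = 0) (n : ℤ) (x : Vr r) :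
    (Ev v w n : MG r) *ᵥ x = x + (n * om x v) • w + (n * om x w) • v := by
  have h' : om w v = 0 := by rw [om_swap, h, neg_zero]
  unfold Ev
  rw [Units.val_mul, Units.val_mul, ← Matrix.mulVec_mulVec, ← Matrix.mulVec_mulVec, tv_ap, tv_ap,
    tv_ap]
  simp only [om_add_left, om_add_right, om_smul_left, om_self, h, h', mul_zero, add_zero]
  module

theorem uD_ap (T : Pool.Agent.TH610.CSP.SLn r) (x : Vr r) : ((uD T : GG r) : MG r) *ᵥ x =
    Sum.elim (T.1 *ᵥ (x ∘ Sum.inl)) (((T⁻¹).1)ᵀ *ᵥ (x ∘ Sum.inr)) := by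
  show fromBlocks T.1 0 0 ((T⁻¹).1)ᵀ *ᵥ x = _
  rw [Matrix.fromBlocks_mulVec]
  funext s
  rcases s with i | i <;> simp

theorem om_bv_ll (i j : Fin r) : om (bv (Sum.inl i)) (bv (Sum.inl j)) = 0 := by
  rw [om_inl]; simp

theorem om_bv_rr (i j : Fin r) : om (bv (Sum.inr i)) (bv (Sum.inr j)) = 0 := by
  rw [om_inr]; simp

theorem om_bv_lr {i j : Fin r} (h : i ≠ j) : om (bv (Sum.inl i)) (bv (Sum.inr j)) = 0 := by
  rw [om_inr]; simp [h.symm]

theorem om_bv_rl {i j : Fin r} (h : i ≠ j) : om (bv (Sum.inr i)) (bv (Sum.inl j)) = 0 := by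
  rw [om_inl]; simp [h.symm]

theorem Ev_ll {i j : Fin r} (_ : i ≠ j) (n : ℤ) : Ev (bv (Sum.inl i)) (bv (Sum.inl j)) n =
    uU (n • (Matrix.single i j 1 + Matrix.single j i 1)) := by
  apply GG_ext
  intro x
  rw [Ev_ap (om_bv_ll i j), uU_ap, om_inl, om_inl, add_assoc]
  congr 1
  funext s
  rcases s with k | k
  · show _ = ((n • (Matrix.single i j 1 + Matrix.single j i 1)) *ᵥ (x ∘ Sum.inr)) k
    rw [Matrix.smul_mulVec, Matrix.add_mulVec]
    simp only [Pi.smul_apply, Pi.add_apply, sg_ap]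
    simp [Pi.single_apply]
    split_ifs <;> ring
  · simp

theorem Ev_rr {i j : Fin r} (_ : i ≠ j) (n : ℤ) : Ev (bv (Sum.inr i)) (bv (Sum.inr j)) n =
    uL ((-n) • (Matrix.single i j 1 + Matrix.single j i 1)) := by
  apply GG_ext
  intro x
  rw [Ev_ap (om_bv_rr i j), uL_ap, om_inr, om_inr, add_assoc]
  congr 1
  funext s
  rcases s with k | k
  · simp
  · show _ = (((-n) • (Matrix.single i j 1 + Matrix.single j i 1)) *ᵥ (x ∘ Sum.inl)) k
    rw [Matrix.smul_mulVec, Matrix.add_mulVec]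
    simp only [Pi.smul_apply, Pi.add_apply, sg_ap]
    simp [Pi.single_apply]
    split_ifs <;> ring

theorem Ev_lr {i j : Fin r} (h : i ≠ j) (n : ℤ) : Ev (bv (Sum.inl i)) (bv (Sum.inr j)) n =
    uD (SpecialLinearGroup.transvection h (-n)) := by
  apply GG_ext
  intro x
  rw [Ev_ap (om_bv_lr h), uD_ap, om_inl, om_inr]
  have h1 : ((SpecialLinearGroup.transvection h (-n))⁻¹ : SpecialLinearGroup (Fin r) ℤ) =
      SpecialLinearGroup.transvection h n := by
    rw [inv_eq_iff_mul_eq_one]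
    apply Subtype.ext
    show Matrix.transvection i j (-n) * Matrix.transvection i j n = 1
    rw [Matrix.transvection_mul_transvection_same _ _ h, neg_add_cancel, Matrix.transvection_zero]
  rw [h1]
  funext s
  rcases s with k | k
  · show _ = ((1 + Matrix.single i j (-n)) *ᵥ (x ∘ Sum.inl)) k
    rw [Matrix.add_mulVec, Matrix.one_mulVec]
    simp only [Pi.smul_apply, Pi.add_apply, sg_ap]
    simp [Pi.single_apply]
  · show _ = ((1 + Matrix.single i j n)ᵀ *ᵥ (x ∘ Sum.inr)) k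
    rw [Matrix.transpose_add, Matrix.transpose_one, Matrix.transpose_single, Matrix.add_mulVec,
      Matrix.one_mulVec]
    simp only [Pi.smul_apply, Pi.add_apply, sg_ap]
    simp [Pi.single_apply]

end Pool.Agent.H364.PR.Sy
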