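import Pool.Agent.H364.PR.Csp

/-!
# Normal form of the characters, and the assembly
-/

set_option autoImplicit false

namespace Pool.Agent.H364.PR

open Pool.Agent.TH933.SPC
open Pool.Agent.TH933.JT (Tr TT mem_TT char_core inf_char)
open Pool.Agent.TH933.SPC.TopS (TT_normal TT_fin)

variable {g r : ℕ}

/-- the character is trivial on the handle `i` -/
def Tv (χ : SS g →* ℤˣ) (i : Fin g) : Prop := χ (ga i) = 1 ∧ χ (gb i) = 1

theorem norm1 (χ : SS g →* ℤˣ) (i : Fin g) : ∃ ψ : MulAut (SS g), χ (ψ (gb i)) = 1 ∧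
    ∀ k, k ≠ i → χ (ψ (ga k)) = χ (ga k) ∧ χ (ψ (gb k)) = χ (gb k) := by
  have key : ∀ χ : SS g →* ℤˣ, χ (ga i) = -1 → ∃ ψ : MulAut (SS g), χ (ψ (gb i)) = 1 ∧
      ∀ k, k ≠ i → χ (ψ (ga k)) = χ (ga k) ∧ χ (ψ (gb k)) = χ (gb k) := by
    intro χ h
    rcases Int.units_eq_one_or (χ (gb i)) with h1 | h1
    · exact ⟨1, h1, fun k _ => ⟨rfl, rfl⟩⟩
    · obtain ⟨ψ, p1, p2⟩ := aU i
      refine ⟨ψ, ?_, fun k hk => ⟨?_, ?_⟩⟩
      · rw [p1, map_mul, h, h1]; decide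
      · rw [p2 _ (by simp)]
      · rw [p2 _ (by simpa using hk)]
  rcases Int.units_eq_one_or (χ (gb i)) with h1 | h1
  · exact ⟨1, h1, fun k _ => ⟨rfl, rfl⟩⟩
  rcases Int.units_eq_one_or (χ (ga i)) with h2 | h2
  · obtain ⟨ψ, p1, p2⟩ := aL i
    obtain ⟨φ, q1, q2⟩ := key (χ.comp ψ.toMonoidHom) (by
      show χ (ψ (ga i)) = -1
      rw [p1, map_mul, h1, h2]; decide)
    refine ⟨ψ * φ, q1, fun k hk => ⟨?_, ?_⟩⟩
    · exact (q2 k hk).1.trans (by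
        show χ (ψ (ga k)) = _
        rw [p2 _ (by simpa using hk)])
    · exact (q2 k hk).2.trans (by
        show χ (ψ (gb k)) = _
        rw [p2 _ (by simp)])
  · exact key χ h2

theorem merge (χ : SS g →* ℤˣ) (i j : Fin g) (hij : (i : ℕ) + 1 = j) :
    ∃ ψ : MulAut (SS g), Tv (χ.comp ψ.toMonoidHom) j ∧
    ∀ k, k ≠ i → k ≠ j → χ (ψ (ga k)) = χ (ga k) ∧ χ (ψ (gb k)) = χ (gb k) := by
  have hne : i ≠ j := by
    rintro rfl; omega
  have key : ∀ χ : SS g →* ℤˣ, χ (gb i) = 1 → χ (gb j) = 1 →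
      ∃ ψ : MulAut (SS g), Tv (χ.comp ψ.toMonoidHom) j ∧
      ∀ k, k ≠ i → k ≠ j → χ (ψ (ga k)) = χ (ga k) ∧ χ (ψ (gb k)) = χ (gb k) := by
    intro χ h1 h2
    rcases Int.units_eq_one_or (χ (ga j)) with h3 | h3
    · exact ⟨1, ⟨h3, h2⟩, fun k _ _ => ⟨rfl, rfl⟩⟩
    rcases Int.units_eq_one_or (χ (ga i)) with h4 | h4
    · obtain ⟨ψ, -, -, p3, p4, p5⟩ := aS i j hij
      refine ⟨ψ, ⟨?_, ?_⟩, fun k hk hk' => ⟨?_, ?_⟩⟩
      · show χ (ψ (ga j)) = 1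
        rw [p3, h4]
      · show χ (ψ (gb j)) = 1
        rw [p4, h1]
      · rw [(p5 k hk hk').1]
      · rw [(p5 k hk hk').2]
    · obtain ⟨φ, q1, q2⟩ := aU i
      obtain ⟨ψ, -, -, p3, p4, p5⟩ := aT i j hij
      have e1 : χ (φ (gb i)) = -1 := by rw [q1, map_mul, h1, h4]; decide
      have e2 : χ (φ (ga j)) = -1 := by rw [q2 _ (by simp), h3]
      have e3 : χ (φ (gb j)) = 1 := by rw [q2 _ (by simpa using hne.symm), h2]
      have e4 : χ (φ (cT i j)) = -1 := by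
        rw [cT]
        simp only [map_mul, map_inv]
        rw [e1, e2, e3]
        decide
      refine ⟨φ * ψ, ⟨?_, ?_⟩, fun k hk hk' => ⟨?_, ?_⟩⟩
      · show χ (φ (ψ (ga j))) = 1
        rw [p3, map_mul, map_mul, map_inv, map_inv, e4, e2]
        decide
      · show χ (φ (ψ (gb j))) = 1
        rw [p4, e3]
      · show χ (φ (ψ (ga k))) = _
        rw [(p5 k hk hk').1, q2 _ (by simp)]
      · show χ (φ (ψ (gb k))) = _
        rw [(p5 k hk hk').2, q2 _ (by simpa using hk)]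
  obtain ⟨ψ₁, a1, a2⟩ := norm1 χ i
  obtain ⟨ψ₂, b1, b2⟩ := norm1 (χ.comp ψ₁.toMonoidHom) j
  have c1 : χ (ψ₁ (ψ₂ (gb i))) = 1 := (b2 i hne).2.trans a1
  obtain ⟨ψ₃, d1, d2⟩ := key ((χ.comp ψ₁.toMonoidHom).comp ψ₂.toMonoidHom) c1 b1
  refine ⟨ψ₁ * ψ₂ * ψ₃, d1, fun k hk hk' => ⟨?_, ?_⟩⟩
  · exact ((d2 k hk hk').1.trans (b2 k hk').1).trans (a2 k hk).1
  · exact ((d2 k hk hk').2.trans (b2 k hk').2).trans (a2 k hk).2

theorem collect {n : ℕ} : ∀ (m : ℕ) (χ : SS (n + 1) →* ℤˣ), (∀ i : Fin (n + 1), m < i → Tv χ i) →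
    ∃ ψ : MulAut (SS (n + 1)), ∀ i : Fin (n + 1), 0 < (i : ℕ) → Tv (χ.comp ψ.toMonoidHom) i := by
  intro m
  induction m with
  | zero => exact fun χ h => ⟨1, fun i hi => h i hi⟩
  | succ m ih =>
    intro χ h
    by_cases hm : m + 1 < n + 1
    · obtain ⟨ψ, h1, h2⟩ := merge χ ⟨m, by omega⟩ ⟨m + 1, hm⟩ rfl
      obtain ⟨φ, h3⟩ := ih (χ.comp ψ.toMonoidHom) (by
        intro i hi
        by_cases hi' : (i : ℕ) = m + 1
        · have : i = ⟨m + 1, hm⟩ := Fin.ext hi'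
          rw [this]
          exact h1
        · have h4 := h i (by omega)
          have h5 := h2 i (by intro h6; rw [h6] at hi; simp at hi)
            (by intro h6; rw [h6] at hi'; simp at hi')
          exact ⟨h5.1.trans h4.1, h5.2.trans h4.2⟩)
      exact ⟨ψ * φ, h3⟩
    · exact ih χ fun i hi => h i (by have := i.2; omega)

/-- the normal form of the characters -/
theorem normal_form {n : ℕ} (χ : SS (n + 1) →* ℤˣ) : ∃ ψ : MulAut (SS (n + 1)),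
    Ad (χ.comp ψ.toMonoidHom) (id : Fin (n + 1) → Fin (n + 1)) ∨
    Ad (χ.comp ψ.toMonoidHom) (Fin.succ : Fin n → Fin (n + 1)) := by
  obtain ⟨φ, h1⟩ := collect n χ (by intro i hi; have := i.2; omega)
  obtain ⟨ψ, h2, h3⟩ := norm1 (χ.comp φ.toMonoidHom) 0
  refine ⟨φ * ψ, ?_⟩
  have k1 : ∀ i : Fin (n + 1), 0 < (i : ℕ) → χ (φ (ψ (ga i))) = 1 ∧ χ (φ (ψ (gb i))) = 1 := by
    intro i hi
    have hne : i ≠ 0 := by
      rintro rfl; simp at hi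
    exact ⟨(h3 i hne).1.trans (h1 i hi).1, (h3 i hne).2.trans (h1 i hi).2⟩
  have k2 : χ (φ (ψ (gb 0))) = 1 := h2
  have hz : ∀ l : Fin (n + 1), l ∉ Set.range (Fin.succ : Fin n → Fin (n + 1)) → l = 0 := by
    intro l hl
    by_contra h0
    exact hl (Fin.exists_succ_eq.2 h0)
  rcases Int.units_eq_one_or (χ (φ (ψ (ga 0)))) with h4 | h4
  · left
    have hall : ∀ i : Fin (n + 1), χ (φ (ψ (ga i))) = 1 ∧ χ (φ (ψ (gb i))) = 1 := by
      intro i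
      by_cases hi : i = 0
      · rw [hi]; exact ⟨h4, k2⟩
      · exact k1 i (Nat.pos_of_ne_zero fun h => hi (Fin.ext h))
    exact
      { inj := Function.injective_id
        adj := fun i j h => h
        oneL := fun i => (hall i).1
        oneR := fun i => (hall i).2
        outL := fun l hl => (hl ⟨l, rfl⟩).elim
        outR := fun l hl => (hl ⟨l, rfl⟩).elim
        uniq := fun l _ hl => (hl ⟨l, rfl⟩).elim
        nxt := fun l hl => (hl ⟨l, rfl⟩).elim }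
  · right
    exact
      { inj := Fin.succ_injective n
        adj := fun i j h => by rw [Fin.val_succ, Fin.val_succ, h]
        oneL := fun i => (k1 i.succ (by simp)).1
        oneR := fun i => (k1 i.succ (by simp)).2
        outL := fun l hl => by rw [hz l hl]; exact h4
        outR := fun l hl => by rw [hz l hl]; exact k2
        uniq := fun l l' hl hl' => by rw [hz l hl, hz l' hl']
        nxt := fun l hl i hi => by
          rw [hz l hl, Fin.val_succ, hi]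
          rfl }

/-- the local approximation -/
theorem loc (hg : 4 ≤ g) (χ : SS g →* ℤˣ)
    (V : Subgroup (MulAut (SS g))) [hV : V.Normal] (M : ℕ) (hM0 : 0 < M)
    (hM : ∀ φ : MulAut (SS g), φ ^ M ∈ V) : ∃ m : ℕ, 0 < m ∧ ∀ φ : MulAut (SS g), Hyp m φ →
      ∃ v ∈ V, v ∈ NX {χ' | χ' ≠ χ} ∧ ∀ d, IsDer χ d → ∀ γ ∈ Gam (SS g), d (v γ) = d (φ γ) := by
  obtain ⟨n, rfl⟩ : ∃ n, g = n + 1 := ⟨g - 1, by omega⟩
  obtain ⟨τ, h | h⟩ := normal_form χ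
  · exact loc_conj τ h (by omega) V M hM0 hM
  · exact loc_conj τ h (by omega) V M hM0 hM

/-- one modulus for all characters -/
theorem loc_all (hg : 4 ≤ g)
    (V : Subgroup (MulAut (SS g))) [hV : V.Normal] (M : ℕ) (hM0 : 0 < M)
    (hM : ∀ φ : MulAut (SS g), φ ^ M ∈ V) : ∃ m : ℕ, 0 < m ∧ ∀ φ : MulAut (SS g), Hyp m φ →
      ∀ χ : SS g →* ℤˣ, ∃ v ∈ V, v ∈ NX {χ' | χ' ≠ χ} ∧
        ∀ d, IsDer χ d → ∀ γ ∈ Gam (SS g), d (v γ) = d (φ γ) := by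
  choose m hm h using fun χ => loc hg χ V M hM0 hM
  have hfin : (Set.univ : Set (SS g →* ℤˣ)).Finite := Set.toFinite _
  refine ⟨∏ χ ∈ hfin.toFinset, m χ, Finset.prod_pos fun χ _ => hm χ, fun φ hφ χ => ?_⟩
  exact h χ φ (hφ.mono (Finset.dvd_prod_of_mem m (by simp)))

theorem asm (V : Subgroup (MulAut (SS g))) {φ : MulAut (SS g)} (hφ : φ ∈ TA (SS g))
    (h : ∀ χ : SS g →* ℤˣ, ∃ v ∈ V, v ∈ NX {χ' | χ' ≠ χ} ∧
        ∀ d, IsDer χ d → ∀ γ ∈ Gam (SS g), d (v γ) = d (φ γ)) (S : Finset (SS g →* ℤˣ)) :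
    ∃ v ∈ V, v ∈ TA (SS g) ∧ (∀ χ, χ ∉ S → Triv χ v) ∧
      ∀ χ ∈ S, ∀ d, IsDer χ d → ∀ γ ∈ Gam (SS g), d (v γ) = d (φ γ) := by
  classical
  induction S using Finset.induction_on with
  | empty =>
    exact ⟨1, one_mem _, one_mem _, fun χ _ => Triv.one, fun χ hχ => absurd hχ (by simp)⟩
  | insert χ₀ S h0 ih =>
    obtain ⟨v, h1, h2, h3, h4⟩ := ih
    obtain ⟨w, g1, g2, g3⟩ := h χ₀
    refine ⟨v * w, mul_mem h1 g1, mul_mem h2 g2.1, fun χ hχ => ?_, fun χ hχ d hd γ hγ => ?_⟩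
    · rw [Finset.mem_insert, not_or] at hχ
      exact (h3 χ hχ.2).mul (g2.2 χ hχ.1)
    · rw [MulAut.mul_apply]
      rw [Finset.mem_insert] at hχ
      rcases hχ with rfl | hχ
      · rw [h3 χ h0 d hd _ (TA.gam hγ), g3 d hd γ hγ]
      · rw [h4 χ hχ d hd _ (TA.gam hγ)]
        have hne : χ ≠ χ₀ := fun e' => h0 (e' ▸ hχ)
        exact g2.2 χ hne _ (hd.comp' (hφ χ)) γ hγ

/-- the subgroup of finite index for `m` -/
def Kd (g m : ℕ) : Subgroup (SS g) :=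
  Gam (SS g) ⊓ ⨅ θ : SS g →* Equiv.Perm (ZMod m), θ.ker

theorem mem_Kd {m : ℕ} {x : SS g} : x ∈ Kd g m ↔ x ∈ Gam (SS g) ∧
    ∀ θ : SS g →* Equiv.Perm (ZMod m), θ x = 1 := by
  rw [Kd, Subgroup.mem_inf, Subgroup.mem_iInf]
  rfl

instance (m : ℕ) : (Kd g m).Characteristic := by
  rw [Subgroup.characteristic_iff_le_comap]
  intro φ x hx
  rw [mem_Kd] at hx
  show φ x ∈ Kd g m
  rw [mem_Kd]
  exact ⟨TA.gam hx.1, fun θ => hx.2 (θ.comp φ.toMonoidHom)⟩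

theorem Kd_fi (m : ℕ) (hm : m ≠ 0) : (Kd g m).FiniteIndex := by
  have : NeZero m := ⟨hm⟩
  have h0 : Finite (Equiv.Perm (ZMod m)) := inferInstance
  have h1 : (⨅ θ : SS g →* Equiv.Perm (ZMod m), θ.ker).FiniteIndex :=
    Subgroup.finiteIndex_iInf fun θ => Subgroup.finiteIndex_ker θ
  unfold Kd
  infer_instance

theorem hyp_of_act {m : ℕ} {φ : MulAut (SS g)} (h : ∀ x, φ x * x⁻¹ ∈ Kd g m) : Hyp m φ := by
  refine ⟨mem_TA'.2 fun x => (mem_Kd.1 (h x)).1, fun χ d hd x => ?_⟩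
  have h1 := (mem_Kd.1 (h x)).2 (permOf hd (ZMod m))
  have h2 := congrArg (fun p : Equiv.Perm (ZMod m) => p 0) h1
  change aff (χ (φ x * x⁻¹)) ((d (φ x * x⁻¹) : ℤ) : ZMod m) 0 = 0 at h2
  rw [aff_apply, mul_zero, zero_add] at h2
  exact (ZMod.intCast_zmod_eq_zero_iff_dvd _ _).1 h2

/-- **The congruence subgroup property for the parts of order two.** -/
theorem csp_base (hg : 4 ≤ g) (V : Subgroup (MulAut (SS g))) (hV : V.FiniteIndex)
    (hI : ∀ φ : MulAut (SS g), (∀ x, φ x * x⁻¹ ∈ Gam (SS g)) →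
      (∀ x ∈ Gam (SS g), φ x * x⁻¹ ∈ ⁅Gam (SS g), Gam (SS g)⁆) → φ ∈ V) :
    ∃ K : Subgroup (SS g), K.Characteristic ∧ K.FiniteIndex ∧
      ∀ φ : MulAut (SS g), (∀ x, φ x * x⁻¹ ∈ K) → φ ∈ V := by
  obtain ⟨K1, hK1c, hK1f, hK1⟩ := tors (SS g) (Gam (SS g))
  have hT1 := TT_fin K1 hK1c hK1f
  have hT2 := TT_normal K1 hK1c
  have hWf : (V.normalCore ⊓ TT K1).FiniteIndex := inferInstance
  have hWn : (V.normalCore ⊓ TT K1).Normal := inferInstance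
  obtain ⟨m, hm, hloc⟩ := loc_all hg (V.normalCore ⊓ TT K1) (V.normalCore ⊓ TT K1).index
    (Nat.pos_of_ne_zero hWf.index_ne_zero) (fun φ => Subgroup.pow_index_mem _ φ)
  have hKf := Kd_fi (g := g) m hm.ne'
  refine ⟨Kd g m ⊓ K1, inf_char inferInstance hK1c, inferInstance, fun φ hφ => ?_⟩
  have h1 : Hyp m φ := hyp_of_act fun x => (hφ x).1
  have h2 : φ ∈ TT K1 := fun x => (hφ x).2
  have hfin : (Set.univ : Set (SS g →* ℤˣ)).Finite := Set.toFinite _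
  obtain ⟨v, a1, a2, -, a4⟩ := asm _ h1.ta (hloc φ h1) hfin.toFinset
  have h5 : v⁻¹ * φ ∈ V := by
    have ht : v⁻¹ * φ ∈ TA (SS g) := mul_mem (inv_mem a2) h1.ta
    have htriv : ∀ χ, Triv χ (v⁻¹ * φ) := by
      intro χ d hd γ hγ
      rw [MulAut.mul_apply]
      have e1 := a4 χ (by simp) _ (hd.comp' ((inv_mem a2 : v⁻¹ ∈ TA (SS g)) χ)) γ hγ
      simp only [inv_ap] at e1
      exact e1.symm
    refine hI _ (mem_TA'.1 ht) fun x hx => ?_
    have hz : (v⁻¹ * φ) x * x⁻¹ ∈ Gam (SS g) := mem_TA'.1 ht x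
    refine hK1 _ hz ?_ fun f => triv_all htriv hx hz f
    exact (mul_mem (inv_mem a1.2) h2 : v⁻¹ * φ ∈ TT K1) x
  have h6 := mul_mem (V.normalCore_le a1.1) h5
  rwa [mul_inv_cancel_left] at h6

end Pool.Agent.H364.PR
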