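import Pool.Agent.H364.PR.Der
import Pool.Graph.R_pool_sql_team_seeded_ab47071d.TH933.SPC.TopS

/-!
# The decomposition of `Hom (Γ, ℤ)` by characters
-/

set_option autoImplicit false

namespace Pool.Agent.H364.PR

variable {G : Type} [Group G]

/-- `ψ` acts trivially on the `χ`-part of the homology of `Γ` -/
def Triv (χ : G →* ℤˣ) (ψ : MulAut G) : Prop :=
  ∀ d, IsDer χ d → ∀ γ ∈ Gam G, d (ψ γ) = d γ

section transfer

variable [Group.FG G]

noncomputable local instance : Fintype (G ⧸ Gam G) := Fintype.ofFinite _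
noncomputable local instance : Fintype (G →* ℤˣ) := Fintype.ofFinite _

/-- a section -/
noncomputable def sec (q : G ⧸ Gam G) : G := q.out

omit [Group.FG G] in
theorem mk_sec (q : G ⧸ Gam G) : (QuotientGroup.mk (sec q) : G ⧸ Gam G) = q :=
  QuotientGroup.out_eq' q

omit [Group.FG G] in
theorem sec_mem (q : G ⧸ Gam G) (x : G) :
    sec q * x * (sec (q * QuotientGroup.mk x))⁻¹ ∈ Gam G := by
  rw [← QuotientGroup.eq_one_iff, QuotientGroup.mk_mul, QuotientGroup.mk_mul,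
    QuotientGroup.mk_inv, mk_sec, mk_sec, mul_inv_cancel]

omit [Group.FG G] in
theorem chi_sec (χ : G →* ℤˣ) (q : G ⧸ Gam G) (x : G) :
    χ (sec (q * QuotientGroup.mk x)) = χ (sec q) * χ x := by
  have := mem_Gam.1 (sec_mem q x) χ
  rw [map_mul, map_mul, map_inv, mul_inv_eq_one] at this
  exact this.symm

/-- the cocycle of a homomorphism -/
noncomputable def coc (h : Gam G →* Multiplicative ℤ) (q : G ⧸ Gam G) (x : G) : ℤ :=
  Multiplicative.toAdd (h ⟨_, sec_mem q x⟩)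

omit [Group.FG G] in
theorem coc_mul (h : Gam G →* Multiplicative ℤ) (q : G ⧸ Gam G) (x y : G) :
    coc h q (x * y) = coc h q x + coc h (q * QuotientGroup.mk x) y := by
  rw [coc, coc, coc, ← toAdd_mul, ← map_mul]
  congr 2
  apply Subtype.ext
  show sec q * (x * y) * (sec (q * QuotientGroup.mk (x * y)))⁻¹ =
    sec q * x * (sec (q * QuotientGroup.mk x))⁻¹ *
      (sec (q * QuotientGroup.mk x) * y * (sec (q * QuotientGroup.mk x * QuotientGroup.mk y))⁻¹)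
  rw [QuotientGroup.mk_mul, ← mul_assoc q]
  group

/-- the transferred derivation -/
noncomputable def tr (χ : G →* ℤˣ) (h : Gam G →* Multiplicative ℤ) (x : G) : ℤ :=
  ∑ q : G ⧸ Gam G, (χ (sec q) : ℤ) * coc h q x

theorem tr_der (χ : G →* ℤˣ) (h : Gam G →* Multiplicative ℤ) : IsDer χ (tr χ h) := by
  intro x y
  rw [tr, tr, tr]
  have h1 : ∑ q : G ⧸ Gam G, (χ (sec q) : ℤ) * coc h q (x * y) =
      ∑ q : G ⧸ Gam G, (χ (sec q) : ℤ) * coc h q x +
      ∑ q : G ⧸ Gam G, (χ x : ℤ) *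
        ((χ (sec (q * QuotientGroup.mk x)) : ℤ) * coc h (q * QuotientGroup.mk x) y) := by
    rw [← Finset.sum_add_distrib]
    refine Finset.sum_congr rfl fun q _ => ?_
    rw [coc_mul, chi_sec]
    push_cast
    linear_combination (-((χ (sec q) : ℤ) * coc h (q * QuotientGroup.mk x) y)) * u_sq (χ x)
  rw [h1, ← Finset.mul_sum]
  congr 2
  exact Fintype.sum_equiv (Equiv.mulRight (QuotientGroup.mk x : G ⧸ Gam G)) _
    (fun q => (χ (sec q) : ℤ) * coc h q y) (fun q => rfl)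

theorem sum_chi {y : G} (hy : y ∉ Gam G) : ∑ χ : G →* ℤˣ, (χ y : ℤ) = 0 := by
  rw [mem_Gam] at hy
  push Not at hy
  obtain ⟨χ1, h1⟩ := hy
  have h2 : χ1 y = -1 := (Int.units_eq_one_or _).resolve_left h1
  have h3 : ∑ χ : G →* ℤˣ, (χ y : ℤ) = ∑ χ : G →* ℤˣ, -(χ y : ℤ) := by
    refine Fintype.sum_equiv (Equiv.mulRight χ1) _ _ fun χ => ?_
    show (χ y : ℤ) = -(((χ * χ1) y : ℤˣ) : ℤ)
    rw [MonoidHom.mul_apply, h2]
    simp
  rw [Finset.sum_neg_distrib] at h3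
  linarith

theorem sum_tr (h : Gam G →* Multiplicative ℤ) {γ : G} (hγ : γ ∈ Gam G) :
    ∑ χ : G →* ℤˣ, tr χ h γ =
      (Fintype.card (G →* ℤˣ) : ℤ) * Multiplicative.toAdd (h ⟨γ, hγ⟩) := by
  have hmk : (QuotientGroup.mk γ : G ⧸ Gam G) = 1 := (QuotientGroup.eq_one_iff γ).2 hγ
  simp only [tr]
  rw [Finset.sum_comm]
  rw [Finset.sum_eq_single (1 : G ⧸ Gam G)]
  · have hs : sec (1 : G ⧸ Gam G) ∈ Gam G := by
      rw [← QuotientGroup.eq_one_iff, mk_sec]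
    have h1 : ∀ χ : G →* ℤˣ, (χ (sec (1 : G ⧸ Gam G)) : ℤ) * coc h 1 γ = coc h 1 γ := by
      intro χ
      rw [mem_Gam.1 hs χ]
      simp
    rw [Finset.sum_congr rfl fun χ _ => h1 χ, Finset.sum_const, Finset.card_univ, nsmul_eq_mul]
    congr 1
    rw [coc]
    have h2 : (⟨_, sec_mem (1 : G ⧸ Gam G) γ⟩ : Gam G) =
        ⟨sec 1, hs⟩ * ⟨γ, hγ⟩ * ⟨sec 1, hs⟩⁻¹ := by
      apply Subtype.ext
      show sec 1 * γ * (sec (1 * QuotientGroup.mk γ))⁻¹ = sec 1 * γ * (sec 1)⁻¹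
      rw [hmk, mul_one]
    have h3 : h (⟨sec 1, hs⟩ * ⟨γ, hγ⟩ * ⟨sec 1, hs⟩⁻¹) = h ⟨γ, hγ⟩ := by
      rw [map_mul, map_mul, map_inv, mul_inv_cancel_comm]
    rw [h2, h3]
  · intro q _ hq
    rw [← Finset.sum_mul]
    have : sec q ∉ Gam G := by
      rw [← QuotientGroup.eq_one_iff, mk_sec]
      exact hq
    rw [sum_chi this, zero_mul]
  · intro h
    exact absurd (Finset.mem_univ _) h

/-- If `ψ` acts trivially on all parts, then the homomorphisms `Γ → ℤ` are invariant. -/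
theorem triv_all {ψ : MulAut G} (h : ∀ χ, Triv χ ψ) {γ : G} (hγ : γ ∈ Gam G)
    (hz : ψ γ * γ⁻¹ ∈ Gam G) (f : Gam G →* Multiplicative ℤ) : f ⟨ψ γ * γ⁻¹, hz⟩ = 1 := by
  have hψ : ψ γ ∈ Gam G := Subgroup.characteristic_iff_le_comap.1 inferInstance ψ hγ
  have h1 := sum_tr f hψ
  have h2 := sum_tr f hγ
  have h3 : ∑ χ : G →* ℤˣ, tr χ f (ψ γ) = ∑ χ : G →* ℤˣ, tr χ f γ :=
    Finset.sum_congr rfl fun χ _ => h χ _ (tr_der χ f) γ hγ
  rw [h1, h2] at h3
  have hc : (Fintype.card (G →* ℤˣ) : ℤ) ≠ 0 := by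
    exact_mod_cast Fintype.card_ne_zero
  have h4 := mul_left_cancel₀ hc h3
  have h5 : f ⟨ψ γ, hψ⟩ = f ⟨γ, hγ⟩ := Multiplicative.toAdd.injective h4
  have h6 : (⟨ψ γ * γ⁻¹, hz⟩ : Gam G) = ⟨ψ γ, hψ⟩ * ⟨γ, hγ⟩⁻¹ := rfl
  rw [h6, map_mul, map_inv, h5, mul_inv_cancel]

end transfer

/-! ### Torsion -/

theorem tors_ab (A : Type) [AddCommGroup A] [AddGroup.FG A] : ∃ t : ℕ, 0 < t ∧
    ∀ a : A, (∀ f : A →+ ℤ, f (t • a) = 0) → t • a = 0 := by
  obtain ⟨n, ι, _, p, hp, e, ⟨E⟩⟩ := AddCommGroup.equiv_free_prod_directSum_zmod A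
  refine ⟨∏ i, p i ^ e i, Finset.prod_pos fun i _ => pow_pos (hp i).pos _, fun a ha => ?_⟩
  set t := ∏ i, p i ^ e i with ht
  have ht0 : t ≠ 0 := (Finset.prod_pos fun i _ => pow_pos (hp i).pos _).ne'
  apply E.injective
  rw [map_nsmul, map_zero]
  apply Prod.ext
  · rw [Prod.fst_zero]
    refine Finsupp.ext fun k => ?_
    have h1 := ha (((Finsupp.applyAddHom k).comp (AddMonoidHom.fst _ _)).comp E.toAddMonoidHom)
    rw [map_nsmul] at h1
    exact h1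
  · rw [Prod.snd_zero]
    refine DFinsupp.ext fun i => ?_
    show (t • (E a).2) i = 0
    have h1 : (t • (E a).2) i = t • ((E a).2 i) := by
      rfl
    rw [h1, nsmul_eq_mul]
    have h2 : ((t : ℕ) : ZMod (p i ^ e i)) = 0 := by
      rw [ZMod.natCast_eq_zero_iff]
      exact Finset.dvd_prod_of_mem _ (Finset.mem_univ i)
    rw [h2, zero_mul]

/-- there is a subgroup of finite index, on which the homologically trivial elements of `Γ` are
products of commutators -/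
theorem tors (G : Type) [Group G] [Group.FG G] (Γ : Subgroup G) [Γ.FiniteIndex] :
    ∃ K : Subgroup G, K.Characteristic ∧ K.FiniteIndex ∧ ∀ z (hz : z ∈ Γ), z ∈ K →
      (∀ f : Γ →* Multiplicative ℤ, f ⟨z, hz⟩ = 1) → z ∈ ⁅Γ, Γ⁆ := by
  have hfg : Group.FG Γ := inferInstance
  have hfa : Group.FG (Abelianization Γ) :=
    Group.fg_of_surjective (f := (Abelianization.of : Γ →* _)) (QuotientGroup.mk_surjective)
  have hfA : AddGroup.FG (Additive (Abelianization Γ)) := inferInstance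
  obtain ⟨t, ht, h⟩ := tors_ab (Additive (Abelianization Γ))
  -- the powers
  let P : Subgroup (Abelianization Γ) := (powMonoidHom t : Abelianization Γ →* _).range
  have hQ : Finite (Abelianization Γ ⧸ P) := by
    have h1 : Group.FG (Abelianization Γ ⧸ P) := inferInstance
    apply CommGroup.finite_of_fg_isMulTorsion
    intro q
    rw [isOfFinOrder_iff_pow_eq_one]
    refine ⟨t, ht, ?_⟩
    induction q using QuotientGroup.induction_on with
    | H a =>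
      rw [← QuotientGroup.mk_pow]
      exact (QuotientGroup.eq_one_iff _).2 ⟨a, rfl⟩
  have hP : P.FiniteIndex := Subgroup.finiteIndex_of_finite_quotient
  let K1 : Subgroup Γ := P.comap Abelianization.of
  have hK1 : K1.FiniteIndex := by
    refine ⟨?_⟩
    rw [Subgroup.index_comap_of_surjective _ QuotientGroup.mk_surjective]
    exact hP.index_ne_zero
  let K0 : Subgroup G := K1.map Γ.subtype
  have hK0 : K0.FiniteIndex := by
    refine ⟨?_⟩
    rw [Subgroup.index_map_subtype]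
    exact mul_ne_zero hK1.index_ne_zero Subgroup.FiniteIndex.index_ne_zero
  obtain ⟨K, hKc, hKf, hKle⟩ := Pool.Agent.TH933.JT.char_core K0.normalCore
  refine ⟨K, hKc, hKf, fun z hz hzK hf => ?_⟩
  obtain ⟨y, hy, hyz⟩ := K0.normalCore_le (hKle hzK)
  have hyz' : y = ⟨z, hz⟩ := Subtype.ext hyz
  subst hyz'
  obtain ⟨a, ha⟩ := hy
  have ha' : a ^ t = Abelianization.of (⟨z, hz⟩ : Γ) := ha
  have h1 : t • (Additive.ofMul a) = 0 := by
    apply h
    intro f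
    have h2 := hf ((AddMonoidHom.toMultiplicativeRight f).comp Abelianization.of)
    have h3 : (AddMonoidHom.toMultiplicativeRight f) (Abelianization.of (⟨z, hz⟩ : Γ)) = 1 := h2
    rw [← ha'] at h3
    exact congrArg Multiplicative.toAdd h3
  have h2 : Abelianization.of (⟨z, hz⟩ : Γ) = 1 := by
    rw [← ha']
    exact h1
  have h3 : (⟨z, hz⟩ : Γ) ∈ commutator Γ := by
    rw [← Abelianization.ker_of]
    exact h2
  have h9 : z ∈ (commutator Γ).map Γ.subtype := ⟨_, h3, rfl⟩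
  rwa [Subgroup.map_subtype_commutator] at h9

/-! ### The groups of automorphisms -/

/-- `φ` preserves `χ` -/
def Fix (χ : G →* ℤˣ) (φ : MulAut G) : Prop := ∀ x, χ (φ x) = χ x

namespace Fix

variable {χ : G →* ℤˣ}

theorem one : Fix χ 1 := fun _ => rfl

theorem mul {φ ψ : MulAut G} (h : Fix χ φ) (h' : Fix χ ψ) : Fix χ (φ * ψ) := by
  intro x
  rw [MulAut.mul_apply, h, h']

theorem inv {φ : MulAut G} (h : Fix χ φ) : Fix χ φ⁻¹ := by
  intro x
  have := h (φ⁻¹ x)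
  rw [← MulAut.mul_apply, mul_inv_cancel, MulAut.one_apply] at this
  exact this.symm

theorem comp_eq {φ : MulAut G} (h : Fix χ φ) : χ.comp φ.toMonoidHom = χ := MonoidHom.ext h

end Fix

/-- the stabiliser of `χ` -/
def St (χ : G →* ℤˣ) : Subgroup (MulAut G) where
  carrier := {φ | Fix χ φ}
  one_mem' := Fix.one
  mul_mem' := Fix.mul
  inv_mem' := Fix.inv

theorem mem_St {χ : G →* ℤˣ} {φ : MulAut G} : φ ∈ St χ ↔ Fix χ φ := Iff.rfl

/-- the automorphisms which act trivially on `G / Γ` -/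
def TA (G : Type) [Group G] : Subgroup (MulAut G) where
  carrier := {φ | ∀ χ : G →* ℤˣ, Fix χ φ}
  one_mem' := fun _ => Fix.one
  mul_mem' := fun h h' χ => (h χ).mul (h' χ)
  inv_mem' := fun h χ => (h χ).inv

theorem mem_TA {φ : MulAut G} : φ ∈ TA G ↔ ∀ χ : G →* ℤˣ, Fix χ φ := Iff.rfl

theorem mem_TA' {φ : MulAut G} : φ ∈ TA G ↔ ∀ x, φ x * x⁻¹ ∈ Gam G := by
  constructor
  · intro h x
    rw [mem_Gam]
    intro χ
    rw [map_mul, map_inv, mul_inv_eq_one]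
    exact h χ x
  · intro h χ x
    have h1 := mem_Gam.1 (h x) χ
    rw [map_mul, map_inv, mul_inv_eq_one] at h1
    exact h1

theorem ap_inv (g : MulAut G) (x : G) : g (g⁻¹ x) = x := by
  rw [← MulAut.mul_apply, mul_inv_cancel, MulAut.one_apply]

theorem inv_ap (g : MulAut G) (x : G) : g⁻¹ (g x) = x := by
  rw [← MulAut.mul_apply, inv_mul_cancel, MulAut.one_apply]

theorem TA.gam {φ : MulAut G} {γ : G} (hγ : γ ∈ Gam G) : φ γ ∈ Gam G :=
  Subgroup.characteristic_iff_le_comap.1 inferInstance φ hγ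

theorem Fix.conj {χ : G →* ℤˣ} {φ : MulAut G} (g : MulAut G)
    (h : Fix (χ.comp g.toMonoidHom) φ) : Fix χ (g * φ * g⁻¹) := by
  intro x
  have := h (g⁻¹ x)
  change χ (g (φ (g⁻¹ x))) = χ (g (g⁻¹ x)) at this
  rw [ap_inv] at this
  exact this

instance : (TA G).Normal := by
  constructor
  intro φ hφ g χ
  exact Fix.conj g (hφ _)

theorem Triv.one {χ : G →* ℤˣ} : Triv χ (1 : MulAut G) := fun _ _ _ _ => rfl

theorem Triv.mul {χ : G →* ℤˣ} {φ ψ : MulAut G} (h : Triv χ φ) (h' : Triv χ ψ) :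
    Triv χ (φ * ψ) := by
  intro d hd γ hγ
  rw [MulAut.mul_apply, h d hd _ (TA.gam hγ), h' d hd _ hγ]

theorem Triv.inv {χ : G →* ℤˣ} {φ : MulAut G} (h : Triv χ φ) : Triv χ φ⁻¹ := by
  intro d hd γ hγ
  have := h d hd (φ⁻¹ γ) (TA.gam hγ)
  rw [← MulAut.mul_apply, mul_inv_cancel, MulAut.one_apply] at this
  exact this.symm

theorem Triv.conj {χ : G →* ℤˣ} {φ : MulAut G} (g : MulAut G)
    (h : Triv (χ.comp g.toMonoidHom) φ) : Triv χ (g * φ * g⁻¹) := by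
  intro d hd γ hγ
  have := h _ (hd.comp g) (g⁻¹ γ) (TA.gam hγ)
  rw [ap_inv] at this
  exact this

/-- a derivation which is preserved on a generating set is preserved -/
theorem triv_of_gen {χ : G →* ℤˣ} {φ : MulAut G} (hf : Fix χ φ) {S : Set G}
    (hS : Subgroup.closure S = ⊤) (h : ∀ d, IsDer χ d → ∀ x ∈ S, d (φ x) = d x) : Triv χ φ := by
  intro d hd γ _
  exact (hd.comp' hf).ext_closure hd hS (h d hd) γ

/-- the automorphisms trivial on `G / Γ` and on the parts of the characters in `X` -/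
def NX (X : Set (G →* ℤˣ)) : Subgroup (MulAut G) where
  carrier := {ψ | ψ ∈ TA G ∧ ∀ χ' ∈ X, Triv χ' ψ}
  one_mem' := ⟨one_mem _, fun _ _ => Triv.one⟩
  mul_mem' := fun h h' => ⟨mul_mem h.1 h'.1, fun χ' hχ => (h.2 χ' hχ).mul (h'.2 χ' hχ)⟩
  inv_mem' := fun h => ⟨inv_mem h.1, fun χ' hχ => (h.2 χ' hχ).inv⟩

theorem mem_NX {X : Set (G →* ℤˣ)} {ψ : MulAut G} :
    ψ ∈ NX X ↔ ψ ∈ TA G ∧ ∀ χ' ∈ X, Triv χ' ψ := Iff.rfl

/-- conjugation -/
theorem NX.conj {X Y : Set (G →* ℤˣ)} {ψ : MulAut G} (g : MulAut G)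
    (hXY : ∀ χ ∈ Y, χ.comp g.toMonoidHom ∈ X) (h : ψ ∈ NX X) : g * ψ * g⁻¹ ∈ NX Y :=
  ⟨(inferInstance : (TA G).Normal).conj_mem _ h.1 g, fun χ' hχ =>
    Triv.conj g (h.2 _ (hXY χ' hχ))⟩

theorem NX.conj_TA {X : Set (G →* ℤˣ)} {ψ g : MulAut G} (hg : g ∈ TA G) (h : ψ ∈ NX X) :
    g * ψ * g⁻¹ ∈ NX X :=
  NX.conj g (fun χ hχ => by rwa [Fix.comp_eq (hg χ)]) h

/-- commutators -/
theorem NX.comm {X Y : Set (G →* ℤˣ)} {ψ φ : MulAut G} (h : ψ ∈ NX X) (h' : φ ∈ NX Y) :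
    ψ * φ * ψ⁻¹ * φ⁻¹ ∈ NX (X ∪ Y) := by
  refine ⟨?_, ?_⟩
  · exact mul_mem (mul_mem (mul_mem h.1 h'.1) (inv_mem h.1)) (inv_mem h'.1)
  · rintro χ (hχ | hχ)
    · have h1 := NX.conj_TA h'.1 (inv_mem h)
      have h2 := mul_mem h h1
      have h3 : ψ * (φ * ψ⁻¹ * φ⁻¹) = ψ * φ * ψ⁻¹ * φ⁻¹ := by group
      rw [h3] at h2
      exact h2.2 χ hχ
    · have h1 := NX.conj_TA h.1 h'
      have h2 := mul_mem h1 (inv_mem h')
      exact h2.2 χ hχ

end Pool.Agent.H364.PR
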