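import Pool.Agent.H364.PR.Form

/-!
# Dehn twists and handle swaps, with their values on the generators
-/

set_option autoImplicit false

namespace Pool.Agent.H364.PR

open Pool.Agent.TH933.SPC
open Pool.Agent.TH933.SPC.TWaux
open Matrix

variable {g : ℕ}

/-- `a_i` -/
abbrev ga (i : Fin g) : SS g := gn (Sum.inl i)

/-- `b_i` -/
abbrev gb (i : Fin g) : SS g := gn (Sum.inr i)

open FreeGroup (of) in
/-- `b_i ↦ b_i a_i` -/
theorem aU (i : Fin g) : ∃ ψ : MulAut (SS g), ψ (gb i) = gb i * ga i ∧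
    ∀ j, j ≠ Sum.inr i → ψ (gn j) = gn j := by
  let f : Fin g ⊕ Fin g → FG g := Function.update of (Sum.inr i) (of (Sum.inr i) * of (Sum.inl i))
  let f' : Fin g ⊕ Fin g → FG g :=
    Function.update of (Sum.inr i) (of (Sum.inr i) * (of (Sum.inl i))⁻¹)
  obtain ⟨ψ, hψ⟩ := mkAut f f' (rel_one f (by
      intro k
      by_cases hk : k = i
      · subst hk
        simp [km, f]
        group
      · simp [km, f, hk])) (rel_one f' (by
      intro k
      by_cases hk : k = i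
      · subst hk
        simp [km, f', mul_assoc]
      · simp [km, f', hk])) (by
      rintro (k | k)
      · simp [f, f']
      · by_cases hk : k = i
        · subst hk; simp [f, f']
        · simp [f, f', hk]) (by
      rintro (k | k)
      · simp [f, f']
      · by_cases hk : k = i
        · subst hk; simp [f, f']
        · simp [f, f', hk])
  refine ⟨ψ, ?_, fun j hj => ?_⟩
  · rw [hψ]
    simp only [f, Function.update_self]
    rw [map_mul]
    rfl
  · rw [hψ]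
    simp only [f, Function.update_of_ne hj]
    rfl

open FreeGroup (of) in
/-- `a_i ↦ a_i b_i` -/
theorem aL (i : Fin g) : ∃ ψ : MulAut (SS g), ψ (ga i) = ga i * gb i ∧
    ∀ j, j ≠ Sum.inl i → ψ (gn j) = gn j := by
  let f : Fin g ⊕ Fin g → FG g := Function.update of (Sum.inl i) (of (Sum.inl i) * of (Sum.inr i))
  let f' : Fin g ⊕ Fin g → FG g :=
    Function.update of (Sum.inl i) (of (Sum.inl i) * (of (Sum.inr i))⁻¹)
  obtain ⟨ψ, hψ⟩ := mkAut f f' (rel_one f (by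
      intro k
      by_cases hk : k = i
      · subst hk
        simp [km, f]
      · simp [km, f, hk])) (rel_one f' (by
      intro k
      by_cases hk : k = i
      · subst hk
        simp [km, f']
        group
      · simp [km, f', hk])) (by
      rintro (k | k)
      · by_cases hk : k = i
        · subst hk; simp [f, f']
        · simp [f, f', hk]
      · simp [f, f']) (by
      rintro (k | k)
      · by_cases hk : k = i
        · subst hk; simp [f, f']
        · simp [f, f', hk]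
      · simp [f, f'])
  refine ⟨ψ, ?_, fun j hj => ?_⟩
  · rw [hψ]
    simp only [f, Function.update_self]
    rw [map_mul]
    rfl
  · rw [hψ]
    simp only [f, Function.update_of_ne hj]
    rfl

/-- the curve `c` of the twist `aT` -/
def cT (i j : Fin g) : SS g := (gb i)⁻¹ * ga j * gb j * (ga j)⁻¹

theorem cT_eq (i j : Fin g) : TWaux.mk g (cw i j) = cT i j := by
  rw [cw, map_mul, map_mul, map_mul, map_inv, map_inv]
  rfl

/-- `a_i ↦ a_i c`, `b_i ↦ c⁻¹ b_i c`, `a_j ↦ c⁻¹ a_j` -/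
theorem aT (i j : Fin g) (h : (i : ℕ) + 1 = j) : ∃ ψ : MulAut (SS g),
    ψ (ga i) = ga i * cT i j ∧ ψ (gb i) = (cT i j)⁻¹ * gb i * cT i j ∧
    ψ (ga j) = (cT i j)⁻¹ * ga j ∧ ψ (gb j) = gb j ∧
    ∀ k, k ≠ i → k ≠ j → ψ (ga k) = ga k ∧ ψ (gb k) = gb k := by
  have hij : i ≠ j := by
    rintro rfl; omega
  have hinv : ((cw i j)⁻¹)⁻¹ = cw i j := inv_inv _
  obtain ⟨ψ, hψ⟩ := mkAut (ft i j (cw i j)) (ft i j (cw i j)⁻¹)
    (ft_rel i j hij _ h (Or.inl rfl)) (ft_rel i j hij _ h (Or.inr rfl))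
    (ft_ft i j hij _ (ft_c i j hij)) (by
      intro s
      have := ft_ft i j hij _ (ft_c' i j hij) s
      rwa [hinv] at this)
  refine ⟨ψ, ?_, ?_, ?_, ?_, fun k h1 h2 => ⟨?_, ?_⟩⟩
  · rw [hψ, ft_li i j hij, map_mul, cT_eq]
    rfl
  · rw [hψ, ft_ri i j hij, map_mul, map_mul, map_inv, cT_eq]
    rfl
  · rw [hψ, ft_lj i j hij, map_mul, map_inv, cT_eq]
    rfl
  · rw [hψ, ft_rj i j hij]
    rfl
  · rw [hψ, ft_l i j _ k h1 h2]
    rfl
  · rw [hψ, ft_r i j _ k h1]
    rfl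

/-- the commutator of the handle -/
def cK (i : Fin g) : SS g := ga i * gb i * (ga i)⁻¹ * (gb i)⁻¹

theorem cK_eq (i : Fin g) : TWaux.mk g (km FreeGroup.of i) = cK i := by
  rw [km, map_mul, map_mul, map_mul, map_inv, map_inv]
  rfl

/-- the handle swap -/
theorem aS (i j : Fin g) (h : (i : ℕ) + 1 = j) : ∃ ψ : MulAut (SS g),
    ψ (ga i) = cK i * ga j * (cK i)⁻¹ ∧ ψ (gb i) = cK i * gb j * (cK i)⁻¹ ∧
    ψ (ga j) = ga i ∧ ψ (gb j) = gb i ∧
    ∀ k, k ≠ i → k ≠ j → ψ (ga k) = ga k ∧ ψ (gb k) = gb k := by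
  have hij : i ≠ j := by
    rintro rfl; omega
  obtain ⟨ψ, hψ⟩ := mkAut (fs i j) (fs' i j)
    (fs_rel i j hij h) (fs'_rel i j hij h) (fs_fs' i j hij) (fs'_fs i j hij)
  refine ⟨ψ, ?_, ?_, ?_, ?_, fun k h1 h2 => ⟨?_, ?_⟩⟩
  · rw [hψ, fs_li i j hij, map_mul, map_mul, map_inv, cK_eq]
    rfl
  · rw [hψ, fs_ri i j hij, map_mul, map_mul, map_inv, cK_eq]
    rfl
  · rw [hψ, fs_lj]
    rfl
  · rw [hψ, fs_rj]
    rfl
  · rw [hψ, fs_l i j k h1 h2]
    rfl
  · rw [hψ, fs_r i j k h1 h2]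
    rfl

/-! ### The twist along the curve `b_i a_i⁻¹ b_i⁻¹ a_j` -/

/-- the word of the curve -/
def cv (i j : Fin g) : FG g :=
  FreeGroup.of (Sum.inr i) * (FreeGroup.of (Sum.inl i))⁻¹ * (FreeGroup.of (Sum.inr i))⁻¹ *
    FreeGroup.of (Sum.inl j)

/-- the twist -/
def fc (i j : Fin g) (p : FG g) : Fin g ⊕ Fin g → FG g :=
  Function.update (Function.update (Function.update FreeGroup.of (Sum.inr i)
    (p * FreeGroup.of (Sum.inr i))) (Sum.inl j) (p * FreeGroup.of (Sum.inl j) * p⁻¹))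
    (Sum.inr j) (FreeGroup.of (Sum.inr j) * p⁻¹)

section
variable (i j : Fin g) (hij : i ≠ j) (p : FG g)

theorem fc_li (hij : i ≠ j) : fc i j p (Sum.inl i) = FreeGroup.of (Sum.inl i) := by
  simp [fc, hij]

theorem fc_ri (hij : i ≠ j) : fc i j p (Sum.inr i) = p * FreeGroup.of (Sum.inr i) := by
  simp [fc, hij]

theorem fc_lj : fc i j p (Sum.inl j) = p * FreeGroup.of (Sum.inl j) * p⁻¹ := by
  simp [fc]

theorem fc_rj : fc i j p (Sum.inr j) = FreeGroup.of (Sum.inr j) * p⁻¹ := by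
  simp [fc]

theorem fc_l (k : Fin g) (h2 : k ≠ j) : fc i j p (Sum.inl k) = FreeGroup.of (Sum.inl k) := by
  simp [fc, h2]

theorem fc_r (k : Fin g) (h1 : k ≠ i) (h2 : k ≠ j) :
    fc i j p (Sum.inr k) = FreeGroup.of (Sum.inr k) := by
  simp [fc, h1, h2]

include hij

theorem fc_c : FreeGroup.lift (fc i j (cv i j)) (cv i j) = cv i j := by
  rw [cv]
  simp only [map_mul, map_inv, FreeGroup.lift_apply_of]
  rw [fc_ri i j _ hij, fc_lj i j, fc_li i j _ hij]
  group

theorem fc_c' : FreeGroup.lift (fc i j (cv i j)⁻¹) (cv i j)⁻¹ = (cv i j)⁻¹ := by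
  rw [cv]
  simp only [map_mul, map_inv, FreeGroup.lift_apply_of]
  rw [fc_ri i j _ hij, fc_lj i j, fc_li i j _ hij]
  group

theorem fc_fc (hp : FreeGroup.lift (fc i j p) p = p) (s : Fin g ⊕ Fin g) :
    FreeGroup.lift (fc i j p) (fc i j p⁻¹ s) = FreeGroup.of s := by
  rcases s with k | k
  · by_cases h2 : k = j
    · subst h2
      rw [fc_lj]
      simp only [map_mul, map_inv, hp, FreeGroup.lift_apply_of]
      rw [fc_lj]
      group
    · rw [fc_l i j _ k h2, FreeGroup.lift_apply_of, fc_l i j _ k h2]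
  · by_cases h1 : k = i
    · subst h1
      rw [fc_ri k j _ hij, map_mul, map_inv, hp, FreeGroup.lift_apply_of, fc_ri k j _ hij]
      group
    · by_cases h2 : k = j
      · subst h2
        rw [fc_rj, map_mul, map_inv, map_inv, hp, FreeGroup.lift_apply_of, fc_rj]
        group
      · rw [fc_r i j _ k h1 h2, FreeGroup.lift_apply_of, fc_r i j _ k h1 h2]

theorem fc_rel (h : (i : ℕ) + 1 = j) (hp : p = cv i j ∨ p = (cv i j)⁻¹) :
    FreeGroup.lift (fc i j p) (rel g) = rel g := by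
  apply rel_two _ i j h
  · intro k h1 h2
    rw [km, km, fc_l i j _ k h2, fc_r i j _ k h1 h2]
  · rw [km, km, km, km, fc_li i j _ hij, fc_ri i j _ hij, fc_lj i j, fc_rj i j]
    rcases hp with rfl | rfl
    · rw [cv]; group
    · rw [cv]; group

end

/-- the curve in the surface group -/
def cC (i j : Fin g) : SS g := gb i * (ga i)⁻¹ * (gb i)⁻¹ * ga j

theorem cC_eq (i j : Fin g) : TWaux.mk g (cv i j) = cC i j := by
  rw [cv, map_mul, map_mul, map_mul, map_inv, map_inv]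
  rfl

/-- `b_i ↦ c b_i`, `a_j ↦ c a_j c⁻¹`, `b_j ↦ b_j c⁻¹` -/
theorem aC (i j : Fin g) (h : (i : ℕ) + 1 = j) : ∃ ψ : MulAut (SS g),
    ψ (ga i) = ga i ∧ ψ (gb i) = cC i j * gb i ∧
    ψ (ga j) = cC i j * ga j * (cC i j)⁻¹ ∧ ψ (gb j) = gb j * (cC i j)⁻¹ ∧
    ∀ k, k ≠ i → k ≠ j → ψ (ga k) = ga k ∧ ψ (gb k) = gb k := by
  have hij : i ≠ j := by
    rintro rfl; omega
  have hinv : ((cv i j)⁻¹)⁻¹ = cv i j := inv_inv _
  obtain ⟨ψ, hψ⟩ := mkAut (fc i j (cv i j)) (fc i j (cv i j)⁻¹)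
    (fc_rel i j hij _ h (Or.inl rfl)) (fc_rel i j hij _ h (Or.inr rfl))
    (fc_fc i j hij _ (fc_c i j hij)) (by
      intro s
      have := fc_fc i j hij _ (fc_c' i j hij) s
      rwa [hinv] at this)
  refine ⟨ψ, ?_, ?_, ?_, ?_, fun k h1 h2 => ⟨?_, ?_⟩⟩
  · rw [hψ, fc_li i j _ hij]
    rfl
  · rw [hψ, fc_ri i j _ hij, map_mul, cC_eq]
    rfl
  · rw [hψ, fc_lj i j, map_mul, map_mul, map_inv, cC_eq]
    rfl
  · rw [hψ, fc_rj i j, map_mul, map_inv, cC_eq]
    rfl
  · rw [hψ, fc_l i j _ k h2]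
    rfl
  · rw [hψ, fc_r i j _ k h1 h2]
    rfl

open FreeGroup (of) in
/-- the twist along the boundary of the handle `i` -/
theorem aD (i : Fin g) : ∃ ψ : MulAut (SS g), ψ (ga i) = cK i * ga i * (cK i)⁻¹ ∧
    ψ (gb i) = cK i * gb i * (cK i)⁻¹ ∧
    ∀ k, k ≠ i → ψ (ga k) = ga k ∧ ψ (gb k) = gb k := by
  let F : FG g → Fin g ⊕ Fin g → FG g := fun p =>
    Function.update (Function.update of (Sum.inl i) (p * of (Sum.inl i) * p⁻¹))
      (Sum.inr i) (p * of (Sum.inr i) * p⁻¹)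
  have F1 : ∀ p, F p (Sum.inl i) = p * of (Sum.inl i) * p⁻¹ := fun p => by simp [F]
  have F2 : ∀ p, F p (Sum.inr i) = p * of (Sum.inr i) * p⁻¹ := fun p => by simp [F]
  have F3 : ∀ p k, k ≠ i → F p (Sum.inl k) = of (Sum.inl k) := fun p k hk => by simp [F, hk]
  have F4 : ∀ p k, k ≠ i → F p (Sum.inr k) = of (Sum.inr k) := fun p k hk => by simp [F, hk]
  have hk : ∀ p, km (F p) i = p * km of i * p⁻¹ := by
    intro p
    rw [km, F1, F2, km]
    group
  have hc : ∀ p, FreeGroup.lift (F p) (km of i) = p * km of i * p⁻¹ := by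
    intro p
    rw [← hk, lift_km]
  have hrel : ∀ p, (p = km of i ∨ p = (km of i)⁻¹) → FreeGroup.lift (F p) (rel g) = rel g := by
    intro p hp
    apply rel_one
    intro k
    by_cases h1 : k = i
    · subst h1
      rw [hk]
      rcases hp with rfl | rfl
      · group
      · group
    · rw [km, km, F3 p k h1, F4 p k h1]
  have hinv : ∀ p q, FreeGroup.lift (F p) q = p⁻¹ → ∀ s, FreeGroup.lift (F p) (F q s) = of s := by
    rintro p q hpq (k | k)
    · by_cases h1 : k = i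
      · subst h1
        rw [F1, map_mul, map_mul, map_inv, hpq, FreeGroup.lift_apply_of, F1]
        group
      · rw [F3 q k h1, FreeGroup.lift_apply_of, F3 p k h1]
    · by_cases h1 : k = i
      · subst h1
        rw [F2, map_mul, map_mul, map_inv, hpq, FreeGroup.lift_apply_of, F2]
        group
      · rw [F4 q k h1, FreeGroup.lift_apply_of, F4 p k h1]
  obtain ⟨ψ, hψ⟩ := mkAut (F (km of i)) (F (km of i)⁻¹) (hrel _ (Or.inl rfl))
    (hrel _ (Or.inr rfl)) (hinv _ _ (by rw [map_inv, hc]; group))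
    (hinv _ _ (by rw [hc]; group))
  refine ⟨ψ, ?_, ?_, fun k h1 => ⟨?_, ?_⟩⟩
  · rw [hψ, F1, map_mul, map_mul, map_inv, cK_eq]
    rfl
  · rw [hψ, F2, map_mul, map_mul, map_inv, cK_eq]
    rfl
  · rw [hψ, F3 _ k h1]
    rfl
  · rw [hψ, F4 _ k h1]
    rfl

end Pool.Agent.H364.PR
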